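import Pool.Agent.H63.MA.GCd
import Pool.Agent.H63.MB.BDef

/-!
# MC-CDEF: definitions for the asymptotic formula (Galois part)

* `DP K Ω`: a prime `P v` of the ring `𝓞 Ω` of all integers over every prime `v` of `K`.
* `dec P`: the decomposition group of `P`.
* `Teq S Q φ φ'`: `φ` and `φ'` agree on the decomposition groups of the primes `P v`, `v ∈ S` (same local type).
* `Cl p P u`: `u ∈ Ω` is `1` modulo more than `p ^ 2` at `P`: `u - 1 = p² a / s`, `a ∈ P`, `s ∉ P`.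
* `XF D L Dg ε f`: the homomorphisms `φ : Γ → G` of finite type with Kummer data `ak ε f` and ramification `f`.
* `Nex D f`: the family `f` is not exceptional: the classes `q v`, `v ∈ f i`, span, for every `i`.
-/

set_option autoImplicit false

open scoped NumberField
open IsDedekindDomain

noncomputable section

namespace H63.MA

variable {K : Type} [Field K] [NumberField K] {Ω : Type} [Field Ω] [Algebra K Ω]

/-- primes over the primes of `K` -/
structure DP (K : Type) [Field K] [NumberField K] (Ω : Type) [Field Ω] [Algebra K Ω] where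
  P : Pl K → Ideal (𝓞 Ω)
  prime : ∀ v, (P v).IsPrime
  under : ∀ v, (P v).under (𝓞 K) = v.asIdeal

/-- the decomposition group -/
def dec (P : Ideal (𝓞 Ω)) : Subgroup Gal(Ω/K) where
  carrier := {σ | ∀ x : 𝓞 Ω, σ • x ∈ P ↔ x ∈ P}
  mul_mem' := by
    intro σ τ hσ hτ x
    rw [mul_smul, hσ, hτ]
  one_mem' := by
    intro x
    rw [one_smul]
  inv_mem' := by
    intro σ hσ x
    have h := hσ (σ⁻¹ • x)
    rw [smul_inv_smul] at h
    exact h.symm

/-- the same behaviour at the decomposition groups of the primes in `S` -/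
def Teq (S : Finset (Pl K)) (Q : DP K Ω) {G : Type} [Group G] (φ φ' : Gal(Ω/K) →* G) : Prop :=
  ∀ v ∈ S, ∀ σ ∈ dec (K := K) (Q.P v), φ σ = φ' σ

/-- `u` is `1` modulo more than `p ^ 2` at `P` -/
def Cl (p : ℕ) (P : Ideal (𝓞 Ω)) (u : Ω) : Prop :=
  ∃ a s : 𝓞 Ω, a ∈ P ∧ s ∉ P ∧ (s : Ω) * (u - 1) = (p : Ω) ^ 2 * (a : Ω)

/-- the homomorphisms with Kummer data `ak ε f` and ramification `f` -/
def XF {p m N : ℕ} {ζ : K} (D : RD0 K p ζ) (L : LDs D Ω) {G : Type} [Group G] (Dg : GD p m N G)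
    (ε : Fin m → Kˣ) (f : Fin N → Finset (Pl K)) : Set (Gal(Ω/K) →* G) :=
  {φ | H38.ML.FT φ ∧
    (∀ σ k, Multiplicative.toAdd (Dg.π (φ σ)) k = kk p ζ (ak D Dg.cd ε f k) σ) ∧
    ∀ i v, v ∉ D.S0 → (v ∈ f i ↔ IsConj (φ (L.t v)) (Dg.g i))}

/-- the classes of the primes in every `f i` span -/
def Nex {p N : ℕ} {ζ : K} (D : RD0 K p ζ) (f : Fin N → Finset (Pl K)) : Prop :=
  ∀ i, ∀ κ : Fin D.r → ZMod p, κ ≠ 0 → ∃ v ∈ f i, dt κ (D.q v) ≠ 0

/-- pairwise disjoint sets of primes outside `S0` -/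
def Ok {p N : ℕ} {ζ : K} (D : RD0 K p ζ) (f : Fin N → Finset (Pl K)) : Prop :=
  Dj f ∧ ∀ i, ∀ v ∈ f i, v ∉ D.S0

end H63.MA
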