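import Pool.Agent.H63.MC.CHa

/-!
# MC-CHB: counting homomorphisms with ramification in given subgroups

`W` as in `CHA`, `A i ≤ W` subgroups generating `W`, `f` with `Ok D f`. `HF D L A f`: the homomorphisms `χ : Γ → W` of finite type with `χ (t v) ∈ A i` for `v ∈ f i` and `χ (t v) = 1` for the other `v ∉ S0`. It is a subgroup of the commutative group `Γ →* W` (homomorphisms of finite type form a subgroup).
* `hf_card`: with `y₀` = number of the `χ` of finite type with `χ (t v) = 1` for all `v ∉ S0` (`hw_fin`, `≥ 1`) and `h₀` = number of types (classes of homomorphisms `χ` of finite type modulo `Teq S0 Q`; finite by `hw_types`, `≥ 1`): `#HF = y₀ ∏_i #(A i)^{#(f i)}`, and if `f` is not exceptional, every type has exactly `#HF / h₀` representatives in `HF`.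
  Proof. First statement: the homomorphism `HF → ∏_i ∏_{v ∈ f i} A i`, `χ ↦ (χ (t v))`, is surjective (`hw_ex`) with kernel the group of order `y₀`; so `HF` is finite of the given order.
  Second statement: let `𝓓` be the (finite) quotient of the group of all homomorphisms of finite type by the subgroup of those which are trivial on all `dec (P v)`, `v ∈ S0`; `Teq S0 Q χ χ'` iff `χ, χ'` have the same image in `𝓓`, `h₀ = #𝓓`. Claim: `HF → 𝓓` is surjective; then all fibres have the same number of elements.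
  Let `χ` be of finite type, `T` a finite set of primes outside `S0` containing `⋃ f i` and the `v` with `χ (t v) ≠ 1` (`ram_finite`). We want `s : Pl K → W` supported in `T` with (1) `χ (t v) s v ∈ A i` for `v ∈ f i`, (2) `s v = χ (t v)⁻¹` for `v ∈ T ∖ ⋃ f i`, (3) `∏_{v ∈ T} (s v)^{(q v j).val} = 1` for all `j`. Then `λ` from `hw_lt`
  gives `χ λ ∈ HF` of the same type as `χ`. Put `s v = χ (t v)⁻¹ h v` with `h v ∈ A i` for `v ∈ f i` and `h v = 1` otherwise; (3) says `∏_{v ∈ ⋃ f i} (h v)^{(q v j).val} = ω j` for all `j`, where `ω j = ∏_{v ∈ T} χ (t v)^{(q v j).val} ∈ W`. The set of the `ω ∈ W^r` which are reached is a subgroup of `W^r`. It contains for every `i`,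
  every `x ∈ A i` and every `y ∈ (ZMod p)^r` the element `(x^{y j})_j`: the `q v`, `v ∈ f i`, span `(ZMod p)^r` (if a proper subspace, some `κ ≠ 0` kills all of them, contradicting `Nex`), so `y = ∑_{v ∈ f i} α v q v` and `h v = x^{α v}` does it. As the `A i` generate `W`, it is all of `W^r`.
-/

set_option autoImplicit false

open scoped NumberField
open IsDedekindDomain

noncomputable section

namespace H63.MA

variable {K : Type} [Field K] [NumberField K] {Ω : Type} [Field Ω] [Algebra K Ω]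
  [IsAlgClosure K Ω] {p N : ℕ} {ζ : K} {W : Type} [CommGroup W] [Finite W]

/-- homomorphisms with ramification in the subgroups `A i` -/
def HF (D : RD0 K p ζ) (L : LDs D Ω) (A : Fin N → Subgroup W) (f : Fin N → Finset (Pl K)) :
    Set (Gal(Ω/K) →* W) :=
  {χ | H38.ML.FT χ ∧ (∀ i, ∀ v ∈ f i, χ (L.t v) ∈ A i) ∧
    ∀ v, v ∉ D.S0 → (∀ i, v ∉ f i) → χ (L.t v) = 1}

section chb

variable {H : Type} [CommGroup H]

omit [NumberField K] [IsAlgClosure K Ω] in
theorem chb_ft_one : H38.ML.FT (1 : Gal(Ω/K) →* H) :=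
  ⟨⊥, inferInstance, fun σ _ => by rw [MonoidHom.mem_ker, MonoidHom.one_apply]⟩

omit [NumberField K] [IsAlgClosure K Ω] in
theorem chb_ft_mul {χ χ' : Gal(Ω/K) →* H} (h : H38.ML.FT χ) (h' : H38.ML.FT χ') :
    H38.ML.FT (χ * χ') := by
  obtain ⟨E, hE, hle⟩ := h
  obtain ⟨E', hE', hle'⟩ := h'
  refine ⟨E ⊔ E', inferInstance, fun σ hσ => ?_⟩
  have h1 : σ ∈ E.fixingSubgroup := IntermediateField.fixingSubgroup_antitone le_sup_left hσ
  have h2 : σ ∈ E'.fixingSubgroup := IntermediateField.fixingSubgroup_antitone le_sup_right hσ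
  have h3 := MonoidHom.mem_ker.1 (hle h1)
  have h4 := MonoidHom.mem_ker.1 (hle' h2)
  rw [MonoidHom.mem_ker, MonoidHom.mul_apply, h3, h4, mul_one]

omit [NumberField K] [IsAlgClosure K Ω] in
theorem chb_ft_inv {χ : Gal(Ω/K) →* H} (h : H38.ML.FT χ) : H38.ML.FT χ⁻¹ := by
  obtain ⟨E, hE, hle⟩ := h
  refine ⟨E, hE, fun σ hσ => ?_⟩
  have h3 := MonoidHom.mem_ker.1 (hle hσ)
  rw [MonoidHom.mem_ker, MonoidHom.inv_apply, h3, inv_one]

end chb

/-- the homomorphisms of finite type -/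
def chbFT (K Ω W : Type) [Field K] [Field Ω] [Algebra K Ω] [CommGroup W] :
    Subgroup (Gal(Ω/K) →* W) where
  carrier := {χ | H38.ML.FT χ}
  mul_mem' := chb_ft_mul
  one_mem' := chb_ft_one
  inv_mem' := chb_ft_inv

/-- `HF` as a subgroup -/
def chbHF (D : RD0 K p ζ) (L : LDs D Ω) (A : Fin N → Subgroup W) (f : Fin N → Finset (Pl K)) :
    Subgroup (Gal(Ω/K) →* W) where
  carrier := HF D L A f
  mul_mem' := by
    rintro χ χ' ⟨h1, h2, h3⟩ ⟨h1', h2', h3'⟩
    refine ⟨chb_ft_mul h1 h1', fun i v hv => ?_, fun v hv hv' => ?_⟩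
    · rw [MonoidHom.mul_apply]
      exact mul_mem (h2 i v hv) (h2' i v hv)
    · rw [MonoidHom.mul_apply, h3 v hv hv', h3' v hv hv', mul_one]
  one_mem' := by
    refine ⟨chb_ft_one, fun i v _ => ?_, fun v _ _ => ?_⟩
    · rw [MonoidHom.one_apply]
      exact one_mem _
    · rw [MonoidHom.one_apply]
  inv_mem' := by
    rintro χ ⟨h1, h2, h3⟩
    refine ⟨chb_ft_inv h1, fun i v hv => ?_, fun v hv hv' => ?_⟩
    · rw [MonoidHom.inv_apply]
      exact inv_mem (h2 i v hv)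
    · rw [MonoidHom.inv_apply, h3 v hv hv', inv_one]

/-- the homomorphisms of finite type unramified outside `S0` -/
def chbU (D : RD0 K p ζ) (L : LDs D Ω) (W : Type) [CommGroup W] :
    Subgroup (Gal(Ω/K) →* W) where
  carrier := {χ : Gal(Ω/K) →* W | H38.ML.FT χ ∧ ∀ v, v ∉ D.S0 → χ (L.t v) = 1}
  mul_mem' := by
    rintro χ χ' ⟨h1, h3⟩ ⟨h1', h3'⟩
    refine ⟨chb_ft_mul h1 h1', fun v hv => ?_⟩
    rw [MonoidHom.mul_apply, h3 v hv, h3' v hv, mul_one]
  one_mem' := ⟨chb_ft_one, fun v _ => MonoidHom.one_apply _⟩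
  inv_mem' := by
    rintro χ ⟨h1, h3⟩
    refine ⟨chb_ft_inv h1, fun v hv => ?_⟩
    rw [MonoidHom.inv_apply, h3 v hv, inv_one]

/-- the homomorphisms of finite type trivial on the decomposition groups of `S0` -/
def chbV (D : RD0 K p ζ) (Q : DP K Ω) (W : Type) [CommGroup W] :
    Subgroup (Gal(Ω/K) →* W) where
  carrier := {χ : Gal(Ω/K) →* W | H38.ML.FT χ ∧
    ∀ v ∈ D.S0, ∀ σ ∈ dec (K := K) (Q.P v), χ σ = 1}
  mul_mem' := by
    rintro χ χ' ⟨h1, h3⟩ ⟨h1', h3'⟩
    refine ⟨chb_ft_mul h1 h1', fun v hv σ hσ => ?_⟩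
    rw [MonoidHom.mul_apply, h3 v hv σ hσ, h3' v hv σ hσ, mul_one]
  one_mem' := ⟨chb_ft_one, fun v _ σ _ => MonoidHom.one_apply _⟩
  inv_mem' := by
    rintro χ ⟨h1, h3⟩
    refine ⟨chb_ft_inv h1, fun v hv σ hσ => ?_⟩
    rw [MonoidHom.inv_apply, h3 v hv σ hσ, inv_one]

/-- the evaluation at the primes of `f` -/
def chbEv (D : RD0 K p ζ) (L : LDs D Ω) (A : Fin N → Subgroup W) (f : Fin N → Finset (Pl K)) :
    chbHF D L A f →* ((x : (i : Fin N) × (f i)) → A x.1) where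
  toFun χ x := ⟨χ.1 (L.t x.2.1), χ.2.2.1 x.1 x.2.1 x.2.2⟩
  map_one' := by
    funext x
    apply Subtype.ext
    exact MonoidHom.one_apply _
  map_mul' χ χ' := by
    funext x
    apply Subtype.ext
    exact MonoidHom.mul_apply _ _ _

open Classical in
/-- extension of a family -/
def chbExt {A : Fin N → Subgroup W} {f : Fin N → Finset (Pl K)}
    (s : (x : (i : Fin N) × (f i)) → A x.1) (v : Pl K) : W :=
  if h : ∃ i, v ∈ f i then (s ⟨h.choose, ⟨v, h.choose_spec⟩⟩ : W) else 1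

theorem chbExt_mem {A : Fin N → Subgroup W} {f : Fin N → Finset (Pl K)} (hf : Dj f)
    (s : (x : (i : Fin N) × (f i)) → A x.1) {i : Fin N} {v : Pl K} (hv : v ∈ f i) :
    chbExt s v = s ⟨i, ⟨v, hv⟩⟩ := by
  have h : ∃ i, v ∈ f i := ⟨i, hv⟩
  unfold chbExt
  rw [dif_pos h]
  have h1 : h.choose = i := by
    by_contra h2
    exact (Finset.disjoint_left.1 (hf _ _ h2)) h.choose_spec hv
  have key : ∀ (j : Fin N) (hj : v ∈ f j), j = i → (s ⟨j, ⟨v, hj⟩⟩ : W) = s ⟨i, ⟨v, hv⟩⟩ := by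
    intro j hj hji
    subst hji
    rfl
  exact key _ _ h1

theorem chbExt_notMem {A : Fin N → Subgroup W} {f : Fin N → Finset (Pl K)}
    (s : (x : (i : Fin N) × (f i)) → A x.1) {v : Pl K} (hv : ∀ i, v ∉ f i) :
    chbExt s v = 1 := by
  unfold chbExt
  rw [dif_neg]
  rintro ⟨i, hi⟩
  exact hv i hi

theorem chbEv_sur (hp : p.Prime) (hζ : IsPrimitiveRoot ζ p) (D : RD0 K p ζ)
    (L : LDs D Ω) (hW : ∀ w : W, w ^ p = 1) (A : Fin N → Subgroup W)
    (f : Fin N → Finset (Pl K)) (hf : Ok D f) : Function.Surjective (chbEv D L A f) := by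
  classical
  intro s
  have hfin : {v | chbExt s v ≠ 1}.Finite := by
    apply (Finset.univ.biUnion f).finite_toSet.subset
    intro v hv
    by_contra h
    apply hv
    apply chbExt_notMem
    intro i hi
    apply h
    rw [Finset.mem_coe, Finset.mem_biUnion]
    exact ⟨i, Finset.mem_univ i, hi⟩
  obtain ⟨χ, h1, h2⟩ := hw_ex hp hζ D L hW (chbExt s) hfin
  refine ⟨⟨χ, h1, fun i v hv => ?_, fun v hv hv' => ?_⟩, ?_⟩
  · rw [h2 v (hf.2 i v hv), chbExt_mem hf.1 s hv]
    exact (s ⟨i, ⟨v, hv⟩⟩).2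
  · rw [h2 v hv, chbExt_notMem s hv']
  · funext x
    obtain ⟨i, v, hv⟩ := x
    apply Subtype.ext
    change χ (L.t v) = _
    rw [h2 v (hf.2 i v hv), chbExt_mem hf.1 s hv]

theorem chbEv_ker (D : RD0 K p ζ) (L : LDs D Ω) (A : Fin N → Subgroup W)
    (f : Fin N → Finset (Pl K)) (hf : Ok D f) :
    Nat.card (chbEv D L A f).ker = Nat.card (chbU D L W) := by
  apply Nat.card_congr
  refine ⟨fun χ => ⟨χ.1.1, χ.1.2.1, fun v hv => ?_⟩, fun χ => ⟨⟨χ.1, χ.2.1, fun i v hv => ?_,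
    fun v hv _ => χ.2.2 v hv⟩, ?_⟩, fun χ => rfl, fun χ => rfl⟩
  · by_cases h : ∃ i, v ∈ f i
    · obtain ⟨i, hi⟩ := h
      have h1 := MonoidHom.mem_ker.1 χ.2
      have h2 := congrArg Subtype.val (congrFun h1 ⟨i, ⟨v, hi⟩⟩)
      exact h2
    · push Not at h
      exact χ.1.2.2.2 v hv h
  · rw [χ.2.2 v (hf.2 i v hv)]
    exact one_mem _
  · rw [MonoidHom.mem_ker]
    funext x
    obtain ⟨i, v, hv⟩ := x
    apply Subtype.ext
    exact χ.2.2 v (hf.2 i v hv)

/-- the sums reached by corrections at the primes of `f` -/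
def chbR (D : RD0 K p ζ) (A : Fin N → Subgroup W) (f : Fin N → Finset (Pl K))
    (T : Finset (Pl K)) : Subgroup (Fin D.r → W) where
  carrier := {ω | ∃ h : Pl K → W, (∀ i, ∀ v ∈ f i, h v ∈ A i) ∧
    (∀ v, (∀ i, v ∉ f i) → h v = 1) ∧ ∀ j, ∏ v ∈ T, h v ^ (D.q v j).val = ω j}
  mul_mem' := by
    rintro ω ω' ⟨h, h1, h2, h3⟩ ⟨h', h1', h2', h3'⟩
    refine ⟨fun v => h v * h' v, fun i v hv => mul_mem (h1 i v hv) (h1' i v hv),
      fun v hv => ?_, fun j => ?_⟩
    · change h v * h' v = 1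
      rw [h2 v hv, h2' v hv, mul_one]
    · rw [Pi.mul_apply, ← h3 j, ← h3' j, ← Finset.prod_mul_distrib]
      exact Finset.prod_congr rfl fun v _ => mul_pow _ _ _
  one_mem' := ⟨fun _ => 1, fun i v _ => one_mem _, fun v _ => rfl, fun j => by
    simp only [one_pow, Finset.prod_const_one, Pi.one_apply]⟩
  inv_mem' := by
    rintro ω ⟨h, h1, h2, h3⟩
    refine ⟨fun v => (h v)⁻¹, fun i v hv => inv_mem (h1 i v hv), fun v hv => ?_, fun j => ?_⟩
    · change (h v)⁻¹ = 1
      rw [h2 v hv, inv_one]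
    · rw [Pi.inv_apply, ← h3 j, ← Finset.prod_inv_distrib]
      exact Finset.prod_congr rfl fun v _ => inv_pow _ _

/-- the classes span -/
theorem chb_span [Fact p.Prime] (D : RD0 K p ζ) (f : Fin N → Finset (Pl K)) (hN : Nex D f)
    (i : Fin N) (y : Fin D.r → ZMod p) :
    ∃ α : Pl K → ZMod p, y = ∑ v ∈ f i, α v • D.q v := by
  classical
  have h1 : Submodule.span (ZMod p) (D.q '' (f i : Set (Pl K))) = ⊤ := by
    by_contra h
    obtain ⟨F, hF0, hF⟩ := Submodule.exists_le_ker_of_lt_top _ (lt_top_iff_ne_top.2 h)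
    have hFd : ∀ x : Fin D.r → ZMod p, F x = dt (fun k => F (Pi.single k 1)) x := by
      intro x
      conv_lhs => rw [← Finset.univ_sum_single x]
      rw [map_sum]
      unfold dt
      refine Finset.sum_congr rfl fun k _ => ?_
      have h2 : (Pi.single k (x k) : Fin D.r → ZMod p) = x k • Pi.single k 1 := by
        rw [← Pi.single_smul, smul_eq_mul, mul_one]
      rw [h2, map_smul, smul_eq_mul, mul_comm]
    obtain ⟨v, hv, hne⟩ := hN i (fun k => F (Pi.single k 1)) (by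
      intro h0
      apply hF0
      apply LinearMap.ext
      intro x
      rw [hFd, h0]
      unfold dt
      simp)
    apply hne
    rw [← hFd]
    exact LinearMap.mem_ker.1 (hF (Submodule.subset_span ⟨v, hv, rfl⟩))
  have h2 : y ∈ Submodule.span (ZMod p) (D.q '' (f i : Set (Pl K))) := by
    rw [h1]
    trivial
  obtain ⟨c, hc⟩ := (Submodule.mem_span_image_finset_iff_exists_fun' (ZMod p)).1 h2
  exact ⟨c, hc.symm⟩

theorem chb_pow [Fact p.Prime] (hW : ∀ w : W, w ^ p = 1) {a b : ℕ} (h : (a : ZMod p) = b)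
    (w : W) : w ^ a = w ^ b :=
  pow_eq_pow_of_modEq ((ZMod.natCast_eq_natCast_iff a b p).1 h) (hW w)

theorem chbR_top [Fact p.Prime] (D : RD0 K p ζ) (hW : ∀ w : W, w ^ p = 1)
    (A : Fin N → Subgroup W) (hA : ⨆ i, A i = ⊤) (f : Fin N → Finset (Pl K)) (hN : Nex D f)
    (hf : Dj f) (T : Finset (Pl K)) (hT : ∀ i, f i ⊆ T) : chbR D A f T = ⊤ := by
  classical
  have h1 : ∀ i, ∀ x ∈ A i, ∀ y : Fin D.r → ZMod p, (fun j => x ^ (y j).val) ∈ chbR D A f T := by
    intro i x hx y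
    obtain ⟨α, hα⟩ := chb_span D f hN i y
    refine ⟨fun v => if v ∈ f i then x ^ (α v).val else 1, fun i' v hv => ?_, fun v hv => ?_,
      fun j => ?_⟩
    · by_cases h : v ∈ f i
      · have : i = i' := by
          by_contra h2
          exact (Finset.disjoint_left.1 (hf _ _ h2)) h hv
        subst this
        simp only [h, if_true]
        exact pow_mem hx _
      · simp only [h, if_false]
        exact one_mem _
    · simp only [hv i, if_false]
    · have h2 : ∏ v ∈ T, (if v ∈ f i then x ^ (α v).val else 1) ^ (D.q v j).val =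
          ∏ v ∈ f i, x ^ ((α v).val * (D.q v j).val) := by
        rw [← Finset.prod_subset (hT i)]
        · refine Finset.prod_congr rfl fun v hv => ?_
          rw [if_pos hv, pow_mul]
        · intro v _ hv
          rw [if_neg hv, one_pow]
      change ∏ v ∈ T, (if v ∈ f i then x ^ (α v).val else 1) ^ (D.q v j).val = x ^ (y j).val
      rw [h2, Finset.prod_pow_eq_pow_sum]
      apply chb_pow hW
      rw [hα, Nat.cast_sum, Finset.sum_apply, ZMod.natCast_zmod_val]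
      refine Finset.sum_congr rfl fun v _ => ?_
      rw [Nat.cast_mul, ZMod.natCast_zmod_val, ZMod.natCast_zmod_val, Pi.smul_apply, smul_eq_mul]
  have h2 : ∀ j : Fin D.r, ∀ w : W, Pi.mulSingle j w ∈ chbR D A f T := by
    intro j w
    have hw : w ∈ ⨆ i, A i := by
      rw [hA]
      trivial
    induction hw using Subgroup.iSup_induction' with
    | hp i x hx =>
      have h3 := h1 i x hx (Pi.single j 1)
      have h4 : (fun j' => x ^ ((Pi.single j 1 : Fin D.r → ZMod p) j').val) = Pi.mulSingle j x := by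
        funext j'
        by_cases h : j' = j
        · subst h
          rw [Pi.single_eq_same, Pi.mulSingle_eq_same, ZMod.val_one, pow_one]
        · rw [Pi.single_eq_of_ne h, Pi.mulSingle_eq_of_ne h, ZMod.val_zero, pow_zero]
      rwa [h4] at h3
    | h1 =>
      rw [Pi.mulSingle_one]
      exact one_mem _
    | hmul x y _ _ hx hy =>
      rw [Pi.mulSingle_mul]
      exact mul_mem hx hy
  rw [eq_top_iff]
  intro ω _
  rw [← Finset.univ_prod_mulSingle ω]
  exact Subgroup.prod_mem _ fun j _ => h2 j (ω j)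

theorem chb_lift (hp : p.Prime) (hp2 : MOne p K) (hζ : IsPrimitiveRoot ζ p) (D : RD0 K p ζ)
    (L : LDs D Ω) (Q : DP K Ω) (hW : ∀ w : W, w ^ p = 1) (A : Fin N → Subgroup W)
    (hA : ⨆ i, A i = ⊤) (f : Fin N → Finset (Pl K)) (hf : Ok D f) (hN : Nex D f)
    (χ : Gal(Ω/K) →* W) (hχ : H38.ML.FT χ) : ∃ χ' ∈ HF D L A f, Teq D.S0 Q χ' χ := by
  classical
  have hpf : Fact p.Prime := ⟨hp⟩
  set T : Finset (Pl K) := (ram_finite hp D L χ hχ).toFinset ∪ Finset.univ.biUnion f with hTdef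
  have hfT : ∀ i, f i ⊆ T := fun i v hv => Finset.mem_union_right _
    (Finset.mem_biUnion.2 ⟨i, Finset.mem_univ i, hv⟩)
  have hTS : ∀ v ∈ T, v ∉ D.S0 := by
    intro v hv
    rcases Finset.mem_union.1 hv with h | h
    · exact ((Set.Finite.mem_toFinset _).1 h).1
    · obtain ⟨i, -, hi⟩ := Finset.mem_biUnion.1 h
      exact hf.2 i v hi
  have hT1 : ∀ v, v ∉ D.S0 → v ∉ T → χ (L.t v) = 1 := by
    intro v hv hvT
    by_contra h
    exact hvT (Finset.mem_union_left _ ((Set.Finite.mem_toFinset _).2 ⟨hv, h⟩))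
  have hω : (fun j => ∏ v ∈ T, χ (L.t v) ^ (D.q v j).val) ∈ chbR D A f T := by
    rw [chbR_top D hW A hA f hN hf.1 T hfT]
    trivial
  obtain ⟨h, h1, h2, h3⟩ := hω
  obtain ⟨l, hl1, hl2, hl3⟩ := hw_lt hp hp2 hζ D L Q hW
    (fun v => if v ∈ T then (χ (L.t v))⁻¹ * h v else 1) T hTS
    (fun v hv => if_neg hv) (by
      intro j
      have h4 : ∏ v ∈ T, (if v ∈ T then (χ (L.t v))⁻¹ * h v else 1) ^ (D.q v j).val =
          (∏ v ∈ T, χ (L.t v) ^ (D.q v j).val)⁻¹ * ∏ v ∈ T, h v ^ (D.q v j).val := by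
        rw [← Finset.prod_inv_distrib, ← Finset.prod_mul_distrib]
        refine Finset.prod_congr rfl fun v hv => ?_
        rw [if_pos hv, mul_pow, inv_pow]
      rw [h4, h3 j, inv_mul_cancel])
  have h5 : ∀ v, v ∉ D.S0 → (χ * l) (L.t v) = h v := by
    intro v hv
    rw [MonoidHom.mul_apply, hl2 v hv]
    by_cases hvT : v ∈ T
    · rw [if_pos hvT, mul_inv_cancel_left]
    · rw [if_neg hvT, mul_one, hT1 v hv hvT, h2 v fun i hi => hvT (hfT i hi)]
  refine ⟨χ * l, ⟨chb_ft_mul hχ hl1, fun i v hv => ?_, fun v hv hv' => ?_⟩, fun v hv σ hσ => ?_⟩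
  · rw [h5 v (hf.2 i v hv)]
    exact h1 i v hv
  · rw [h5 v hv]
    exact h2 v hv'
  · rw [MonoidHom.mul_apply, hl3 v hv σ hσ, mul_one]

theorem chb_teq (D : RD0 K p ζ) (Q : DP K Ω) {χ χ' : Gal(Ω/K) →* W} (hχ : H38.ML.FT χ)
    (hχ' : H38.ML.FT χ') : Teq D.S0 Q χ χ' ↔ χ'⁻¹ * χ ∈ chbV D Q W := by
  constructor
  · intro h
    refine ⟨chb_ft_mul (chb_ft_inv hχ') hχ, fun v hv σ hσ => ?_⟩
    rw [MonoidHom.mul_apply, MonoidHom.inv_apply, h v hv σ hσ, inv_mul_cancel]
  · intro h v hv σ hσ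
    have h1 := h.2 v hv σ hσ
    rw [MonoidHom.mul_apply, MonoidHom.inv_apply] at h1
    exact (inv_mul_eq_one.1 h1).symm

theorem hf_card (hp : p.Prime) (hp2 : MOne p K) (hζ : IsPrimitiveRoot ζ p) (D : RD0 K p ζ)
    (L : LDs D Ω) (Q : DP K Ω) (hW : ∀ w : W, w ^ p = 1) (A : Fin N → Subgroup W)
    (hA : ⨆ i, A i = ⊤) :
    ∃ y₀ h₀ : ℕ, 0 < y₀ ∧ 0 < h₀ ∧ ∀ f : Fin N → Finset (Pl K), Ok D f →
      (HF D L A f).Finite ∧ (HF D L A f).ncard = y₀ * ∏ i, Nat.card (A i) ^ (f i).card ∧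
      (Nex D f → ∀ χ₁ : Gal(Ω/K) →* W, H38.ML.FT χ₁ →
        h₀ * {χ ∈ HF D L A f | Teq D.S0 Q χ χ₁}.ncard = (HF D L A f).ncard) := by
  have hpf : Fact p.Prime := ⟨hp⟩
  have hU : Finite (chbU D L W) := (hw_fin hp hζ D L hW).to_subtype
  set V' := (chbV D Q W).subgroupOf (chbFT K Ω W) with hV'
  have hVfin : Finite (chbFT K Ω W ⧸ V') := by
    obtain ⟨R, hR1, hR2⟩ := hw_types hp hp2 hζ D L Q hW
    have h1 : ∀ x : chbFT K Ω W ⧸ V', ∃ χ' : R, x = QuotientGroup.mk
        (⟨χ'.1, hR1 χ'.1 χ'.2⟩ : chbFT K Ω W) := by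
      intro x
      obtain ⟨χ, rfl⟩ := QuotientGroup.mk_surjective x
      obtain ⟨χ', h2, h3⟩ := hR2 χ.1 χ.2
      refine ⟨⟨χ', h2⟩, ?_⟩
      symm
      rw [QuotientGroup.eq]
      exact (chb_teq D Q χ.2 (hR1 χ' h2)).1 h3
    choose g hg using h1
    have h2 : Function.Injective g := by
      intro x y hxy
      rw [hg x, hg y, hxy]
    exact Finite.of_injective g h2
  refine ⟨Nat.card (chbU D L W), Nat.card (chbFT K Ω W ⧸ V'), Nat.card_pos, Nat.card_pos, ?_⟩
  intro f hf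
  have hcard : ((chbHF D L A f : Subgroup (Gal(Ω/K) →* W)) : Set (Gal(Ω/K) →* W)) = HF D L A f := rfl
  have hsur := chbEv_sur hp hζ D L hW A f hf
  have e := QuotientGroup.quotientKerEquivOfSurjective _ hsur
  have hkf : Finite (chbEv D L A f).ker := by
    have h1 := chbEv_ker D L A f hf
    apply Nat.finite_of_card_ne_zero
    rw [h1]
    exact Nat.card_pos.ne'
  have hqf : Finite (chbHF D L A f ⧸ (chbEv D L A f).ker) := Finite.of_equiv _ e.symm.toEquiv
  have hHf : Finite (chbHF D L A f) := Finite.of_subgroup_quotient (chbEv D L A f).ker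
  have hfin : (HF D L A f).Finite := by
    rw [← hcard]
    exact Set.toFinite _
  have hnc : (HF D L A f).ncard = Nat.card (chbHF D L A f) := rfl
  refine ⟨hfin, ?_, ?_⟩
  · rw [hnc, Subgroup.card_eq_card_quotient_mul_card_subgroup (chbEv D L A f).ker,
      chbEv_ker D L A f hf, Nat.card_congr e.toEquiv, Nat.card_pi, Fintype.prod_sigma, mul_comm]
    congr 1
    refine Finset.prod_congr rfl fun i _ => ?_
    change ∏ _y : f i, Nat.card (A i) = _
    rw [Finset.prod_const, Finset.card_univ, Fintype.card_coe]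
  · intro hN χ₁ hχ₁
    set Ψ : chbHF D L A f →* chbFT K Ω W ⧸ V' := (QuotientGroup.mk' V').comp
      (Subgroup.inclusion (show chbHF D L A f ≤ chbFT K Ω W from fun χ h => h.1)) with hΨ
    have hΨs : Function.Surjective Ψ := by
      intro x
      obtain ⟨χ, rfl⟩ := QuotientGroup.mk_surjective x
      obtain ⟨χ', h2, h3⟩ := chb_lift hp hp2 hζ D L Q hW A hA f hf hN χ.1 χ.2
      refine ⟨⟨χ', h2⟩, ?_⟩
      symm
      change (QuotientGroup.mk χ : chbFT K Ω W ⧸ V') = QuotientGroup.mk (⟨χ', h2.1⟩ : chbFT K Ω W)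
      rw [QuotientGroup.eq]
      exact (chb_teq D Q h2.1 χ.2).1 h3
    obtain ⟨χ₂, h2, h3⟩ := chb_lift hp hp2 hζ D L Q hW A hA f hf hN χ₁ hχ₁
    have h4 : {χ ∈ HF D L A f | Teq D.S0 Q χ χ₁}.ncard = Nat.card Ψ.ker := by
      symm
      apply Nat.card_congr
      have hmem : ∀ χ : chbHF D L A f, χ ∈ Ψ.ker ↔ χ.1 ∈ chbV D Q W := by
        intro χ
        rw [MonoidHom.mem_ker]
        change (QuotientGroup.mk (⟨χ.1, χ.2.1⟩ : chbFT K Ω W) : chbFT K Ω W ⧸ V') = 1 ↔ _
        rw [QuotientGroup.eq_one_iff]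
        rfl
      refine ⟨fun χ => ⟨χ₂ * χ.1.1, (chbHF D L A f).mul_mem h2 χ.1.2, ?_⟩,
        fun χ => ⟨⟨χ₂⁻¹ * χ.1, (chbHF D L A f).mul_mem ((chbHF D L A f).inv_mem h2) χ.2.1⟩, ?_⟩,
        fun χ => ?_, fun χ => ?_⟩
      · intro v hv σ hσ
        rw [MonoidHom.mul_apply, h3 v hv σ hσ, ((hmem χ.1).1 χ.2).2 v hv σ hσ, mul_one]
      · rw [hmem]
        refine ⟨chb_ft_mul (chb_ft_inv h2.1) χ.2.1.1, fun v hv σ hσ => ?_⟩
        rw [MonoidHom.mul_apply, MonoidHom.inv_apply, h3 v hv σ hσ, χ.2.2 v hv σ hσ,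
          inv_mul_cancel]
      · apply Subtype.ext
        apply Subtype.ext
        exact inv_mul_cancel_left _ _
      · apply Subtype.ext
        exact mul_inv_cancel_left _ _
    rw [h4, hnc, Subgroup.card_eq_card_quotient_mul_card_subgroup Ψ.ker,
      Nat.card_congr (QuotientGroup.quotientKerEquivOfSurjective _ hΨs).toEquiv]

end H63.MA
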