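import Pool.Agent.H63.MC.CDa
import Pool.Agent.H63.MA.GDisU

/-!
# MC-CDB: the discriminant of the field of a homomorphism

`disc_form`: `K ⊆ QBar`, `G` regular of exponent `p`, `S0` contains all primes `v` with `n! ∈ v`. There is a function `d` such that for surjective `φ : Γ → G` of finite type: `relDisc K (fieldOf i₀ φ) = d φ (∏_{v ∈ T} nm v)^{indG G}`, `T` the set of the `v ∉ S0` with `φ (t v) ≠ 1`; `d φ ≥ 1`; and `d φ` depends only on the local type of `φ` at `S0`.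

Proof. `L = fieldOf i₀ φ`; `field_gal` (`MA/GSmall`): `L.fixingSubgroup = ker φ`, `L/K` Galois of degree `n`, exponent `p`. Put `d φ = ∏_{v ∈ S0} nm v ^ ldx K L v` for such `φ` (`1` otherwise). `relDisc K L` is the norm of the different (`dif_pos`). By `ldx_prod` it is enough to show for `v ∉ S0`: `ldx K L v = indG G` if `φ (t v) ≠ 1` and `0` if `φ (t v) = 1`.
Let `k = 1` in `H38.ML.sum_dexp_le` (`n! ∉ v` because `v ∉ S0`): `∑ f_P d_P + ∑ f_P ≤ n`. Lower bound: by `pow_sub_one_dvd_differentIdeal` (`gdisc_dvd` in `MA/GDisc`) `d_P ≥ e_P - 1`, so `∑ f_P d_P ≥ ∑ f_P e_P - ∑ f_P = n - ∑ f_P` (`Ideal.sum_ramification_inertia`, see `H38/ML/Disc.lean`). So `ldx K L v = n - ∑ f_P`. Since `L/K` is Galois all `e_P` are equal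
to `e` = the order of the inertia group in `Gal(L/K)` of the prime below `P v := (D.ld v).P`, which is the image of the inertia group of `(D.ld v).P`, generated by `φ (t v)` (`gdisu_map`, `H38.ML.exists_inertia`), so `e = 1` if `φ (t v) = 1` and `e = p` otherwise; `∑ f_P = n / e`; and `indG G = n - n / p` (`ind_reg` in `MA/GBeta`).
Local type: let `Teq S0 Q φ φ'`. For `v ∈ S0`, every `σ` in the inertia group of `Q.P v` is in `dec (Q.P v)` (`σ x - x ∈ P`), so `φ σ = φ' σ` and `σ ∈ ker φ ↔ σ ∈ ker φ'`; `ldx_congr` gives `ldx K L v = ldx K L' v`. So `d φ = d φ'`.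
-/

set_option autoImplicit false

open scoped NumberField
open IsDedekindDomain H38.ML

noncomputable section

namespace H63.MA

theorem cdb_le_dexp (K L : Type) [Field K] [NumberField K] [Field L] [NumberField L]
    [Algebra K L] (P : Ideal (𝓞 L)) (hP : P.IsPrime) (hP0 : P ≠ ⊥) (k : ℕ)
    (h : P ^ k ∣ differentIdeal (𝓞 K) (𝓞 L)) : k ≤ H38.ML.dexp K L P := by
  classical
  have hne := H38.ML.different_ne K L
  have hpr : Prime P := Ideal.prime_of_isPrime hP0 hP
  have h1 := (UniqueFactorizationMonoid.le_emultiplicity_iff_replicate_le_normalizedFactors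
    hpr.irreducible hne (n := k)).1 (le_emultiplicity_of_pow_dvd h)
  rw [normalize_eq, Multiset.le_count_iff_replicate_le.symm] at h1
  unfold H38.ML.dexp
  convert h1

theorem cdb_ldx_add (K L : Type) [Field K] [NumberField K] [Field L] [NumberField L]
    [Algebra K L] (v : Pl K)
    (hv : (((Module.finrank K L).factorial : ℕ) : 𝓞 K) ∉ v.asIdeal)
    [Fintype (v.asIdeal.primesOver (𝓞 L))] :
    ldx K L v + ∑ P : v.asIdeal.primesOver (𝓞 L), P.1.inertiaDeg (𝓞 K) =
      Module.finrank K L := by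
  have hvm : v.asIdeal.IsMaximal := v.isMaximal
  have h1 := H38.ML.sum_dexp_le K L v.asIdeal v.isPrime v.ne_bot 1 (by rwa [pow_one])
  rw [one_mul] at h1
  unfold ldx
  rw [finsum_eq_sum_of_fintype]
  refine le_antisymm h1 ?_
  have h2 : Module.finrank (𝓞 K) (𝓞 L) = Module.finrank K L :=
    (IsFractionRing.finrank_eq (𝓞 K) K (𝓞 L) L).symm
  rw [← h2, ← Ideal.sum_ramification_inertia_eq_finrank v.asIdeal, ← Finset.sum_add_distrib]
  refine Finset.sum_le_sum fun P _ => ?_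
  have hP0 : P.1 ≠ ⊥ := Ideal.ne_bot_of_mem_primesOver v.ne_bot P.2
  have h3 := cdb_le_dexp K L P.1 P.2.1 hP0 _ (gdisc_dvd K L v P.1 P.2.1 P.2.2)
  calc P.1.ramificationIdx (𝓞 K) * P.1.inertiaDeg (𝓞 K)
      ≤ (H38.ML.dexp K L P.1 + 1) * P.1.inertiaDeg (𝓞 K) :=
        Nat.mul_le_mul_right _ (by omega)
    _ = P.1.inertiaDeg (𝓞 K) * H38.ML.dexp K L P.1 + P.1.inertiaDeg (𝓞 K) := by ring

theorem cdb_out {n : ℕ} (hn : 2 ≤ n) (G : Subgroup (Equiv.Perm (Fin n)))
    (hG : MulAction.IsPretransitive G (Fin n)) (hcard : Nat.card G = n) {p : ℕ} (hp : p.Prime)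
    (hE : Ep p G) (K : IntermediateField ℚ QBar) [NumberField K] {ζ : K}
    (hζ : IsPrimitiveRoot ζ p) (D : RD0 K p ζ)
    (hD : ∀ v : Pl K, ((n.factorial : ℕ) : 𝓞 K) ∈ v.asIdeal → v ∈ D.S0) (L : LDs D QBar)
    (i₀ : Fin n) (φ : Gal(QBar/K) →* G) (hφ : Function.Surjective φ) (hft : FT φ)
    [NumberField (fieldOf i₀ φ)] (v : Pl K) (hv : v ∉ D.S0) :
    (φ (L.t v) ≠ 1 → ldx K (fieldOf i₀ φ) v = H38.ML.indG G) ∧
      (φ (L.t v) = 1 → ldx K (fieldOf i₀ φ) v = 0) := by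
  classical
  obtain ⟨hker, hfd, hgal, hdeg, hexp⟩ := field_gal hn G hG hcard K i₀ φ hφ hft p hE.exp
  obtain ⟨-, -, -, hemb⟩ := small_field G hG K i₀ φ hφ hft
  have hvm : v.asIdeal.IsMaximal := v.isMaximal
  haveI : Fintype (v.asIdeal.primesOver (𝓞 (fieldOf i₀ φ))) :=
    Set.Finite.fintype (IsDedekindDomain.primesOver_finite v.asIdeal (𝓞 (fieldOf i₀ φ)))
  have h1 := cdb_ldx_add K (fieldOf i₀ φ) v (by
    rw [hdeg]
    exact fun h => hv (hD v h))
  rw [hdeg] at h1
  have h2 := embOrb_le (fieldOf i₀ φ) v.asIdeal v.isPrime v.ne_bot (L.ld v hv).P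
    (L.ld v hv).prime (L.ld v hv).under
  rw [hemb] at h2
  have h3 := gdisu_map hp hζ D L hE φ hft v hv
  constructor
  · intro hne
    have hmin : n.minFac = p := minfac_reg hn G hcard hp hE.exp
    have h4 : n ≤ H38.ML.indG G +
        orbs ((((L.ld v hv).P.inertia Gal(QBar/K)).map φ).map G.subtype) := by
      refine H38.TD.reg_orbs hn G hG hcard _ ?_
      rw [hmin]
      refine le_trans (Subgroup.card_le_of_le h3) ?_
      rw [Nat.card_zpowers]
      exact Nat.le_of_dvd hp.pos (orderOf_dvd_of_pow_eq_one (hE.exp _))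
    have h5 : ∀ Q : v.asIdeal.primesOver (𝓞 (fieldOf i₀ φ)),
        p ≤ Q.1.ramificationIdx (𝓞 K) := by
      intro Q
      refine gdisc_ram hp (fieldOf i₀ φ) hexp v (L.ld v hv).P (L.t v) (L.ld v hv).prime
        (L.ld v hv).under ?_ ?_ Q.1 Q.2.1 Q.2.2
      · rw [gdisu_t L v hv]
        exact (L.ld v hv).ht
      · rw [hker, MonoidHom.mem_ker]
        exact hne
    have h6 : Module.finrank (𝓞 K) (𝓞 (fieldOf i₀ φ)) = n :=
      (IsFractionRing.finrank_eq (𝓞 K) K (𝓞 (fieldOf i₀ φ)) (fieldOf i₀ φ)).symm.trans hdeg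
    have h7 : p * ∑ P : v.asIdeal.primesOver (𝓞 (fieldOf i₀ φ)), P.1.inertiaDeg (𝓞 K) ≤ n := by
      refine le_trans ?_ h6.le
      rw [← Ideal.sum_ramification_inertia_eq_finrank v.asIdeal, Finset.mul_sum]
      exact Finset.sum_le_sum fun Q _ => Nat.mul_le_mul_right _ (h5 Q)
    have h8 : ∑ P : v.asIdeal.primesOver (𝓞 (fieldOf i₀ φ)), P.1.inertiaDeg (𝓞 K) ≤ n / p := by
      rw [Nat.le_div_iff_mul_le hp.pos, mul_comm]
      exact h7
    have h9 := (ind_reg hn G hG hcard hp hE.exp).1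
    omega
  · intro heq
    rw [heq, Subgroup.zpowers_one_eq_bot, le_bot_iff] at h3
    rw [h3, Subgroup.map_bot, orbs_bot] at h2
    omega

theorem disc_form {n : ℕ} (hn : 2 ≤ n) (G : Subgroup (Equiv.Perm (Fin n)))
    (hG : MulAction.IsPretransitive G (Fin n)) (hcard : Nat.card G = n) {p : ℕ} (hp : p.Prime)
    (hE : Ep p G) (K : IntermediateField ℚ QBar) [NumberField K] {ζ : K}
    (hζ : IsPrimitiveRoot ζ p) (D : RD0 K p ζ)
    (hD : ∀ v : Pl K, ((n.factorial : ℕ) : 𝓞 K) ∈ v.asIdeal → v ∈ D.S0) (L : LDs D QBar)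
    (Q : DP K QBar) (i₀ : Fin n) :
    ∃ d : (Gal(QBar/K) →* G) → ℕ,
      (∀ φ : Gal(QBar/K) →* G, Function.Surjective φ → FT φ → 0 < d φ ∧ ∀ T : Finset (Pl K),
        (∀ v, v ∈ T ↔ v ∉ D.S0 ∧ φ (L.t v) ≠ 1) →
        H38.ML.relDisc K (fieldOf i₀ φ) = d φ * (∏ v ∈ T, nm v) ^ H38.ML.indG G) ∧
      ∀ φ φ' : Gal(QBar/K) →* G, Function.Surjective φ → FT φ → Function.Surjective φ' → FT φ' →
        Teq D.S0 Q φ φ' → d φ = d φ' := by
  classical
  refine ⟨fun φ => if h : NumberField (fieldOf i₀ φ) then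
    ∏ v ∈ D.S0, nm v ^ ldx K (fieldOf i₀ φ) v else 1, ?_, ?_⟩
  · intro φ hφ hft
    obtain ⟨hker, hfd, hgal, hdeg, hexp⟩ := field_gal hn G hG hcard K i₀ φ hφ hft p hE.exp
    have hnf : NumberField (fieldOf i₀ φ) := NumberField.of_module_finite K (fieldOf i₀ φ)
    have hout := fun v hv => cdb_out hn G hG hcard hp hE K hζ D hD L i₀ φ hφ hft v hv
    simp only [dif_pos hnf]
    refine ⟨Finset.prod_pos fun v _ => Nat.pow_pos (by have := one_lt_nm v; omega), ?_⟩
    intro T hT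
    have hrel : H38.ML.relDisc K (fieldOf i₀ φ) =
        Ideal.absNorm (differentIdeal (𝓞 K) (𝓞 (fieldOf i₀ φ))) := by
      unfold H38.ML.relDisc
      rw [dif_pos hnf]
    have hdisj : Disjoint D.S0 T := by
      rw [Finset.disjoint_left]
      intro v hv hvT
      exact ((hT v).1 hvT).1 hv
    rw [hrel, (ldx_prod K (fieldOf i₀ φ)).2 (D.S0 ∪ T) ?_, Finset.prod_union hdisj,
      ← Finset.prod_pow]
    · congr 1
      refine Finset.prod_congr rfl fun v hv => ?_
      obtain ⟨hv0, hv1⟩ := (hT v).1 hv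
      rw [(hout v hv0).1 hv1]
    · intro v hv
      rw [Finset.mem_union]
      by_cases hv0 : v ∈ D.S0
      · exact Or.inl hv0
      · refine Or.inr ((hT v).2 ⟨hv0, fun h1 => hv ((hout v hv0).2 h1)⟩)
  · intro φ φ' hφ hft hφ' hft' hT
    obtain ⟨hker, hfd, hgal, hdeg, hexp⟩ := field_gal hn G hG hcard K i₀ φ hφ hft p hE.exp
    obtain ⟨hker', hfd', hgal', hdeg', hexp'⟩ :=
      field_gal hn G hG hcard K i₀ φ' hφ' hft' p hE.exp
    have hnf : NumberField (fieldOf i₀ φ) := NumberField.of_module_finite K (fieldOf i₀ φ)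
    have hnf' : NumberField (fieldOf i₀ φ') := NumberField.of_module_finite K (fieldOf i₀ φ')
    simp only [dif_pos hnf, dif_pos hnf']
    refine Finset.prod_congr rfl fun v hv => ?_
    congr 1
    refine ldx_congr (fieldOf i₀ φ) (fieldOf i₀ φ') (by rw [hdeg, hdeg']) v (Q.P v) (Q.prime v)
      (Q.under v) fun σ hσ => ?_
    have hσd : σ ∈ dec (K := K) (Q.P v) := by
      intro x
      have h1 : σ • x - x ∈ Q.P v := hσ x
      constructor
      · intro h2
        have h3 := (Q.P v).sub_mem h2 h1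
        rwa [sub_sub_cancel] at h3
      · intro h2
        have h3 := (Q.P v).add_mem h1 h2
        rwa [sub_add_cancel] at h3
    rw [hker, hker', MonoidHom.mem_ker, MonoidHom.mem_ker, hT v hv σ hσd]

end H63.MA
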