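import Pool.Agent.H63.MC.CDef
import Pool.Agent.H63.MA.GSmall

/-!
# MC-CNK: the number of fields and the number of surjective homomorphisms

`nk_eq`: `G` regular. If the set `S` of the surjective `φ : Γ → G` of finite type with `relDisc K (fieldOf i₀ φ) ≤ B` is finite then `n_K(G,B)` is a natural number `k` with `k #Aut(G) = #S`.

Proof. (1) For a small `G`-field `L` there is a surjective `ρ` of finite type with `L = fieldOf i₀ ρ` (`small_rho`), and conversely `fieldOf i₀ φ` is small for such `φ` (`H38.ML.small_field`; its `IsSmall` is the same predicate as `Spec.IsSmall`, see `nK_le_spec` in `H38/ML/SpecBridge.lean`, whose proof you may copy; do not import that file). `relDisc` of `H38/ML/Defs`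
is `Spec.relDisc` if `L` is a number field (`dif_pos`). (2) All these `L` are Galois over `K` (`field_gal`), so two of them which are isomorphic over `K` are equal: an isomorphism `L ≃ₐ[K] L'` composed with the inclusion `L' → Ω` is an embedding of `L` with image `L'`; `L` is normal, so the image of every embedding of `L` is `L` (`AlgHom.fieldRange_of_normal`).
So the quotient in `Spec.nK` is in bijection with the set `𝓛` of the small `L` with `relDisc ≤ B`, and `k = #𝓛` (finite, as the image of the finite set `S` under `φ ↦ fieldOf i₀ φ`). (3) Each fibre of `S → 𝓛` has `#Aut(G)` elements: `α ↦ α ∘ φ` is an injective map from `MulAut G` to the fibre of `φ` (`φ` is surjective; `fieldOf i₀ (α ∘ φ)`: it is the fixed field of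
`ker (α ∘ φ) = ker φ`, `field_gal`), and it is surjective: `fieldOf i₀ φ = fieldOf i₀ φ'` implies `ker φ = ker φ'`, so `φ' = α ∘ φ` for an automorphism `α` (`QuotientGroup` isomorphisms).
-/

set_option autoImplicit false

open scoped NumberField
open IsDedekindDomain H38.ML

noncomputable section

namespace H63.MA

private theorem cnk_field {n : ℕ} (hn : 2 ≤ n) (G : Subgroup (Equiv.Perm (Fin n)))
    (hG : MulAction.IsPretransitive G (Fin n)) (hcard : Nat.card G = n)
    (K : IntermediateField ℚ QBar) (i₀ : Fin n) (φ : Gal(QBar/K) →* G) :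
    fieldOf i₀ φ = IntermediateField.fixedField φ.ker := by
  unfold fieldOf
  rw [gsmall_comap hn G hG hcard φ i₀]

private theorem cnk_ker {Γ H : Type} [Group Γ] [Group H] (φ : Γ →* H) (α : MulAut H) :
    ((α : H ≃* H).toMonoidHom.comp φ).ker = φ.ker := by
  ext σ
  rw [MonoidHom.mem_ker, MonoidHom.mem_ker]
  change α (φ σ) = 1 ↔ _
  rw [EmbeddingLike.map_eq_one_iff]

private theorem cnk_aut {Γ H : Type} [Group Γ] [Group H] (φ ψ : Γ →* H) (hφ : Function.Surjective φ)
    (hψ : Function.Surjective ψ) (hker : φ.ker = ψ.ker) :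
    ∃ α : MulAut H, (α : H ≃* H).toMonoidHom.comp φ = ψ := by
  refine ⟨((QuotientGroup.quotientKerEquivOfSurjective φ hφ).symm.trans
    (QuotientGroup.quotientMulEquivOfEq hker)).trans (QuotientGroup.quotientKerEquivOfSurjective ψ hψ), ?_⟩
  ext σ
  change (QuotientGroup.quotientKerEquivOfSurjective ψ hψ) ((QuotientGroup.quotientMulEquivOfEq hker)
    ((QuotientGroup.quotientKerEquivOfSurjective φ hφ).symm (φ σ))) = ψ σ
  have h1 : (QuotientGroup.quotientKerEquivOfSurjective φ hφ).symm (φ σ) = QuotientGroup.mk σ := by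
    rw [MulEquiv.symm_apply_eq]
    rfl
  rw [h1]
  rfl

private theorem cnk_mem {n : ℕ} (hn : 2 ≤ n) (G : Subgroup (Equiv.Perm (Fin n)))
    (hG : MulAction.IsPretransitive G (Fin n)) (hcard : Nat.card G = n)
    (K : IntermediateField ℚ QBar) [NumberField K] (i₀ : Fin n) (B : ℝ)
    (L : IntermediateField K QBar) :
    L ∈ (fun φ : Gal(QBar/K) →* G => fieldOf i₀ φ) '' {φ : Gal(QBar/K) →* G | FT φ ∧ Function.Surjective φ ∧
      (H38.ML.relDisc K (fieldOf i₀ φ) : ℝ) ≤ B} ↔
    (Spec.IsSmall K QBar G L ∧ ∃ _ : NumberField L, (Spec.relDisc K L : ℝ) ≤ B) := by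
  constructor
  · rintro ⟨φ, ⟨hft, hs, hd⟩, rfl⟩
    obtain ⟨h1, h2, h3, -⟩ := small_field G hG K i₀ φ hs hft
    have hnf : NumberField (fieldOf i₀ φ) := NumberField.of_module_finite K (fieldOf i₀ φ)
    refine ⟨h3, hnf, ?_⟩
    rw [H38.ML.relDisc, dif_pos hnf] at hd
    exact hd
  · rintro ⟨h1, hnf, hd⟩
    obtain ⟨ρ, hs, hft, hL⟩ := small_rho hn G hG hcard K i₀ L h1
    refine ⟨ρ, ⟨hft, hs, ?_⟩, hL.symm⟩
    rw [← hL, H38.ML.relDisc, dif_pos hnf]
    exact hd

theorem nk_eq {n : ℕ} (hn : 2 ≤ n) (G : Subgroup (Equiv.Perm (Fin n)))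
    (hG : MulAction.IsPretransitive G (Fin n)) (hcard : Nat.card G = n) {p : ℕ}
    (hexp : ∀ g : G, g ^ p = 1) (K : IntermediateField ℚ QBar) [NumberField K] (i₀ : Fin n)
    (B : ℝ) (hfin : {φ : Gal(QBar/K) →* G | FT φ ∧ Function.Surjective φ ∧
      (H38.ML.relDisc K (fieldOf i₀ φ) : ℝ) ≤ B}.Finite) :
    ∃ k : ℕ, Spec.nK K QBar G B = (k : ℕ∞) ∧
      k * Nat.card (MulAut G) = {φ : Gal(QBar/K) →* G | FT φ ∧ Function.Surjective φ ∧
        (H38.ML.relDisc K (fieldOf i₀ φ) : ℝ) ≤ B}.ncard := by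
  classical
  set S : Set (Gal(QBar/K) →* G) := {φ : Gal(QBar/K) →* G | FT φ ∧ Function.Surjective φ ∧
    (H38.ML.relDisc K (fieldOf i₀ φ) : ℝ) ≤ B} with hS
  let 𝓛 : Set (IntermediateField K QBar) := (fun φ : Gal(QBar/K) →* G => fieldOf i₀ φ) '' S
  have hLfin : 𝓛.Finite := hfin.image _
  have hmem := cnk_mem hn G hG hcard K i₀ B
  have hfinT : Finite {L : IntermediateField K QBar // Spec.IsSmall K QBar G L ∧
      ∃ _ : NumberField L, (Spec.relDisc K L : ℝ) ≤ B} := by
    refine (hLfin.subset ?_ : {L : IntermediateField K QBar | Spec.IsSmall K QBar G L ∧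
      ∃ _ : NumberField L, (Spec.relDisc K L : ℝ) ≤ B}.Finite).to_subtype
    intro L hL
    exact (hmem L).2 hL
  have hiso : ∀ L L' : {L : IntermediateField K QBar // Spec.IsSmall K QBar G L ∧
      ∃ _ : NumberField L, (Spec.relDisc K L : ℝ) ≤ B}, Nonempty (L.1 ≃ₐ[K] L'.1) → L = L' := by
    rintro ⟨L, hL⟩ ⟨L', hL'⟩ ⟨e⟩
    apply Subtype.ext
    change L = L'
    change L ≃ₐ[K] L' at e
    obtain ⟨ρ, hs, hft, hρL⟩ := small_rho hn G hG hcard K i₀ L hL.1
    have hgal : IsGalois K L := by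
      rw [hρL]
      exact (field_gal hn G hG hcard K i₀ ρ hs hft p hexp).2.2.1
    have h1 : (L'.val.comp (e : L →ₐ[K] L')).fieldRange = L := AlgHom.fieldRange_of_normal _
    rw [← h1]
    apply SetLike.ext
    intro x
    rw [AlgHom.mem_fieldRange]
    constructor
    · rintro ⟨y, rfl⟩
      exact (e y).2
    · intro hx
      refine ⟨e.symm ⟨x, hx⟩, ?_⟩
      change ((e (e.symm ⟨x, hx⟩) : L') : QBar) = x
      rw [AlgEquiv.apply_symm_apply]
  refine ⟨Nat.card 𝓛, ?_, ?_⟩
  · unfold Spec.nK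
    have hbij : Function.Bijective (Quot.mk (fun L L' : {L : IntermediateField K QBar //
        Spec.IsSmall K QBar G L ∧ ∃ _ : NumberField L, (Spec.relDisc K L : ℝ) ≤ B} =>
        Nonempty (L.1 ≃ₐ[K] L'.1))) := by
      constructor
      · intro a b hab
        exact congrArg (Quot.lift id (fun x y h => hiso x y h)) hab
      · exact Quot.mk_surjective
    rw [← ENat.card_congr (Equiv.ofBijective _ hbij), ENat.card_eq_coe_natCard]
    congr 1
    refine Nat.card_congr (Equiv.subtypeEquivRight (fun L => ?_))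
    exact (hmem L).symm
  · have hch : ∀ L : 𝓛, ∃ φ : Gal(QBar/K) →* G, φ ∈ S ∧ fieldOf i₀ φ = L.1 := by
      rintro ⟨L, φ, hφ, rfl⟩
      exact ⟨φ, hφ, rfl⟩
    choose Φ hΦS hΦL using hch
    have hfld : ∀ (φ : Gal(QBar/K) →* G) (α : MulAut G),
        fieldOf i₀ ((α : G ≃* G).toMonoidHom.comp φ) = fieldOf i₀ φ := by
      intro φ α
      rw [cnk_field hn G hG hcard, cnk_field hn G hG hcard, cnk_ker]
    have hcomp : ∀ (φ : Gal(QBar/K) →* G) (α : MulAut G), φ ∈ S →
        (α : G ≃* G).toMonoidHom.comp φ ∈ S := by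
      rintro φ α ⟨hft, hs, hd⟩
      refine ⟨?_, ?_, ?_⟩
      · obtain ⟨E, hE, hle⟩ := hft
        refine ⟨E, hE, ?_⟩
        rw [cnk_ker]
        exact hle
      · exact α.surjective.comp hs
      · rw [hfld]
        exact hd
    let f : 𝓛 × MulAut G → S := fun q => ⟨(q.2 : G ≃* G).toMonoidHom.comp (Φ q.1), hcomp _ _ (hΦS q.1)⟩
    have hf : Function.Bijective f := by
      constructor
      · rintro ⟨L, α⟩ ⟨L', α'⟩ h
        have h1 : (α : G ≃* G).toMonoidHom.comp (Φ L) = (α' : G ≃* G).toMonoidHom.comp (Φ L') :=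
          congrArg Subtype.val h
        have h2 : L = L' := by
          apply Subtype.ext
          rw [← hΦL L, ← hΦL L', ← hfld (Φ L) α, ← hfld (Φ L') α', h1]
        subst h2
        have h3 : α = α' := by
          apply MulEquiv.ext
          intro x
          obtain ⟨σ, rfl⟩ := (hΦS L).2.1 x
          exact DFunLike.congr_fun h1 σ
        rw [h3]
      · rintro ⟨φ, hφ⟩
        let L : 𝓛 := ⟨fieldOf i₀ φ, φ, hφ, rfl⟩
        have hk : (Φ L).ker = φ.ker := by
          rw [← (field_gal hn G hG hcard K i₀ (Φ L) (hΦS L).2.1 (hΦS L).1 p hexp).1,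
            ← (field_gal hn G hG hcard K i₀ φ hφ.2.1 hφ.1 p hexp).1, hΦL L]
        obtain ⟨α, hα⟩ := cnk_aut (Φ L) φ (hΦS L).2.1 hφ.2.1 hk
        exact ⟨⟨L, α⟩, Subtype.ext hα⟩
    rw [← Nat.card_prod, Nat.card_congr (Equiv.ofBijective f hf), Nat.card_coe_set_eq]

end H63.MA
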