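import Pool.Agent.H63.MC.CCb
import Pool.Agent.H63.MC.CDb
import Pool.Agent.H63.MC.CNk
import Pool.Agent.H63.MA.GMain
import Pool.Agent.H38.BB.RdOf

/-!
# MC-CFIN: the asymptotic number of fields

`c_main`: `G` regular of odd exponent `p` and class `≤ 2`, `ζ_p ∈ K`: `n_K(G,B) ~ C B^{1/ind G} (log B)^{β - 1}`.
The surjective `φ : Γ → G` are divided into the finitely many local types at `S0` (`types_fin`); on each type the discriminant is `d (∏_{v ∈ T} nm v)^{ind}` with constant `d` (`disc_form`), and `ccb` gives the number. `nk_eq` relates it to the number of fields, and the positivity of `C` follows from `ma_main`.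
-/

set_option autoImplicit false

open scoped NumberField
open IsDedekindDomain Filter Topology H38.ML
open scoped Classical

noncomputable section

namespace H63.MA

/-- pairwise inequivalent representatives -/
theorem cfin_reps {A : Type} (E : A → A → Prop) (hr : ∀ a, E a a) (hs : ∀ a b, E a b → E b a)
    (ht : ∀ a b c, E a b → E b c → E a c) (R : Finset A) :
    ∃ R' : Finset A, R' ⊆ R ∧ (∀ a ∈ R, ∃ b ∈ R', E a b) ∧
      ∀ a ∈ R', ∀ b ∈ R', E a b → a = b := by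
  induction R using Finset.induction_on with
  | empty => exact ⟨∅, Finset.Subset.refl _, by simp, by simp⟩
  | insert x R hx ih =>
    obtain ⟨R', h1, h2, h3⟩ := ih
    by_cases h : ∃ b ∈ R', E x b
    · refine ⟨R', h1.trans (Finset.subset_insert _ _), fun a ha => ?_, h3⟩
      rcases Finset.mem_insert.1 ha with rfl | ha
      · exact h
      · exact h2 a ha
    · push Not at h
      refine ⟨insert x R', Finset.insert_subset_insert _ h1, fun a ha => ?_, ?_⟩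
      · rcases Finset.mem_insert.1 ha with rfl | ha
        · exact ⟨a, Finset.mem_insert_self _ _, hr a⟩
        · obtain ⟨b, hb, hab⟩ := h2 a ha
          exact ⟨b, Finset.mem_insert_of_mem hb, hab⟩
      · intro a ha b hb hab
        rcases Finset.mem_insert.1 ha with h5 | h5
        · rcases Finset.mem_insert.1 hb with h6 | h6
          · rw [h5, h6]
          · rw [h5] at hab
            exact absurd hab (h b h6)
        · rcases Finset.mem_insert.1 hb with h6 | h6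
          · rw [h6] at hab
            exact absurd (hs _ _ hab) (h a h5)
          · exact h3 a h5 b h6 hab

/-- change of variables in the asymptotic formula -/
theorem cfin_lim (F : ℝ → ℝ) (l : ℝ) (k : ℕ)
    (hF : Tendsto (fun X : ℝ => F X / (X * Real.log X ^ k)) atTop (𝓝 l)) (a : ℝ) (ha : 0 < a)
    (e : ℝ) (he : 0 < e) :
    Tendsto (fun B : ℝ => F ((B / e) ^ (1 / a)) / (B ^ (1 / a) * Real.log B ^ k)) atTop
      (𝓝 (l * (e ^ (-(1 / a)) * (1 / a) ^ k))) := by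
  have ha' : 0 < 1 / a := by positivity
  have h1 : Tendsto (fun B : ℝ => (B / e) ^ (1 / a)) atTop atTop :=
    (tendsto_rpow_atTop ha').comp (tendsto_id.atTop_div_const he)
  have h2 := hF.comp h1
  have h3 : Tendsto (fun B : ℝ => (Real.log (B / e) / Real.log B)) atTop (𝓝 1) := by
    have h4 : Tendsto (fun B : ℝ => 1 - Real.log e / Real.log B) atTop (𝓝 (1 - 0)) :=
      tendsto_const_nhds.sub (Tendsto.div_atTop tendsto_const_nhds Real.tendsto_log_atTop)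
    rw [sub_zero] at h4
    refine h4.congr' ?_
    filter_upwards [eventually_gt_atTop 1] with B hB
    have hlog := Real.log_pos hB
    rw [Real.log_div (by linarith) he.ne', sub_div, div_self hlog.ne']
  have h5 : Tendsto (fun B : ℝ => e ^ (-(1 / a)) * ((1 / a) * (Real.log (B / e) / Real.log B)) ^ k)
      atTop (𝓝 (e ^ (-(1 / a)) * ((1 / a) * 1) ^ k)) :=
    ((h3.const_mul (1 / a)).pow k).const_mul _
  rw [mul_one] at h5
  refine (h2.mul h5).congr' ?_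
  filter_upwards [eventually_gt_atTop 1, eventually_gt_atTop e] with B hB hBe
  have hB0 : 0 < B := by linarith
  have hlog := Real.log_pos hB
  have hq : 1 < B / e := by rwa [lt_div_iff₀ he, one_mul]
  have hlq := Real.log_pos hq
  have hq0 : 0 < B / e := by linarith
  have hp1 : 0 < (B / e) ^ (1 / a) := Real.rpow_pos_of_pos hq0 _
  have hp2 : 0 < B ^ (1 / a) := Real.rpow_pos_of_pos hB0 _
  have hp3 : 0 < e ^ (1 / a) := Real.rpow_pos_of_pos he _
  have h6 : (B / e) ^ (1 / a) = B ^ (1 / a) * e ^ (-(1 / a)) := by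
    rw [Real.div_rpow hB0.le he.le, Real.rpow_neg he.le, div_eq_mul_inv]
  have h7 : Real.log ((B / e) ^ (1 / a)) = (1 / a) * Real.log (B / e) := Real.log_rpow hq0 _
  simp only [Function.comp_apply]
  rw [h7]
  have h8 : ((1 / a) * (Real.log (B / e) / Real.log B)) ^ k =
      ((1 / a) * Real.log (B / e)) ^ k / Real.log B ^ k := by
    rw [← div_pow, mul_div_assoc]
  rw [h8]
  have h9 : 0 < ((1 / a) * Real.log (B / e)) ^ k := by positivity
  have h10 : 0 < Real.log B ^ k := by positivity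
  have h11 : e ^ (-(1 / a)) = (B / e) ^ (1 / a) / B ^ (1 / a) := by
    rw [h6]
    field_simp
  rw [h11]
  field_simp

section main

variable {n : ℕ} (G : Subgroup (Equiv.Perm (Fin n))) (K : IntermediateField ℚ QBar)
  [NumberField K]

/-- the homomorphisms of bounded discriminant -/
def CfinS (i₀ : Fin n) (B : ℝ) : Set (Gal(QBar/K) →* G) :=
  {φ | FT φ ∧ Function.Surjective φ ∧ (H38.ML.relDisc K (fieldOf i₀ φ) : ℝ) ≤ B}

theorem cfin_teq {S : Finset (Pl K)} (Q : DP K QBar) :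
    (∀ φ : Gal(QBar/K) →* G, Teq S Q φ φ) ∧
    (∀ φ φ' : Gal(QBar/K) →* G, Teq S Q φ φ' → Teq S Q φ' φ) ∧
    (∀ φ φ' φ'' : Gal(QBar/K) →* G, Teq S Q φ φ' → Teq S Q φ' φ'' → Teq S Q φ φ'') :=
  ⟨fun _ _ _ _ _ => rfl, fun _ _ h v hv σ hσ => (h v hv σ hσ).symm,
    fun _ _ _ h h' v hv σ hσ => (h v hv σ hσ).trans (h' v hv σ hσ)⟩

theorem cfin_cnt (hn : 2 ≤ n) (hG : MulAction.IsPretransitive G (Fin n))
    (hcard : Nat.card G = n) {p : ℕ} (hp : p.Prime) (hp2 : MOne p K) (hE : Ep p G) {ζ : K}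
    (hζ : IsPrimitiveRoot ζ p) (D : RD K p ζ)
    (hD : ∀ v : Pl K, ((n.factorial : ℕ) : 𝓞 K) ∈ v.asIdeal → v ∈ D.S0)
    (L : LDs D.toRD0 QBar) (Q : DP K QBar) (i₀ : Fin n) {m N : ℕ} (Dg : GD p m N G)
    (hN : 1 ≤ N) :
    (∀ B, (CfinS G K i₀ B).Finite) ∧ ∃ c : ℝ, Tendsto (fun B : ℝ =>
      ((CfinS G K i₀ B).ncard : ℝ) / (B ^ (1 / (H38.ML.indG G : ℝ)) * Real.log B ^ (N - 1)))
        atTop (𝓝 c) := by
  obtain ⟨U, -, hU2, hU3⟩ := unit_reps2 (K := K) hp D.S0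
  obtain ⟨d, hd1, hd2⟩ := disc_form hn G hG hcard hp hE K hζ D.toRD0 hD L Q i₀
  obtain ⟨R₀, hR1, hR2⟩ := types_fin hp hp2 hζ D.toRD0 L Q hE Dg
  obtain ⟨hr, hs, ht⟩ := cfin_teq G K (S := D.S0) Q
  obtain ⟨R, hRR, hR3, hR4⟩ := cfin_reps (fun φ φ' : Gal(QBar/K) →* G => Teq D.S0 Q φ φ')
    hr hs ht R₀
  obtain ⟨hind1, hind2, -⟩ := ind_reg hn G hG hcard hp hE.exp
  have ha : 0 < H38.ML.indG G := by rw [hind1]; exact hind2
  have haR : (0 : ℝ) < (H38.ML.indG G : ℝ) := by exact_mod_cast ha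
  -- the constants
  have hex : ∀ φ₁ : Gal(QBar/K) →* G, ∃ e : ℕ, 0 < e ∧ ∀ φ, FT φ → Function.Surjective φ →
      Teq D.S0 Q φ φ₁ → d φ = e := by
    intro φ₁
    by_cases h : ∃ φ₂ : Gal(QBar/K) →* G, FT φ₂ ∧ Function.Surjective φ₂ ∧ Teq D.S0 Q φ₂ φ₁
    · obtain ⟨φ₂, h1, h2, h3⟩ := h
      exact ⟨d φ₂, (hd1 φ₂ h2 h1).1, fun φ h4 h5 h6 => hd2 φ φ₂ h5 h4 h2 h1
        (ht _ _ _ h6 (hs _ _ h3))⟩
    · push Not at h
      exact ⟨1, one_pos, fun φ h4 h5 h6 => absurd h6 (h φ h4 h5)⟩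
  choose e he0 he using hex
  -- the condition on the discriminant
  have hdisc : ∀ φ₁ φ : Gal(QBar/K) →* G, FT φ → Function.Surjective φ → Teq D.S0 Q φ φ₁ →
      ∀ B : ℝ, 0 ≤ B → ((H38.ML.relDisc K (fieldOf i₀ φ) : ℝ) ≤ B ↔
        φ ∈ SX D.toRD0 L Q φ₁ ((B / (e φ₁ : ℝ)) ^ (1 / (H38.ML.indG G : ℝ)))) := by
    intro φ₁ φ h1 h2 h3 B hB
    have hfin := ram_finite hp D.toRD0 L φ h1
    have hT : ∀ v, v ∈ hfin.toFinset ↔ v ∉ D.S0 ∧ φ (L.t v) ≠ 1 := by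
      intro v
      rw [Set.Finite.mem_toFinset]
      rfl
    have h4 := (hd1 φ h2 h1).2 hfin.toFinset hT
    have hepos : (0 : ℝ) < (e φ₁ : ℝ) := by exact_mod_cast he0 φ₁
    have h5 : (H38.ML.relDisc K (fieldOf i₀ φ) : ℝ) =
        (e φ₁ : ℝ) * (∏ v ∈ hfin.toFinset, (nm v : ℝ)) ^ H38.ML.indG G := by
      rw [h4, he φ₁ φ h1 h2 h3]
      push_cast
      rfl
    have hP0 : (0 : ℝ) ≤ ∏ v ∈ hfin.toFinset, (nm v : ℝ) :=
      Finset.prod_nonneg fun v _ => Nat.cast_nonneg _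
    have h6 : (H38.ML.relDisc K (fieldOf i₀ φ) : ℝ) ≤ B ↔ ∏ v ∈ hfin.toFinset, (nm v : ℝ) ≤
        (B / (e φ₁ : ℝ)) ^ (1 / (H38.ML.indG G : ℝ)) := by
      rw [h5, mul_comm, ← le_div_iff₀ hepos, one_div, ← Real.rpow_natCast]
      rw [Real.le_rpow_inv_iff_of_pos hP0 (div_nonneg hB hepos.le) haR]
    rw [h6]
    constructor
    · intro h7
      exact ⟨h1, h2, h3, hfin.toFinset, hT, h7⟩
    · rintro ⟨-, -, -, T, hT', h7⟩
      have : T = hfin.toFinset := by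
        ext v
        rw [hT' v, hT v]
      rw [← this]
      exact h7
  have hcover : ∀ B : ℝ, 0 ≤ B → CfinS G K i₀ B = ⋃ φ₁ ∈ R,
      SX D.toRD0 L Q φ₁ ((B / (e φ₁ : ℝ)) ^ (1 / (H38.ML.indG G : ℝ))) := by
    intro B hB
    ext φ
    simp only [Set.mem_iUnion, exists_prop]
    constructor
    · rintro ⟨h1, h2, h3⟩
      obtain ⟨φ₂, h4, h5⟩ := hR2 φ h1
      obtain ⟨φ₁, h6, h7⟩ := hR3 φ₂ h4
      exact ⟨φ₁, h6, (hdisc φ₁ φ h1 h2 (ht _ _ _ h5 h7) B hB).1 h3⟩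
    · rintro ⟨φ₁, h6, h7⟩
      exact ⟨h7.1, h7.2.1, (hdisc φ₁ φ h7.1 h7.2.1 h7.2.2.1 B hB).2 h7⟩
  have hfinX : ∀ φ₁ X, (SX D.toRD0 L Q φ₁ X : Set (Gal(QBar/K) →* G)).Finite := fun φ₁ X =>
    (cca hp hp2 hζ D.toRD0 L Q hE Dg U hU2 hU3 φ₁ X).1
  refine ⟨fun B => ?_, ?_⟩
  · have h1 : CfinS G K i₀ B ⊆ CfinS G K i₀ (max B 0) := fun φ hφ =>
      ⟨hφ.1, hφ.2.1, hφ.2.2.trans (le_max_left _ _)⟩
    refine Set.Finite.subset ?_ h1
    rw [hcover _ (le_max_right _ _)]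
    exact Set.Finite.biUnion (Finset.finite_toSet _) fun φ₁ _ => hfinX _ _
  · have hl : ∀ φ₁ : Gal(QBar/K) →* G, ∃ l : ℝ, φ₁ ∈ R → Tendsto (fun X : ℝ =>
        ((SX D.toRD0 L Q φ₁ X).ncard : ℝ) / (X * Real.log X ^ (N - 1))) atTop (𝓝 l) := by
      intro φ₁
      by_cases h : φ₁ ∈ R
      · obtain ⟨l, -, hl⟩ := ccb hp hp2 hζ D L Q hE Dg hN φ₁ (hR1 φ₁ (hRR h))
        exact ⟨l, fun _ => hl⟩
      · exact ⟨0, fun h' => absurd h' h⟩
    choose l hl using hl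
    refine ⟨∑ φ₁ ∈ R, l φ₁ * ((e φ₁ : ℝ) ^ (-(1 / (H38.ML.indG G : ℝ))) *
      (1 / (H38.ML.indG G : ℝ)) ^ (N - 1)), ?_⟩
    have hsum := tendsto_finsetSum R fun φ₁ hφ₁ =>
      cfin_lim (fun X => ((SX D.toRD0 L Q φ₁ X).ncard : ℝ)) (l φ₁) (N - 1) (hl φ₁ hφ₁)
        (H38.ML.indG G : ℝ) haR (e φ₁ : ℝ) (by exact_mod_cast he0 φ₁)
    refine hsum.congr' ?_
    filter_upwards [eventually_ge_atTop 0] with B hB
    rw [← Finset.sum_div]
    congr 1
    rw [hcover B hB]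
    have h1 : (⋃ φ₁ ∈ R, SX D.toRD0 L Q φ₁ ((B / (e φ₁ : ℝ)) ^ (1 / (H38.ML.indG G : ℝ))) :
        Set (Gal(QBar/K) →* G)) = ((R.biUnion fun φ₁ =>
          (hfinX φ₁ ((B / (e φ₁ : ℝ)) ^ (1 / (H38.ML.indG G : ℝ)))).toFinset :
            Finset (Gal(QBar/K) →* G)) : Set (Gal(QBar/K) →* G)) := by
      rw [Finset.coe_biUnion]
      refine Set.iUnion₂_congr fun φ₁ _ => ?_
      rw [Set.Finite.coe_toFinset]
    rw [h1, Set.ncard_coe_finset, Finset.card_biUnion]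
    · push_cast
      refine Finset.sum_congr rfl fun φ₁ _ => ?_
      rw [Set.ncard_eq_toFinset_card _ (hfinX φ₁ _)]
    · intro φ₁ h1 φ₂ h2 hne
      refine Finset.disjoint_left.2 fun φ hφ hφ' => ?_
      rw [Set.Finite.mem_toFinset] at hφ hφ'
      exact hne (hR4 φ₁ h1 φ₂ h2 (ht _ _ _ (hs _ _ hφ.2.2.1) hφ'.2.2.1))

end main

theorem c_main {n : ℕ} (hn : 2 ≤ n) (G : Subgroup (Equiv.Perm (Fin n)))
    (hG : MulAction.IsPretransitive G (Fin n)) (hcard : Nat.card G = n) {p : ℕ} (hp : p.Prime)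
    (hp2 : p ≠ 2) (hE : Ep p G) (K : IntermediateField ℚ QBar) [NumberField K] (ζ : K)
    (hζ : IsPrimitiveRoot ζ p) :
    ∃ C : ℝ, 0 < C ∧ ∃ k : ℝ → ℕ, (∀ B : ℝ, Spec.nK K QBar G B = (k B : ℕ∞)) ∧
      Tendsto (fun B : ℝ => (k B : ℝ) /
        (B ^ (1 / (Spec.indG G : ℝ)) * Real.log B ^ (Spec.betaAll K QBar G - 1)))
        atTop (𝓝 C) := by
  obtain ⟨c₁, C₁, B₀, hc₁, -, hmain⟩ := ma_main hn G hG hcard hp hp2 hE K ζ hζ
  obtain ⟨m, N, ⟨Dg⟩, hN⟩ := exists_GD hp G hE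
  have hfac : {v : Pl K | ((n.factorial : ℕ) : 𝓞 K) ∈ v.asIdeal}.Finite :=
    finite_above (K := K) (Nat.factorial_ne_zero n)
  obtain ⟨D, hD⟩ := H38.BB.exists_RD_of K hp (mone_odd hp hp2 K) hζ hfac.toFinset
  obtain ⟨L⟩ := exists_LDs QBar hp hζ D.toRD0
  obtain ⟨Q⟩ := exists_DP K QBar
  have hβ := beta_reg hn G hG hcard hp hE.exp K ζ hζ
  have hβN : Spec.betaAll K QBar G = N := by omega
  have hN1 : 1 ≤ N := by
    have h1 : Nontrivial G := by
      rw [← Finite.one_lt_card_iff_nontrivial, hcard]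
      omega
    obtain ⟨g, hg⟩ := exists_ne (1 : G)
    obtain ⟨i, -⟩ := Dg.cls g hg
    have := i.2
    omega
  have i₀ : Fin n := ⟨0, by omega⟩
  obtain ⟨hfin, c, hc⟩ := cfin_cnt G K hn hG hcard hp (mone_odd hp hp2 K) hE hζ D (fun v hv => hD v (by
    rw [Set.Finite.mem_toFinset]
    exact hv)) L Q i₀ Dg hN1
  have hk : ∀ B : ℝ, ∃ k : ℕ, Spec.nK K QBar G B = (k : ℕ∞) ∧
      k * Nat.card (MulAut G) = (CfinS G K i₀ B).ncard := fun B =>
    nk_eq hn G hG hcard hE.exp K i₀ B (hfin B)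
  choose k hk1 hk2 using hk
  have hA : 0 < Nat.card (MulAut G) := Nat.card_pos
  have hAR : (0 : ℝ) < (Nat.card (MulAut G) : ℝ) := by exact_mod_cast hA
  have hlim : Tendsto (fun B : ℝ => (k B : ℝ) /
        (B ^ (1 / (Spec.indG G : ℝ)) * Real.log B ^ (Spec.betaAll K QBar G - 1)))
        atTop (𝓝 (c / (Nat.card (MulAut G) : ℝ))) := by
    refine (hc.div_const (Nat.card (MulAut G) : ℝ)).congr fun B => ?_
    rw [← hk2 B, hβN]
    push_cast
    have : H38.ML.indG G = Spec.indG G := rfl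
    rw [this]
    field_simp
  refine ⟨c / (Nat.card (MulAut G) : ℝ), ?_, k, hk1, hlim⟩
  refine lt_of_lt_of_le hc₁ (ge_of_tendsto hlim ?_)
  filter_upwards [eventually_ge_atTop B₀, eventually_gt_atTop 1] with B hB hB1
  obtain ⟨k', hk', hlow, -⟩ := hmain B hB
  have h1 : k' = k B := by
    have := hk'.symm.trans (hk1 B)
    exact_mod_cast this
  rw [h1] at hlow
  have hP : 0 < B ^ (1 / (Spec.indG G : ℝ)) * Real.log B ^ (Spec.betaAll K QBar G - 1) :=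
    mul_pos (Real.rpow_pos_of_pos (by linarith) _) (pow_pos (Real.log_pos hB1) _)
  rw [le_div_iff₀ hP, ← mul_assoc]
  exact hlow

end H63.MA
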