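import Pool.Agent.H63.MC.CDef

/-!
# MC-CLKB: the base field is dense in the decomposition field

`dens`: `P` a prime of `𝓞 Ω` over `v`, `c ∈ Ω` nonzero and fixed by `dec P`. Then there is `b ∈ Kˣ` with `Cl p P (b / c)`.

Proof. Let `M/K` be finite Galois inside `Ω` with `c ∈ M`, `G = Gal(M/K)`, `Q = P ∩ 𝓞 M`, `G_Q = {g ∈ G : g Q = Q}`.
(1) `c` is fixed by `G_Q`: let `g Q = Q` and let `σ ∈ Gal(Ω/K)` be a lift of `g`. The primes `σ P` and `P` of `𝓞 Ω` both lie over the prime `Q` of `𝓞 M`; by the transitivity of the (profinite) group `Gal(Ω/M)` on the primes of `𝓞 Ω` over `Q` (Mathlib: `Algebra.IsInvariant.exists_smul_of_under_eq_of_profinite`; see how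
`H38/ML/` proves `exists_inertia`, file `KumInert`/`InertOrb`, and `MA/GFrob` for the profinite instances; or reduce to finite levels) there is `τ ∈ Gal(Ω/M)` with `τ σ P = P`, so `τ σ ∈ dec P`, `g c = τ σ c = c`.
(2) Let `w` be the `Q`-adic order on `M` and let `n` be large. By the Chinese remainder theorem there is `θ ∈ 𝓞 M` with `θ ≡ 1 mod Q^n` and `θ ≡ 0 mod Q'^n` for all primes `Q' = g Q ≠ Q`, `g ∈ G` (finitely many primes over `v`). Put `θ' = ∏_{d ∈ G_Q} d θ`: fixed by `G_Q`, `θ' ≡ 1 mod Q^n`, `θ' ≡ 0 mod Q'^n` for `Q' ≠ Q` over `v`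
(`G_Q` permutes the other primes over `v`).
(3) `a = ∑_{g ∈ G / G_Q} g(c θ')` is well defined (`c θ'` is fixed by `G_Q`) and in `K` (fixed by `G`). (Without cosets: `a = (#G_Q)⁻¹ ∑_{g ∈ G} g (c θ')`; or sum over a set of representatives.) `a - c = c (θ' - 1) + ∑_{g ∉ G_Q} g(c θ')`; the order at `Q` of `g(c θ')` is the order at `g⁻¹ Q ≠ Q` of `c θ'`, at least
`n + ord_{g⁻¹ Q} c`. So for `n` large `ord_Q (a/c - 1) > ord_Q (p²)`, in particular `a ≠ 0`; put `b = a`. Finally `(b/c - 1)/p²` is an element of `M` of positive order at `Q`, so it is `a'/s'` with `a' ∈ Q`, `s' ∈ 𝓞 M ∖ Q` (`H38.TD.exists_int_div` or similar), i.e. `Cl p P (b/c)`.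
-/

set_option autoImplicit false

open scoped NumberField Pointwise
open IsDedekindDomain

noncomputable section

namespace H63.MA

/-- an element fixed by the stabilizer of a maximal ideal is approximated by invariant elements -/
theorem clkb_approx {A R G : Type} [CommRing A] [CommRing R] [Algebra A R] [Group G] [Finite G]
    [MulSemiringAction G R] [Algebra.IsInvariant A R G] (Q : Ideal R) (hQ : Q.IsMaximal)
    (H : Subgroup G) (hH : ∀ g, g ∈ H ↔ ∀ x : R, g • x ∈ Q ↔ x ∈ Q) (c : R)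
    (hc : ∀ g ∈ H, g • c = c) (N : ℕ) : ∃ b : A, algebraMap A R b - c ∈ Q ^ N := by
  classical
  cases nonempty_fintype G
  let f : G → R →+* R := fun g => MulSemiringAction.toRingHom G R g
  have hf : ∀ g x, f g x = g • x := fun _ _ => rfl
  have hsurj : ∀ g, Function.Surjective (f g) := fun g x => ⟨g⁻¹ • x, by
    rw [hf, smul_inv_smul]⟩
  have hcop : IsCoprime (Q ^ N)
      (∏ g ∈ Finset.univ.filter (fun g : G => g ∉ H), (Q.comap (f g)) ^ N) := by
    apply IsCoprime.prod_right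
    intro g hg
    apply IsCoprime.pow
    rw [Ideal.isCoprime_iff_sup_eq]
    have hm : (Q.comap (f g)).IsMaximal := Ideal.comap_isMaximal_of_surjective (f g) (hsurj g)
    apply Ideal.IsMaximal.coprime_of_ne hQ hm
    intro h
    apply (Finset.mem_filter.mp hg).2
    rw [hH]
    intro x
    have h1 : x ∈ Q.comap (f g) ↔ x ∈ Q := by rw [← h]
    exact h1
  obtain ⟨u, hu, θ, hθ, huθ⟩ := Ideal.isCoprime_iff_exists.mp hcop
  have hθ1 : θ - 1 ∈ Q ^ N := by
    have h1 : θ - 1 = -u := by rw [← huθ]; ring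
    rw [h1]
    exact (Q ^ N).neg_mem hu
  have hθ2 : ∀ g, g ∉ H → g • θ ∈ Q ^ N := by
    intro g hg
    have h1 : θ ∈ (Q.comap (f g)) ^ N :=
      (Finset.inf_le (f := fun g => (Q.comap (f g)) ^ N)
        (Finset.mem_filter.mpr ⟨Finset.mem_univ g, hg⟩)) (Ideal.prod_le_inf hθ)
    exact Ideal.le_comap_pow (f g) N h1
  have hHp : ∀ d ∈ H, ∀ y ∈ Q ^ N, d • y ∈ Q ^ N := by
    intro d hd y hy
    have h1 : Q ≤ Q.comap (f d) := fun x hx => ((hH d).1 hd x).2 hx
    exact Ideal.le_comap_pow (f d) N (Ideal.pow_right_mono h1 N hy)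
  let E : R := ∏ d ∈ Finset.univ.filter (fun g : G => g ∈ H), d • θ
  have hE1 : Ideal.Quotient.mk (Q ^ N) E = 1 := by
    show Ideal.Quotient.mk (Q ^ N) (∏ d ∈ Finset.univ.filter (fun g : G => g ∈ H), d • θ) = 1
    rw [map_prod]
    apply Finset.prod_eq_one
    intro d hd
    rw [← map_one (Ideal.Quotient.mk (Q ^ N)), Ideal.Quotient.eq]
    have h1 := hHp d (Finset.mem_filter.mp hd).2 _ hθ1
    rwa [smul_sub, smul_one] at h1
  have hE2 : ∀ g, g ∉ H → g • E ∈ Q ^ N := by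
    intro g hg
    have h1 : (1 : G) ∈ Finset.univ.filter (fun g : G => g ∈ H) :=
      Finset.mem_filter.mpr ⟨Finset.mem_univ _, H.one_mem⟩
    show g • (∏ d ∈ Finset.univ.filter (fun g : G => g ∈ H), d • θ) ∈ Q ^ N
    rw [← Finset.mul_prod_erase _ _ h1, smul_mul', one_smul]
    exact (Q ^ N).mul_mem_right _ (hθ2 g hg)
  have hE3 : ∀ h ∈ H, h • E = E := by
    intro h hh
    show h • (∏ d ∈ Finset.univ.filter (fun g : G => g ∈ H), d • θ) = _
    rw [Finset.smul_prod']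
    apply Finset.prod_equiv (Equiv.mulLeft h)
    · intro d
      simp only [Finset.mem_filter, Finset.mem_univ, true_and, Equiv.coe_mulLeft]
      exact (H.mul_mem_cancel_left hh).symm
    · intro d _
      rw [Equiv.coe_mulLeft, mul_smul]
  let x : R := c * E
  have hx : ∀ h ∈ H, h • x = x := by
    intro h hh
    show h • (c * E) = c * E
    rw [smul_mul', hc h hh, hE3 h hh]
  let F : G ⧸ H → R := fun q => Quotient.liftOn' q (fun g => g • x) (by
    intro a b hab
    have h1 : a⁻¹ * b ∈ H := QuotientGroup.leftRel_apply.mp hab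
    have h2 := hx _ h1
    show a • x = b • x
    rw [← h2, smul_smul, mul_inv_cancel_left, h2])
  have hF : ∀ g : G, F (g : G ⧸ H) = g • x := fun _ => rfl
  have hfq : Fintype (G ⧸ H) := Fintype.ofFinite _
  have hinv : ∀ g : G, g • ∑ q, F q = ∑ q, F q := by
    intro g
    rw [Finset.smul_sum]
    apply Fintype.sum_equiv (MulAction.toPerm g)
    intro q
    induction q using QuotientGroup.induction_on with
    | H a =>
      show g • (a • x) = (g * a) • x
      rw [mul_smul]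
  obtain ⟨b, hb⟩ := Algebra.IsInvariant.isInvariant (A := A) (∑ q, F q) hinv
  refine ⟨b, ?_⟩
  rw [hb, ← Ideal.Quotient.eq, map_sum, Finset.sum_eq_single ((1 : G) : G ⧸ H)]
  · rw [hF, one_smul]
    show Ideal.Quotient.mk (Q ^ N) (c * E) = _
    rw [map_mul, hE1, mul_one]
  · intro q _ hq
    induction q using QuotientGroup.induction_on with
    | H a =>
      have ha : a ∉ H := by
        intro h
        apply hq
        rw [QuotientGroup.eq]
        rw [mul_one]
        exact H.inv_mem h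
      rw [hF, Ideal.Quotient.eq_zero_iff_mem]
      show a • (c * E) ∈ Q ^ N
      rw [smul_mul']
      exact (Q ^ N).mul_mem_left _ (hE2 a ha)
  · intro h
    exact absurd (Finset.mem_univ _) h

/-- high powers of a prime are locally divisible -/
theorem clkb_loc {R : Type} [CommRing R] [IsDedekindDomain R] (Q : Ideal R) (hQ : Q.IsPrime)
    (hQ0 : Q ≠ ⊥) (m : R) (hm : m ≠ 0) :
    ∃ N : ℕ, ∀ x ∈ Q ^ N, ∃ a s : R, a ∈ Q ∧ s ∉ Q ∧ s * x = m * a := by
  have hm' : Ideal.span {m} ≠ (0 : Ideal R) := by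
    rw [ne_eq, Ideal.zero_eq_bot, Ideal.span_singleton_eq_bot]
    exact hm
  have hfin : FiniteMultiplicity Q (Ideal.span {m}) :=
    FiniteMultiplicity.of_prime_left (Ideal.prime_of_isPrime hQ0 hQ) hm'
  obtain ⟨J, hJ, hnd⟩ := hfin.exists_eq_pow_mul_and_not_dvd
  obtain ⟨s, hsJ, hsQ⟩ : ∃ s ∈ J, s ∉ Q := by
    by_contra! h
    exact hnd (Ideal.dvd_iff_le.2 h)
  refine ⟨multiplicity Q (Ideal.span {m}) + 1, fun x hx => ?_⟩
  have h1 : s * x ∈ J * Q ^ (multiplicity Q (Ideal.span {m}) + 1) := Ideal.mul_mem_mul hsJ hx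
  have h2 : J * Q ^ (multiplicity Q (Ideal.span {m}) + 1) = Ideal.span {m} * Q := by
    conv_rhs => rw [hJ]
    rw [pow_succ]
    ring
  rw [h2, Ideal.mem_span_singleton_mul] at h1
  obtain ⟨a, ha, he⟩ := h1
  exact ⟨a, s, ha, hsQ, he.symm⟩

variable {K : Type} [Field K] [NumberField K] {Ω : Type} [Field Ω] [Algebra K Ω]
  [IsAlgClosure K Ω] {p : ℕ}

theorem clkb_tr (G : Subgroup Gal(Ω/K)) (hG : IsClosed (G : Set Gal(Ω/K)))
    (P : Ideal (𝓞 Ω)) (hP : P.IsPrime) (σ : Gal(Ω/K))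
    (h : ∀ a : 𝓞 Ω, (∀ g ∈ G, g • a = a) → (σ • a ∈ P ↔ a ∈ P)) :
    ∃ δ ∈ G, σ * δ ∈ dec (K := K) P := by
  let _ : TopologicalSpace (𝓞 Ω) := ⊥
  have : DiscreteTopology (𝓞 Ω) := ⟨rfl⟩
  have : Algebra.IsIntegral K Ω := inferInstance
  have : CompactSpace G := isCompact_iff_compactSpace.mp hG.isCompact
  have : ContinuousSMul G (𝓞 Ω) := by
    rw [continuousSMul_iff_stabilizer_isOpen]
    intro x
    have h1 := stabilizer_isOpen_of_isIntegral (K := K) (L := Ω) (x : Ω)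
    have h2 : (MulAction.stabilizer G x : Set G) =
        (fun g : G => (g : Gal(Ω/K))) ⁻¹' (MulAction.stabilizer Gal(Ω/K) (x : Ω) : Set Gal(Ω/K)) := by
      ext g
      simp only [SetLike.mem_coe, MulAction.mem_stabilizer_iff, Set.mem_preimage]
      constructor
      · intro hg
        exact congrArg (fun z : 𝓞 Ω => (z : Ω)) hg
      · intro hg
        exact NumberField.RingOfIntegers.ext hg
    rw [h2]
    exact h1.preimage continuous_subtype_val
  let A := FixedPoints.subalgebra ℤ (𝓞 Ω) G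
  have : SMulCommClass G A (𝓞 Ω) := ⟨fun g a b => by
    have ha : g • (a : 𝓞 Ω) = a := a.2 g
    show g • ((a : 𝓞 Ω) * b) = (a : 𝓞 Ω) * (g • b)
    rw [smul_mul', ha]⟩
  have : Algebra.IsInvariant A (𝓞 Ω) G := ⟨fun b hb => ⟨⟨b, hb⟩, rfl⟩⟩
  have hp1 : (σ⁻¹ • P).IsPrime := inferInstance
  have hunder : P.under A = (σ⁻¹ • P).under A := by
    ext a
    have ha : ∀ g ∈ G, g • (a : 𝓞 Ω) = a := fun g hg => a.2 ⟨g, hg⟩
    simp only [Ideal.mem_comap]
    have h2 : (algebraMap A (𝓞 Ω)) a = (a : 𝓞 Ω) := rfl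
    rw [h2, Ideal.mem_inv_pointwise_smul_iff]
    exact (h a ha).symm
  obtain ⟨δ, hδ⟩ := Algebra.IsInvariant.exists_smul_of_under_eq_of_profinite (A := A) (G := G)
    P (σ⁻¹ • P) hunder
  have hσ' : (σ * (δ : Gal(Ω/K))) • P = P := by
    rw [mul_smul]
    have : ((δ : Gal(Ω/K))) • P = σ⁻¹ • P := hδ.symm
    rw [this, smul_inv_smul]
  refine ⟨δ, δ.2, fun x => ?_⟩
  conv_lhs => rw [← hσ']
  exact Ideal.smul_mem_pointwise_smul_iff

/-- the decomposition group at a finite level -/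
theorem clkb_fix (P : Ideal (𝓞 Ω)) (hP : P.IsPrime) (M : IntermediateField K Ω) [Normal K M]
    (g : Gal(M/K)) (hg : ∀ x : 𝓞 M, g • x ∈ P.under (𝓞 M) ↔ x ∈ P.under (𝓞 M)) (c : M)
    (hfix : ∀ σ ∈ dec (K := K) P, σ (c : Ω) = c) : g c = c := by
  have hgal : IsGalois K Ω := IsAlgClosure.isGalois K Ω
  obtain ⟨σ, hσ⟩ := AlgEquiv.restrictNormalHom_surjective (F := K) (K₁ := M) Ω g
  have hσg : ∀ y : M, ((g y : M) : Ω) = σ (y : Ω) := by
    intro y
    rw [← hσ]
    exact AlgEquiv.restrictNormal_commutes σ M y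
  obtain ⟨δ, hδ, hd⟩ := clkb_tr M.fixingSubgroup (InfiniteGalois.fixingSubgroup_isClosed _) P hP σ
    (by
      intro a ha
      have hmem : (a : Ω) ∈ M := by
        rw [← InfiniteGalois.fixedField_fixingSubgroup M]
        rintro ⟨g', hg'⟩
        exact congrArg (fun z : 𝓞 Ω => (z : Ω)) (ha g' hg')
      have hint : IsIntegral ℤ (⟨(a : Ω), hmem⟩ : M) := by
        have h3 : IsIntegral ℤ (algebraMap M Ω ⟨(a : Ω), hmem⟩) := a.isIntegral_coe
        exact (isIntegral_algebraMap_iff (algebraMap M Ω).injective).1 h3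
      obtain ⟨a', ha'⟩ : ∃ a' : 𝓞 M, (a' : M) = ⟨(a : Ω), hmem⟩ := ⟨⟨_, hint⟩, rfl⟩
      have h1 := hg a'
      have h2 : algebraMap (𝓞 M) (𝓞 Ω) a' = a := by
        apply NumberField.RingOfIntegers.ext
        exact congrArg (fun z : M => (z : Ω)) ha'
      have h3 : algebraMap (𝓞 M) (𝓞 Ω) (g • a') = σ • a := by
        apply NumberField.RingOfIntegers.ext
        have h6 := hσg (a' : M)
        have h7 : ((a' : M) : Ω) = (a : Ω) := congrArg (fun z : M => (z : Ω)) ha'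
        rw [h7] at h6
        exact h6
      have h4 : g • a' ∈ P.under (𝓞 M) ↔ σ • a ∈ P := by
        rw [← h3]
        exact Iff.rfl
      have h5 : a' ∈ P.under (𝓞 M) ↔ a ∈ P := by
        rw [← h2]
        exact Iff.rfl
      rw [← h4, ← h5]
      exact h1)
  have h1 := hfix _ hd
  have h2 : (σ * δ) (c : Ω) = σ (c : Ω) := by
    rw [AlgEquiv.mul_apply]
    have hgx : δ (c : Ω) = c := (IntermediateField.mem_fixingSubgroup_iff _ _).mp hδ _ c.2
    rw [hgx]
  apply Subtype.ext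
  rw [hσg, ← h2, h1]

/-- a finite Galois subfield containing an element -/
theorem clkb_field (c : Ω) : ∃ M : IntermediateField K Ω, FiniteDimensional K M ∧ IsGalois K M ∧
    c ∈ M := by
  have hgal : IsGalois K Ω := IsAlgClosure.isGalois K Ω
  have hf : Finite ({c} : Set Ω) := inferInstance
  refine ⟨(FiniteGaloisIntermediateField.adjoin K ({c} : Set Ω)).toIntermediateField,
    inferInstance, inferInstance, ?_⟩
  exact FiniteGaloisIntermediateField.subset_adjoin K ({c} : Set Ω) (Set.mem_singleton c)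

theorem dens (hp : p.Prime) (v : Pl K) (P : Ideal (𝓞 Ω)) (hP : P.IsPrime)
    (hv : P.under (𝓞 K) = v.asIdeal) (c : Ω) (hc : c ≠ 0)
    (hfix : ∀ σ ∈ dec (K := K) P, σ c = c) :
    ∃ b : Kˣ, Cl p P (algebraMap K Ω (b : K) * c⁻¹) := by
  have hgal : IsGalois K Ω := IsAlgClosure.isGalois K Ω
  have hchar : CharZero Ω := charZero_of_injective_algebraMap (algebraMap K Ω).injective
  -- an integral multiple
  obtain ⟨n, hn0, hn⟩ : ∃ n : ℤ, n ≠ 0 ∧ IsIntegral ℤ (n • c) := by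
    have h1 : IsAlgebraic ℤ c := by
      have : Algebra.IsAlgebraic ℚ Ω := Algebra.IsAlgebraic.trans ℚ K Ω
      have h2 : IsAlgebraic ℚ c := Algebra.IsAlgebraic.isAlgebraic c
      exact (IsFractionRing.isAlgebraic_iff ℤ ℚ Ω).2 h2
    exact h1.exists_integral_multiple
  obtain ⟨M, hMf, hMg, hcM⟩ := clkb_field (K := K) c
  have hMn : NumberField M := NumberField.of_module_finite K M
  let cM : M := ⟨c, hcM⟩
  have hint : IsIntegral ℤ (n • cM) := by
    have h3 : IsIntegral ℤ (algebraMap M Ω (n • cM)) := by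
      rw [map_zsmul]
      exact hn
    exact (isIntegral_algebraMap_iff (algebraMap M Ω).injective).1 h3
  let c1 : 𝓞 M := ⟨n • cM, hint⟩
  have hc1 : ((c1 : M) : Ω) = (n : Ω) * c := by
    show ((n • cM : M) : Ω) = _
    rw [zsmul_eq_mul]
    push_cast
    rfl
  have hnΩ : (n : Ω) ≠ 0 := by exact_mod_cast hn0
  have hc10 : c1 ≠ 0 := by
    intro h
    have h1 : ((c1 : M) : Ω) = 0 := by rw [h]; rfl
    rw [hc1] at h1
    exact (mul_ne_zero hnΩ hc) h1
  -- the prime of `M`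
  let Q : Ideal (𝓞 M) := P.under (𝓞 M)
  have hQ : Q.IsPrime := inferInstance
  have hQ0 : Q ≠ ⊥ := by
    intro h
    apply v.ne_bot
    rw [← hv, eq_bot_iff]
    intro x hx
    have h1 : algebraMap (𝓞 K) (𝓞 M) x ∈ Q := hx
    rw [h, Ideal.mem_bot] at h1
    have h2 : Function.Injective (algebraMap (𝓞 K) (𝓞 M)) :=
      FaithfulSMul.algebraMap_injective _ _
    exact h2 (by rw [h1, map_zero])
  have hQm : Q.IsMaximal := hQ.isMaximal hQ0
  have hpm : ((p : ℕ) : 𝓞 M) ^ 2 * c1 ≠ 0 := by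
    apply mul_ne_zero _ hc10
    apply pow_ne_zero
    exact_mod_cast hp.ne_zero
  obtain ⟨N, hN⟩ := clkb_loc Q hQ hQ0 _ hpm
  let H : Subgroup Gal(M/K) := dec (K := K) (Ω := M) Q
  have hH : ∀ g, g ∈ H ↔ ∀ x : 𝓞 M, g • x ∈ Q ↔ x ∈ Q := fun g => Iff.rfl
  have hcH : ∀ g ∈ H, g • c1 = c1 := by
    intro g hg
    apply NumberField.RingOfIntegers.ext
    show g (n • cM) = n • cM
    rw [map_zsmul]
    congr 1
    exact clkb_fix P hP M g hg cM hfix
  obtain ⟨b1, hb1⟩ := clkb_approx (A := 𝓞 K) Q hQm H hH c1 hcH N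
  obtain ⟨a, s, ha, hs, has⟩ := hN _ hb1
  -- transport to `Ω`
  have hmapE : ∀ x : 𝓞 M, ((algebraMap (𝓞 M) (𝓞 Ω) x : 𝓞 Ω) : Ω) = ((x : M) : Ω) := fun x => rfl
  have haP : algebraMap (𝓞 M) (𝓞 Ω) a ∈ P := ha
  have hsP : algebraMap (𝓞 M) (𝓞 Ω) s ∉ P := hs
  have hasΩ : ((s : M) : Ω) * (algebraMap K Ω (b1 : K) - (n : Ω) * c) =
      ((p : ℕ) : Ω) ^ 2 * ((n : Ω) * c) * ((a : M) : Ω) := by
    have h1 := congrArg (fun z : 𝓞 M => ((z : M) : Ω)) has
    rw [← hc1]
    have h2 : algebraMap K Ω (b1 : K) = (((algebraMap (𝓞 K) (𝓞 M) b1 : 𝓞 M) : M) : Ω) := rfl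
    rw [h2]
    push_cast at h1
    exact h1
  have hb10 : (b1 : K) ≠ 0 := by
    intro h
    rw [h, map_zero, zero_sub] at hasΩ
    have h1 : ((s : M) : Ω) = -(((p : ℕ) : Ω) ^ 2 * ((a : M) : Ω)) := by
      have h2 : (n : Ω) * c ≠ 0 := mul_ne_zero hnΩ hc
      apply mul_right_cancel₀ h2
      linear_combination -hasΩ
    apply hs
    have h3 : s = -(((p : ℕ) : 𝓞 M) ^ 2 * a) := by
      apply NumberField.RingOfIntegers.ext
      apply Subtype.ext
      rw [h1]
      push_cast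
      rfl
    rw [h3]
    exact Q.neg_mem (Q.mul_mem_left _ ha)
  have hnK : (n : K) ≠ 0 := by exact_mod_cast hn0
  refine ⟨Units.mk0 ((b1 : K) / (n : K)) (div_ne_zero hb10 hnK),
    algebraMap (𝓞 M) (𝓞 Ω) a, algebraMap (𝓞 M) (𝓞 Ω) s, haP, hsP, ?_⟩
  rw [hmapE, hmapE, Units.val_mk0, map_div₀, map_intCast]
  field_simp
  linear_combination hasΩ

end H63.MA
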