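import Pool.Agent.H63.MC.CLkA
import Pool.Agent.H63.MC.CLkB
import Pool.Agent.H63.MA.GKus
import Pool.Agent.H63.MA.GLoc
import Pool.Agent.H63.MA.WA

/-!
# MC-CLKC: local characters are restrictions of Kummer characters

* `exists_DP`: `gloc_over`.
* `lock`: let `S` be a finite set of primes and for `v ∈ S` let `δ v : dec (P v) → ZMod p` be a homomorphism of finite level. Then there is `b ∈ Kˣ` such that `kk b` restricts to `δ v` on `dec (P v)` for all `v ∈ S`.
  Proof. For `v ∈ S`, `kum_sub` (`U = dec (P v)`) gives `B v ≠ 0` with `u (B v) = ζ^{δ v u} B v` for `u ∈ dec (P v)`; `c v = (B v)^p` is fixed by `dec (P v)`; `dens` gives `b v ∈ Kˣ` with `Cl p (P v) (b v / c v)`. By weak approximation in `K` (see `weak_approx_prim` in `SymC` or the approximation lemmas of `RMkA`: choose `b` with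
  `v.valuation (b / b v - 1) < v.valuation (p²)` for `v ∈ S`) there is `b ∈ Kˣ` with `Cl p (P v) (b / b v)` (`cl_of_val`), so `Cl p (P v) (b / c v)` (`cl_mul`) for all `v ∈ S`. Let `β^p = b` in `Ω`, `z = β / B v`, `z^p = b / c v`, which is fixed by `dec (P v)`; `cl_fix`: `u z = z` for `u ∈ dec (P v)`, i.e. `u β / β = u (B v) / B v = ζ^{δ v u}`; so
  `kk b u = δ v u` (`kk_of_root`).
* `ps_triv`: if `PS s` (`s` is a `p`-th power locally at all `v ∈ S0`) then `kk s` is trivial on `dec (P v)`, `v ∈ S0`. Proof. For `v ∣ p`: `Prim` gives `y` with `v.valuation (s y^{-p} - 1) < v.valuation (p²)`; for `v ∤ p`: `Spl p ζ v s`, i.e. `B v s x = 0` for all `x`: taking `x` of order `0` with `lg v x ≠ 0` gives `p ∣ ord v s`, and then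
  `x = π` of order `1` gives `lg v (s π^{-ord v s}) = 0`, so the residue of `s π^{-ord v s}` is a `p`-th power (the group of residues is cyclic of order `nm v - 1`), and there is `y` with `s y^{-p} ≡ 1 mod v`, `v.valuation (s y^{-p} - 1) < 1 = v.valuation (p²)`. In both cases `cl_of_val`, `cl_kk` for `x = s y^{-p}` and
  `kk s = kk (s y^{-p}) + p kk y` (`kk_mul_arg`, `kk_zpow_arg`).
-/

set_option autoImplicit false

open scoped NumberField
open IsDedekindDomain

noncomputable section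

namespace H63.MA

variable {K : Type} [Field K] [NumberField K] {Ω : Type} [Field Ω] [Algebra K Ω]
  [IsAlgClosure K Ω] {p : ℕ} {ζ : K}

theorem exists_DP (K : Type) [Field K] [NumberField K] (Ω : Type) [Field Ω] [Algebra K Ω]
    [IsAlgClosure K Ω] : Nonempty (DP K Ω) := by
  choose P hP hP' using fun v : Pl K => gloc_over K Ω v.asIdeal v.isPrime
  exact ⟨⟨P, hP, hP'⟩⟩

omit [IsAlgClosure K Ω] in
private theorem clkc_ne (Q : DP K Ω) (v : Pl K) : Q.P v ≠ ⊥ := by
  intro h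
  have h1 := Q.under v
  rw [h] at h1
  apply v.ne_bot
  rw [← h1]
  have hinj : Function.Injective (algebraMap (𝓞 K) (𝓞 Ω)) :=
    NumberField.RingOfIntegers.algebraMap.injective K Ω
  rw [Ideal.under, ← RingHom.ker_eq_comap_bot, (RingHom.injective_iff_ker_eq_bot _).mp hinj]

theorem lock (hp : p.Prime) (hζ : IsPrimitiveRoot ζ p) (S : Finset (Pl K)) (Q : DP K Ω)
    (δ : (v : Pl K) → dec (K := K) (Q.P v) →* Multiplicative (ZMod p))
    (hδ : ∀ v ∈ S, ∃ E : IntermediateField K Ω, FiniteDimensional K E ∧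
      ∀ u : dec (K := K) (Q.P v), (u : Gal(Ω/K)) ∈ E.fixingSubgroup → δ v u = 1) :
    ∃ b : Kˣ, ∀ v ∈ S, ∀ u : dec (K := K) (Q.P v),
      kk p ζ b (u : Gal(Ω/K)) = Multiplicative.toAdd (δ v u) := by
  classical
  have hex : ∀ v : Pl K, ∃ b : Kˣ, v ∈ S → ∃ C : Ω, C ≠ 0 ∧
      (∀ u : dec (K := K) (Q.P v), (u : Gal(Ω/K)) C =
        algebraMap K Ω ζ ^ (Multiplicative.toAdd (δ v u)).val * C) ∧
      Cl p (Q.P v) (algebraMap K Ω (b : K) * (C ^ p)⁻¹) := by
    intro v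
    by_cases hv : v ∈ S
    · obtain ⟨E, hE, hE'⟩ := hδ v hv
      obtain ⟨C, hC0, hC⟩ := kum_sub hp hζ (dec (K := K) (Q.P v)) (δ v) E hE'
      obtain ⟨b, hb⟩ := dens hp v (Q.P v) (Q.prime v) (Q.under v) (C ^ p) (pow_ne_zero p hC0) (by
        intro σ hσ
        have h1 := hC ⟨σ, hσ⟩
        change σ C = _ at h1
        rw [map_pow, h1, mul_pow, ← pow_mul, mul_comm _ p, pow_mul, ← map_pow, hζ.pow_eq_one,
          map_one, one_pow, one_mul])
      exact ⟨b, fun _ => ⟨C, hC0, hC, hb⟩⟩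
    · exact ⟨1, fun h => absurd h hv⟩
  choose b hb using hex
  have hpK : (p : K) ≠ 0 := by exact_mod_cast hp.ne_zero
  obtain ⟨x, hx⟩ := weak_approx S b (fun v => v.valuation K ((p : K) ^ 2)) (fun v _ => by
    rw [Valuation.ne_zero_iff]
    exact pow_ne_zero 2 hpK)
  refine ⟨x, fun v hv u => ?_⟩
  obtain ⟨C, hC0, hC, hCl⟩ := hb v hv
  have h1 := cl_of_val v (Q.P v) (Q.prime v) (Q.under v) (x * (b v)⁻¹) (hx v hv)
  have h2 := cl_mul (Q.P v) (Q.prime v) h1 hCl
  have h3 : algebraMap K Ω ((x * (b v)⁻¹ : Kˣ) : K) * (algebraMap K Ω (b v : K) * (C ^ p)⁻¹) =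
      algebraMap K Ω (x : K) * (C ^ p)⁻¹ := by
    have hb0 : algebraMap K Ω (b v : K) ≠ 0 := by
      intro h
      exact (b v).ne_zero ((algebraMap K Ω).injective (by rw [map_zero]; exact h))
    rw [Units.val_mul, Units.val_inv_eq_inv_val, map_mul, map_inv₀, mul_assoc,
      inv_mul_cancel_left₀ hb0]
  rw [h3] at h2
  obtain ⟨β, hβ⟩ := gkum_root (K := K) (Ω := Ω) hp x
  have h4 : (u : Gal(Ω/K)) (β * C⁻¹) = β * C⁻¹ := by
    refine cl_fix hp hζ (Q.P v) (Q.prime v) (clkc_ne Q v) _ _ h2 ?_ (u : Gal(Ω/K)) u.2 ?_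
    · rw [mul_pow, inv_pow, hβ]
    · rw [map_mul, map_inv₀, map_pow, hC u, AlgEquiv.commutes, mul_pow, ← pow_mul, mul_comm _ p,
        pow_mul, ← map_pow, hζ.pow_eq_one, map_one, one_pow, one_mul]
  have h5 : (u : Gal(Ω/K)) β =
      algebraMap K Ω ζ ^ ((Multiplicative.toAdd (δ v u)).val : ℤ) * β := by
    have h6 : β = β * C⁻¹ * C := by rw [mul_assoc, inv_mul_cancel₀ hC0, mul_one]
    calc (u : Gal(Ω/K)) β = (u : Gal(Ω/K)) (β * C⁻¹ * C) := by rw [← h6]
      _ = (u : Gal(Ω/K)) (β * C⁻¹) * (u : Gal(Ω/K)) C := map_mul _ _ _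
      _ = β * C⁻¹ * (algebraMap K Ω ζ ^ (Multiplicative.toAdd (δ v u)).val * C) := by
          rw [h4, hC u]
      _ = algebraMap K Ω ζ ^ ((Multiplicative.toAdd (δ v u)).val : ℤ) * (β * C⁻¹ * C) := by
          rw [zpow_natCast]
          ring
      _ = _ := by rw [← h6]
  rw [kk_of_root hp hζ x β hβ (u : Gal(Ω/K)) _ h5]
  exact gkum_val hp _

theorem ps_triv (hp : p.Prime) (hp2 : MOne p K) (hζ : IsPrimitiveRoot ζ p) (D : RD0 K p ζ)
    (Q : DP K Ω) (s : Kˣ) (hs : PS p ζ D.S0 s) (v : Pl K) (hv : v ∈ D.S0) (σ : Gal(Ω/K))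
    (hσ : σ ∈ dec (K := K) (Q.P v)) : kk p ζ s σ = 0 := by
  have key : ∃ y : Kˣ, v.valuation K (((s * (y ^ p)⁻¹ : Kˣ) : K) - 1) <
      v.valuation K ((p : K) ^ 2) := by
    by_cases ha : Above p v
    · exact hs.1 v ha
    · obtain ⟨y, hy⟩ := (spl_iff hp hζ ha s).1 (hs.2 v hv ha)
      refine ⟨y, ?_⟩
      have h1 : v.valuation K (p : K) = 1 := by
        apply le_antisymm
        · have h2 := v.valuation_le_one (K := K) (p : 𝓞 K)
          simpa using h2
        · rw [← not_lt]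
          intro h
          exact ha ((above_iff p v).2 h)
      rw [map_pow, h1, one_pow]
      exact hy
  obtain ⟨y, hy⟩ := key
  have h1 := cl_of_val v (Q.P v) (Q.prime v) (Q.under v) (s * (y ^ p)⁻¹) hy
  have h2 := cl_kk hp hζ (Q.P v) (Q.prime v) (clkc_ne Q v) (s * (y ^ p)⁻¹) h1 σ hσ
  have h3 : s = s * (y ^ p)⁻¹ * y ^ (p : ℤ) := by
    rw [zpow_natCast, inv_mul_cancel_right]
  rw [h3, kk_mul_arg hp hζ, h2, kk_zpow_arg hp hζ, zero_add, Int.cast_natCast, CharP.cast_eq_zero,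
    zero_mul]

end H63.MA
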