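import Pool.Agent.H63.MC.CXa

/-!
# MC-CTYP: finitely many local types

`types_fin`: there is a finite set `R` of homomorphisms `Γ → G` of finite type such that every `φ` of finite type has the local type of some element of `R`.
Proof. (1) `hw_types` for `W' = Multiplicative (Fin m → ZMod p)` gives a finite set `R'` of homomorphisms `Γ → W'` such that for every `φ`, `π ∘ φ` agrees with some `χ' ∈ R'` on the `dec (P v)`, `v ∈ S0`. For those `χ' ∈ R'` for which such a `φ` exists choose one, `φ_{χ'}`. (2) `hw_types` for `W = Dg.π.ker`, a finite commutative group of exponent `p`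
(`Dg.cen`), gives `R''`. (3) Let `φ` be of finite type, `χ'` as in (1): `π (φ σ) = π (φ_{χ'} σ)` on the decomposition groups, so `δ v u = (φ_{χ'} u)⁻¹ φ u` is a homomorphism `dec (P v) → W` of finite level; `hw_lock` gives `χ : Γ → W` of finite type with `χ = δ v` on `dec (P v)`, `v ∈ S0`, and `χ` agrees with some `χ'' ∈ R''` there. So `φ` has the type of
`σ ↦ φ_{χ'} σ * χ'' σ`, a homomorphism of finite type. `R` = the set of these products.
`teq_of_cls`: if `Ok D f`, `Ok D f₁`, `cQ f = cQ f₁` then `kk (ak ε f k)` and `kk (ak ε f₁ k)` agree on `dec (P v)`, `v ∈ S0`: `ak_ps`, `ps_triv`, `kk_mul_arg`.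
`unit_reps2`: representatives of the `S0`-units modulo `p`-th powers, each class exactly once (from `unit_reps`: choose a representative in every class of `U` under `x ~ y :⇔ ∃ z, x = y z^p`).
-/

set_option autoImplicit false

open scoped NumberField
open IsDedekindDomain

noncomputable section

namespace H63.MA

variable {K : Type} [Field K] [NumberField K] {Ω : Type} [Field Ω] [Algebra K Ω]
  [IsAlgClosure K Ω] {p m N : ℕ} {ζ : K}

/-- twisting by a homomorphism to a central subgroup -/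
def ctypF {G : Type} [Group G] {W : Type} [CommGroup W] (i : W →* G)
    (hc : ∀ z g, i z * g = g * i z) (φ : Gal(Ω/K) →* G) (χ : Gal(Ω/K) →* W) : Gal(Ω/K) →* G :=
  MonoidHom.mk' (fun σ => φ σ * i (χ σ)) (by
    intro σ τ
    rw [map_mul, map_mul, map_mul]
    calc φ σ * φ τ * (i (χ σ) * i (χ τ)) = φ σ * (φ τ * i (χ σ)) * i (χ τ) := by
          simp only [mul_assoc]
      _ = φ σ * (i (χ σ) * φ τ) * i (χ τ) := by rw [hc]
      _ = φ σ * i (χ σ) * (φ τ * i (χ τ)) := by simp only [mul_assoc])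

omit [NumberField K] [IsAlgClosure K Ω] in
theorem ctypF_apply {G : Type} [Group G] {W : Type} [CommGroup W] (i : W →* G)
    (hc : ∀ z g, i z * g = g * i z) (φ : Gal(Ω/K) →* G) (χ : Gal(Ω/K) →* W) (σ : Gal(Ω/K)) :
    ctypF i hc φ χ σ = φ σ * i (χ σ) := rfl

omit [NumberField K] [IsAlgClosure K Ω] in
theorem ctypF_ft {G : Type} [Group G] {W : Type} [CommGroup W] (i : W →* G)
    (hc : ∀ z g, i z * g = g * i z) (φ : Gal(Ω/K) →* G) (χ : Gal(Ω/K) →* W)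
    (hφ : H38.ML.FT φ) (hχ : H38.ML.FT χ) : H38.ML.FT (ctypF i hc φ χ) := by
  obtain ⟨E, hE, hle⟩ := hφ
  obtain ⟨E', hE', hle'⟩ := hχ
  refine ⟨E ⊔ E', inferInstance, fun σ hσ => ?_⟩
  have h1 : σ ∈ E.fixingSubgroup := IntermediateField.fixingSubgroup_antitone le_sup_left hσ
  have h2 : σ ∈ E'.fixingSubgroup := IntermediateField.fixingSubgroup_antitone le_sup_right hσ
  have h3 := hle h1
  have h4 := hle' h2
  rw [MonoidHom.mem_ker] at h3 h4 ⊢
  rw [ctypF_apply, h3, h4, map_one, mul_one]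

theorem ctyp_main (hp : p.Prime) (hp2 : MOne p K) (hζ : IsPrimitiveRoot ζ p) (D : RD0 K p ζ)
    (L : LDs D Ω) (Q : DP K Ω) {G : Type} [Group G] [Finite G] (Dg : GD p m N G)
    {W : Type} [CommGroup W] [Finite W] (hW : ∀ w : W, w ^ p = 1) (i : W →* G)
    (hi : Function.Injective i) (hc : ∀ z g, i z * g = g * i z)
    (hsur : ∀ g, Dg.π g = 1 → ∃ w, i w = g) :
    ∃ R : Finset (Gal(Ω/K) →* G), (∀ φ ∈ R, H38.ML.FT φ) ∧
      ∀ φ : Gal(Ω/K) →* G, H38.ML.FT φ → ∃ φ' ∈ R, Teq D.S0 Q φ φ' := by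
  classical
  have hp0 : NeZero p := ⟨hp.ne_zero⟩
  have hone : H38.ML.FT (1 : Gal(Ω/K) →* G) := ⟨⊥, inferInstance, fun σ _ => by
    rw [MonoidHom.mem_ker, MonoidHom.one_apply]⟩
  have hW' : ∀ w : Multiplicative (Fin m → ZMod p), w ^ p = 1 := by
    intro w
    apply Multiplicative.toAdd.injective
    rw [toAdd_pow, toAdd_one]
    funext k
    rw [Pi.smul_apply, nsmul_eq_mul, ZMod.natCast_self, zero_mul]
    rfl
  have : Finite (Multiplicative (Fin m → ZMod p)) :=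
    inferInstanceAs (Finite (Fin m → ZMod p))
  obtain ⟨R1, -, h1⟩ := hw_types hp hp2 hζ D L Q hW'
  obtain ⟨R2, h2', h2⟩ := hw_types hp hp2 hζ D L Q hW
  let g : (Gal(Ω/K) →* Multiplicative (Fin m → ZMod p)) → (Gal(Ω/K) →* G) := fun χ' =>
    if h : ∃ φ : Gal(Ω/K) →* G, H38.ML.FT φ ∧ Teq D.S0 Q (Dg.π.comp φ) χ' then h.choose else 1
  have hg : ∀ χ', (∃ φ : Gal(Ω/K) →* G, H38.ML.FT φ ∧ Teq D.S0 Q (Dg.π.comp φ) χ') →
      H38.ML.FT (g χ') ∧ Teq D.S0 Q (Dg.π.comp (g χ')) χ' := by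
    intro χ' h
    have e1 : g χ' = h.choose := by
      simp only [g]
      rw [dif_pos h]
    rw [e1]
    exact h.choose_spec
  have hg1 : ∀ χ', H38.ML.FT (g χ') := by
    intro χ'
    by_cases h : ∃ φ : Gal(Ω/K) →* G, H38.ML.FT φ ∧ Teq D.S0 Q (Dg.π.comp φ) χ'
    · exact (hg χ' h).1
    · have e1 : g χ' = 1 := by
        simp only [g]
        rw [dif_neg h]
      rw [e1]
      exact hone
  refine ⟨(R1 ×ˢ R2).image fun q => ctypF i hc (g q.1) q.2, ?_, ?_⟩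
  · intro φ hφ
    obtain ⟨q, hq, rfl⟩ := Finset.mem_image.1 hφ
    exact ctypF_ft i hc _ _ (hg1 q.1) (h2' q.2 (Finset.mem_product.1 hq).2)
  · intro φ hφ
    have hπφ : H38.ML.FT (Dg.π.comp φ) := by
      obtain ⟨E, hE, hle⟩ := hφ
      refine ⟨E, hE, fun σ hσ => ?_⟩
      have h := hle hσ
      rw [MonoidHom.mem_ker] at h ⊢
      rw [MonoidHom.comp_apply, h, map_one]
    obtain ⟨χ', hχ', hT⟩ := h1 _ hπφ
    obtain ⟨hg2, hg3⟩ := hg χ' ⟨φ, hφ, hT⟩
    -- the local homomorphisms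
    have hloc : ∀ v, v ∈ D.S0 → ∀ u ∈ dec (K := K) (Q.P v), Dg.π ((g χ' u)⁻¹ * φ u) = 1 := by
      intro v hv u hu
      have e1 := hT v hv u hu
      have e2 := hg3 v hv u hu
      rw [MonoidHom.comp_apply] at e1 e2
      rw [map_mul, map_inv, e1, e2, inv_mul_cancel]
    have hδ : ∀ v, ∃ δ : dec (K := K) (Q.P v) →* W, v ∈ D.S0 →
        ∀ u : dec (K := K) (Q.P v), i (δ u) = (g χ' (u : Gal(Ω/K)))⁻¹ * φ (u : Gal(Ω/K)) := by
      intro v
      by_cases hv : v ∈ D.S0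
      · choose δ hδ using fun u : dec (K := K) (Q.P v) => hsur _ (hloc v hv u u.2)
        refine ⟨MonoidHom.mk' δ ?_, fun _ u => hδ u⟩
        intro u w
        apply hi
        rw [map_mul, hδ, hδ w, Subgroup.coe_mul, map_mul, map_mul, mul_inv_rev]
        calc (g χ' (w : Gal(Ω/K)))⁻¹ * (g χ' (u : Gal(Ω/K)))⁻¹ *
              (φ (u : Gal(Ω/K)) * φ (w : Gal(Ω/K)))
            = (g χ' (w : Gal(Ω/K)))⁻¹ * ((g χ' (u : Gal(Ω/K)))⁻¹ * φ (u : Gal(Ω/K))) *
                φ (w : Gal(Ω/K)) := by simp only [mul_assoc]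
          _ = (g χ' (w : Gal(Ω/K)))⁻¹ * i (δ u) * φ (w : Gal(Ω/K)) := by rw [hδ u]
          _ = i (δ u) * (g χ' (w : Gal(Ω/K)))⁻¹ * φ (w : Gal(Ω/K)) := by rw [hc]
          _ = i (δ u) * ((g χ' (w : Gal(Ω/K)))⁻¹ * φ (w : Gal(Ω/K))) := by rw [mul_assoc]
      · exact ⟨1, fun h => absurd h hv⟩
    choose δ hδ using hδ
    obtain ⟨χ, hχ, hχδ⟩ := hw_lock hp hζ D Q hW δ (by
      intro v hv
      obtain ⟨E, hE, hle⟩ := hφ
      obtain ⟨E', hE', hle'⟩ := hg2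
      refine ⟨E ⊔ E', inferInstance, fun u hu => ?_⟩
      have e1 : (u : Gal(Ω/K)) ∈ E.fixingSubgroup :=
        IntermediateField.fixingSubgroup_antitone le_sup_left hu
      have e2 : (u : Gal(Ω/K)) ∈ E'.fixingSubgroup :=
        IntermediateField.fixingSubgroup_antitone le_sup_right hu
      have e3 := hle e1
      have e4 := hle' e2
      rw [MonoidHom.mem_ker] at e3 e4
      apply hi
      rw [hδ v hv, e3, e4, map_one, inv_one, mul_one])
    obtain ⟨χ'', hχ'', hT''⟩ := h2 χ hχ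
    refine ⟨ctypF i hc (g χ') χ'', Finset.mem_image.2 ⟨(χ', χ''),
      Finset.mem_product.2 ⟨hχ', hχ''⟩, rfl⟩, ?_⟩
    intro v hv σ hσ
    rw [ctypF_apply, ← hT'' v hv σ hσ]
    have e1 := hχδ v hv ⟨σ, hσ⟩
    have e2 := hδ v hv ⟨σ, hσ⟩
    rw [← e1] at e2
    change i (χ σ) = (g χ' σ)⁻¹ * φ σ at e2
    rw [e2, mul_inv_cancel_left]

theorem types_fin (hp : p.Prime) (hp2 : MOne p K) (hζ : IsPrimitiveRoot ζ p) (D : RD0 K p ζ)
    (L : LDs D Ω) (Q : DP K Ω) {G : Type} [Group G] [Finite G] (hG : Ep p G) (Dg : GD p m N G) :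
    ∃ R : Finset (Gal(Ω/K) →* G), (∀ φ ∈ R, H38.ML.FT φ) ∧
      ∀ φ : Gal(Ω/K) →* G, H38.ML.FT φ → ∃ φ' ∈ R, Teq D.S0 Q φ φ' := by
  let _ : CommGroup Dg.π.ker :=
    { (inferInstance : Group Dg.π.ker) with
      mul_comm := fun a b => Subtype.ext (Dg.cen a.1 a.2 b.1) }
  exact ctyp_main hp hp2 hζ D L Q Dg (W := Dg.π.ker) (fun w => Subtype.ext (hG.exp w.1))
    Dg.π.ker.subtype Subtype.val_injective (fun z g => Dg.cen z.1 z.2 g)
    (fun g hg => ⟨⟨g, hg⟩, rfl⟩)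

theorem unit_reps2 (hp : p.Prime) (S : Finset (Pl K)) :
    ∃ U : Finset Kˣ, (∀ u ∈ U, TUnit S u) ∧ (∀ x, TUnit S x → ∃ u ∈ U, ∃ y : Kˣ, x = u * y ^ p) ∧
      ∀ u ∈ U, ∀ u' ∈ U, ∀ y : Kˣ, u = u' * y ^ p → u = u' := by
  classical
  obtain ⟨U, hU1, hU2⟩ := unit_reps hp S
  let Nn : Subgroup Kˣ := (powMonoidHom p : Kˣ →* Kˣ).range
  let q : Kˣ → Kˣ ⧸ Nn := fun u => (u : Kˣ ⧸ Nn)
  have hq : ∀ u u' : Kˣ, q u = q u' ↔ ∃ y : Kˣ, u = u' * y ^ p := by
    intro u u'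
    simp only [q]
    rw [QuotientGroup.eq]
    constructor
    · rintro ⟨y, hy⟩
      refine ⟨y⁻¹, ?_⟩
      rw [powMonoidHom_apply] at hy
      rw [inv_pow, hy, mul_inv_rev, inv_inv, mul_inv_cancel_left]
    · rintro ⟨y, rfl⟩
      refine ⟨y⁻¹, ?_⟩
      rw [powMonoidHom_apply, mul_inv_rev, mul_assoc, inv_mul_cancel, mul_one, inv_pow]
  obtain ⟨V, hV, hbij⟩ := Set.exists_subset_bijOn (U : Set Kˣ) q
  have hfin : V.Finite := U.finite_toSet.subset hV
  refine ⟨hfin.toFinset, fun u hu => hU1 u (hV (hfin.mem_toFinset.1 hu)), ?_, ?_⟩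
  · intro x hx
    obtain ⟨u, hu, y, hy⟩ := hU2 x hx
    obtain ⟨u', hu', he⟩ := hbij.surjOn ⟨u, hu, rfl⟩
    obtain ⟨z, hz⟩ := (hq u u').1 he.symm
    refine ⟨u', hfin.mem_toFinset.2 hu', z * y, ?_⟩
    rw [hy, hz, mul_pow, mul_assoc]
  · intro u hu u' hu' y hy
    exact hbij.injOn (hfin.mem_toFinset.1 hu) (hfin.mem_toFinset.1 hu') ((hq u u').2 ⟨y, hy⟩)

end H63.MA
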