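import Pool.Agent.H63.MC.CLkC
import Pool.Agent.H63.MA.GTw
import Pool.Agent.H63.MA.GUpA

/-!
# MC-CHA: homomorphisms to a finite commutative group of exponent `p`

`W` a finite commutative group (written multiplicatively) with `w^p = 1`. By linear algebra over `ZMod p` (`AddCommGroup.zmodModule` on `Additive W`, a basis) there are `d`, elements `e c ∈ W` and homomorphisms `ψ c : W → Multiplicative (ZMod p)`, `c : Fin d`, with `w = ∏_c (e c)^{(ψ c w).val}` (`hw_basis`).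
* `hw_mk`: for `b : Fin d → Kˣ`, `σ ↦ ∏_c (e c)^{(kk (b c) σ).val}` is a homomorphism of finite type (`kk_mul`; exponents modulo `p`).
* `hw_ex`: `s : Pl K → W` with finite support: `b c = ∏_v pi v ^ (ψ c (s v)).val` (product over the `v ∉ S0` in the support) gives `χ (t v) = s v` for `v ∉ S0` (`kk_pi`, `kk_prod_arg`).
* `hw_lt`: if moreover `∏_{v ∈ T} (s v)^{(q v j).val} = 1` for all `j` (`T` a finite set of primes outside `S0` containing the support), then `∑_{v ∈ T} (ψ c (s v)).val • q v = 0` in `(ZMod p)^r` (apply `ψ c`), so `PS (b c)` by `prim_of`, and `χ` is trivial on `dec (P v)`, `v ∈ S0` (`ps_triv`).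
* `hw_rep`: every `χ : Γ → W` of finite type is `σ ↦ ∏_c (e c)^{(kk (b c) σ).val}` for some `b` (`kc_all` for `ψ c ∘ χ`).
* `hw_fin`: the set of the `χ` of finite type with `χ (t v) = 1` for all `v ∉ S0` is finite: `ord v (b c) = kk (b c) (t v) = 0` in `ZMod p` (`ld_kk_t`), so `b c = u y^p` with `u` in a finite set `U` (`unit_of_ord`, `unit_reps`) and `χ` is determined by the `u`.
* `hw_types`: there is a finite set `R` of homomorphisms of finite type such that every `χ` of finite type agrees with some `χ' ∈ R` on all `dec (P v)`, `v ∈ S0`: for `b ∈ Kˣ` write `b = u y^p ∏_{v ∈ T} pi v ^ n v` with `u ∈ U`, `T` finite outside `S0`, `n v = (ord v b modulo p)` (`unit_of_ord` for `b / ∏ pi v ^ ord v b`). The restriction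
  of `kk b` to the `dec (P v)`, `v ∈ S0`, depends only on `u ∈ U` and on `∑ n v q v ∈ (ZMod p)^r`: if two `b` have the same `u` and the same sum, their quotient is `y^p` times a product satisfying `prim_of`, so `PS` and `ps_triv`. Finitely many possibilities for each `b c`; choose representatives.
* `hw_lock`: `δ v : dec (P v) → W` of finite level for `v ∈ S0`: `lock` for `ψ c ∘ δ v` gives `b c`.
-/

set_option autoImplicit false

open scoped NumberField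
open IsDedekindDomain

noncomputable section

namespace H63.MA

/-! ### a finite commutative group of exponent `p` -/

theorem CHa_basis0 {p : ℕ} (hp : p.Prime) (V : Type) [AddCommGroup V] [Module (ZMod p) V]
    [Finite V] : ∃ (d : ℕ) (e : Fin d → V) (ψ : Fin d → (V →+ ZMod p)),
      ∀ v, v = ∑ c, (ψ c v).val • e c := by
  have : Fact p.Prime := ⟨hp⟩
  have : NeZero p := ⟨hp.ne_zero⟩
  have : Module.Finite (ZMod p) V := Module.Finite.of_finite
  let b := Module.finBasis (ZMod p) V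
  refine ⟨_, b, fun c => (b.coord c).toAddMonoidHom, fun v => ?_⟩
  conv_lhs => rw [← b.sum_repr v]
  refine Finset.sum_congr rfl fun c _ => ?_
  change (b.repr v c) • b c = (b.repr v c).val • b c
  rw [← Nat.cast_smul_eq_nsmul (ZMod p), ZMod.natCast_zmod_val]

theorem CHa_basis1 {p : ℕ} (hp : p.Prime) (V : Type) [AddCommGroup V] (hV : ∀ v : V, p • v = 0)
    [Finite V] : ∃ (d : ℕ) (e : Fin d → V) (ψ : Fin d → (V →+ ZMod p)),
      ∀ v, v = ∑ c, (ψ c v).val • e c :=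
  @CHa_basis0 p hp V _ (AddCommGroup.zmodModule hV) _

theorem CHa_basis {p : ℕ} (hp : p.Prime) (W : Type) [CommGroup W] [Finite W]
    (hW : ∀ w : W, w ^ p = 1) : ∃ (d : ℕ) (e : Fin d → W)
      (ψ : Fin d → (W →* Multiplicative (ZMod p))),
      ∀ w, w = ∏ c, e c ^ (Multiplicative.toAdd (ψ c w)).val := by
  have : Finite (Additive W) := Finite.of_equiv W Additive.ofMul
  obtain ⟨d, e, ψ, h⟩ := CHa_basis1 hp (Additive W) (fun x => by
    rw [← ofMul_toMul x, ← ofMul_pow, hW, ofMul_one])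
  refine ⟨d, fun c => Additive.toMul (e c), fun c =>
    { toFun := fun x => Multiplicative.ofAdd (ψ c (Additive.ofMul x))
      map_one' := by rw [ofMul_one, map_zero, ofAdd_zero]
      map_mul' := fun x y => by rw [ofMul_mul, map_add, ofAdd_add] }, fun w => ?_⟩
  have h1 := congrArg Additive.toMul (h (Additive.ofMul w))
  rw [toMul_ofMul, toMul_sum] at h1
  exact h1

section

variable {K : Type} [Field K] [NumberField K] {Ω : Type} [Field Ω] [Algebra K Ω]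
  [IsAlgClosure K Ω] {p : ℕ} {ζ : K} {W : Type} [CommGroup W] [Finite W]

omit [Finite W] in
/-- the homomorphism with given Kummer coordinates -/
theorem CHa_mk (hp : p.Prime) (hζ : IsPrimitiveRoot ζ p) (hW : ∀ w : W, w ^ p = 1) {d : ℕ}
    (e : Fin d → W) (b : Fin d → Kˣ) :
    ∃ χ : Gal(Ω/K) →* W, H38.ML.FT χ ∧ ∀ σ, χ σ = ∏ c, e c ^ (kk p ζ (b c) σ).val := by
  classical
  have key : ∀ F : Finset (Fin d), ∃ χ : Gal(Ω/K) →* W, H38.ML.FT χ ∧
      ∀ σ, χ σ = ∏ c ∈ F, e c ^ (kk p ζ (b c) σ).val := by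
    intro F
    induction F using Finset.induction_on with
    | empty =>
      refine ⟨1, ⟨⊥, inferInstance, fun σ _ => ?_⟩, fun σ => ?_⟩
      · rw [MonoidHom.mem_ker, MonoidHom.one_apply]
      · rw [Finset.prod_empty, MonoidHom.one_apply]
    | insert c F hc ih =>
      obtain ⟨χ, h1, h2⟩ := ih
      obtain ⟨χ', h3, h4⟩ := gtw_one hp χ h1 (kc p ζ Ω (b c)) (kc_is hp hζ (b c)).1 (e c)
        (hW _) (fun h => mul_comm _ _)
      refine ⟨χ', h3, fun σ => ?_⟩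
      rw [h4, Finset.prod_insert hc, h2, mul_comm]
      rfl
  exact key Finset.univ

omit [Finite W] in
/-- every homomorphism has Kummer coordinates -/
theorem CHa_rep (hp : p.Prime) (hζ : IsPrimitiveRoot ζ p) {d : ℕ}
    (e : Fin d → W) (ψ : Fin d → (W →* Multiplicative (ZMod p)))
    (he : ∀ w, w = ∏ c, e c ^ (Multiplicative.toAdd (ψ c w)).val) (χ : Gal(Ω/K) →* W)
    (hχ : H38.ML.FT χ) : ∃ b : Fin d → Kˣ, ∀ σ, χ σ = ∏ c, e c ^ (kk p ζ (b c) σ).val := by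
  have h1 : ∀ c, ∃ b : Kˣ, (ψ c).comp χ = kc p ζ Ω b := fun c =>
    kc_all hp hζ _ (H38.ML.ft_comp _ _ hχ)
  choose b hb using h1
  refine ⟨b, fun σ => ?_⟩
  rw [he (χ σ)]
  refine Finset.prod_congr rfl fun c _ => ?_
  unfold kk
  rw [← hb c]
  rfl

/-- the values at the generators of inertia -/
theorem CHa_val (hp : p.Prime) (hζ : IsPrimitiveRoot ζ p) (D : RD0 K p ζ) (L : LDs D Ω)
    (T : Finset (Pl K)) (hT : ∀ v ∈ T, v ∉ D.S0) (n : Pl K → ZMod p) (w : Pl K) (hw : w ∉ D.S0)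
    (hn : ∀ v, v ∉ T → n v = 0) :
    kk p ζ (∏ v ∈ T, D.pi v ^ ((n v).val : ℤ)) (L.t w) = n w := by
  classical
  have : NeZero p := ⟨hp.ne_zero⟩
  rw [kk_prod_arg hp hζ]
  have h1 : ∀ v ∈ T, kk p ζ (D.pi v ^ ((n v).val : ℤ)) (L.t w) = if v = w then n w else 0 := by
    intro v hv
    rw [kk_zpow_arg hp hζ, Int.cast_natCast, ZMod.natCast_zmod_val]
    split_ifs with h
    · rw [(kk_pi hp hζ D L v w (hT v hv) hw).1 h, mul_one, h]
    · rw [(kk_pi hp hζ D L v w (hT v hv) hw).2 h, mul_zero]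
  rw [Finset.sum_congr rfl h1]
  by_cases hwT : w ∈ T
  · rw [Finset.sum_ite_eq' T w, if_pos hwT]
  · rw [hn w hwT]
    exact Finset.sum_eq_zero fun v hv => by simp

theorem hw_ex (hp : p.Prime) (hζ : IsPrimitiveRoot ζ p) (D : RD0 K p ζ) (L : LDs D Ω)
    (hW : ∀ w : W, w ^ p = 1) (s : Pl K → W) (hs : {v | s v ≠ 1}.Finite) :
    ∃ χ : Gal(Ω/K) →* W, H38.ML.FT χ ∧ ∀ v, v ∉ D.S0 → χ (L.t v) = s v := by
  classical
  obtain ⟨d, e, ψ, he⟩ := CHa_basis hp W hW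
  let T : Finset (Pl K) := hs.toFinset.filter (fun v => v ∉ D.S0)
  have hT : ∀ v ∈ T, v ∉ D.S0 := fun v hv => (Finset.mem_filter.1 hv).2
  have hTn : ∀ v, v ∉ D.S0 → v ∉ T → s v = 1 := by
    intro v hv hvT
    by_contra h
    exact hvT (Finset.mem_filter.2 ⟨hs.mem_toFinset.2 h, hv⟩)
  obtain ⟨χ, h1, h2⟩ := CHa_mk (Ω := Ω) hp hζ hW e (fun c => ∏ v ∈ T,
    D.pi v ^ (((if v ∈ T then Multiplicative.toAdd (ψ c (s v)) else 0 : ZMod p)).val : ℤ))
  refine ⟨χ, h1, fun w hw => ?_⟩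
  rw [h2, he (s w)]
  refine Finset.prod_congr rfl fun c _ => ?_
  have h3 := CHa_val hp hζ D L T hT
    (fun v => if v ∈ T then Multiplicative.toAdd (ψ c (s v)) else 0) w hw
    (fun v hv => if_neg hv)
  rw [h3]
  by_cases hwT : w ∈ T
  · rw [if_pos hwT]
  · rw [if_neg hwT, hTn w hw hwT, map_one, toAdd_one]

theorem CHa_ps (D : RD0 K p ζ) (T : Finset (Pl K)) (hT : ∀ v ∈ T, v ∉ D.S0)
    (n : Pl K → ℤ) (hq : ∑ v ∈ T, ((n v : ℤ) : ZMod p) • D.q v = 0) :
    PS p ζ D.S0 (∏ v ∈ T, D.pi v ^ n v) := by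
  classical
  let m : Pl K →₀ ℤ := Finsupp.onFinset T (fun v => if v ∈ T then n v else 0)
    (fun v hv => by
      by_contra h
      exact hv (if_neg h))
  have hm : ∀ v, m v = if v ∈ T then n v else 0 := fun v => rfl
  have hsup : m.support ⊆ T := Finsupp.support_onFinset_subset
  have h1 : (m.sum fun v k => (k : ZMod p) • D.q v) = ∑ v ∈ T, ((n v : ℤ) : ZMod p) • D.q v := by
    rw [Finsupp.sum_of_support_subset m hsup _ (fun v _ => by rw [Int.cast_zero, zero_smul])]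
    exact Finset.sum_congr rfl fun v hv => by rw [hm, if_pos hv]
  have h2 : (m.prod fun v k => D.pi v ^ k) = ∏ v ∈ T, D.pi v ^ n v := by
    rw [Finsupp.prod_of_support_subset m hsup _ (fun v _ => by rw [zpow_zero])]
    exact Finset.prod_congr rfl fun v hv => by rw [hm, if_pos hv]
  have h3 := D.prim_of m (fun v hv => by
    rw [hm, if_neg]
    intro h
    exact hT v h hv) (by rw [h1, hq])
  rw [h2] at h3
  exact h3

theorem hw_lt (hp : p.Prime) (hp2 : MOne p K) (hζ : IsPrimitiveRoot ζ p) (D : RD0 K p ζ)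
    (L : LDs D Ω) (Q : DP K Ω) (hW : ∀ w : W, w ^ p = 1) (s : Pl K → W) (T : Finset (Pl K))
    (hT : ∀ v ∈ T, v ∉ D.S0) (hs : ∀ v, v ∉ T → s v = 1)
    (hq : ∀ j : Fin D.r, ∏ v ∈ T, s v ^ (D.q v j).val = 1) :
    ∃ χ : Gal(Ω/K) →* W, H38.ML.FT χ ∧ (∀ v, v ∉ D.S0 → χ (L.t v) = s v) ∧
      ∀ v ∈ D.S0, ∀ σ ∈ dec (K := K) (Q.P v), χ σ = 1 := by
  classical
  have : NeZero p := ⟨hp.ne_zero⟩
  obtain ⟨d, e, ψ, he⟩ := CHa_basis hp W hW
  obtain ⟨χ, h1, h2⟩ := CHa_mk (Ω := Ω) hp hζ hW e (fun c => ∏ v ∈ T,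
    D.pi v ^ ((Multiplicative.toAdd (ψ c (s v))).val : ℤ))
  refine ⟨χ, h1, fun w hw => ?_, fun v hv σ hσ => ?_⟩
  · rw [h2, he (s w)]
    refine Finset.prod_congr rfl fun c _ => ?_
    rw [CHa_val hp hζ D L T hT (fun v => Multiplicative.toAdd (ψ c (s v))) w hw
      (fun v hv => by rw [hs v hv, map_one, toAdd_one])]
  · rw [h2]
    refine Finset.prod_eq_one fun c _ => ?_
    have h3 : PS p ζ D.S0 (∏ v ∈ T, D.pi v ^ ((Multiplicative.toAdd (ψ c (s v))).val : ℤ)) := by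
      apply CHa_ps D T hT (fun v => ((Multiplicative.toAdd (ψ c (s v))).val : ℤ))
      funext j
      rw [Finset.sum_apply]
      have h4 := congrArg (fun w => Multiplicative.toAdd (ψ c w)) (hq j)
      simp only [map_prod, map_pow, map_one, toAdd_prod, toAdd_pow, toAdd_one] at h4
      rw [Pi.zero_apply, ← h4]
      refine Finset.sum_congr rfl fun v _ => ?_
      rw [Pi.smul_apply, smul_eq_mul, Int.cast_natCast, ZMod.natCast_zmod_val, nsmul_eq_mul,
        ZMod.natCast_zmod_val, mul_comm]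
    rw [ps_triv hp hp2 hζ D Q _ h3 v hv σ hσ, ZMod.val_zero, pow_zero]

theorem hw_fin (hp : p.Prime) (hζ : IsPrimitiveRoot ζ p) (D : RD0 K p ζ) (L : LDs D Ω)
    (hW : ∀ w : W, w ^ p = 1) :
    {χ : Gal(Ω/K) →* W | H38.ML.FT χ ∧ ∀ v, v ∉ D.S0 → χ (L.t v) = 1}.Finite := by
  obtain ⟨d, e, ψ, he⟩ := CHa_basis hp W hW
  obtain ⟨U, -, hU⟩ := unit_reps hp D.S0
  have h0 := fun b : Fin d → Kˣ => CHa_mk (Ω := Ω) hp hζ hW e b
  choose mk hmk1 hmk2 using h0
  refine (Set.finite_range (fun u : Fin d → U => mk (fun c => ((u c : Kˣ))))).subset ?_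
  rintro χ ⟨hχ, ht⟩
  have h1 : ∀ c, ∃ u ∈ U, (ψ c).comp χ = kc p ζ Ω u := by
    intro c
    refine gupa_key hp hζ D L U hU _ (H38.ML.ft_comp _ _ hχ) fun v hv => ?_
    rw [MonoidHom.comp_apply, ht v hv, map_one]
  choose u hu hψ using h1
  refine ⟨fun c => ⟨u c, hu c⟩, ?_⟩
  apply MonoidHom.ext
  intro σ
  change mk (fun c => u c) σ = χ σ
  rw [hmk2, he (χ σ)]
  refine Finset.prod_congr rfl fun c _ => ?_
  unfold kk
  rw [← hψ c]
  rfl

/-- the types of the Kummer characters -/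
theorem CHa_types (hp : p.Prime) (hp2 : MOne p K) (hζ : IsPrimitiveRoot ζ p) (D : RD0 K p ζ)
    (Q : DP K Ω) (U : Finset Kˣ)
    (hU : ∀ x, TUnit D.S0 x → ∃ u ∈ U, ∃ y : Kˣ, x = u * y ^ p) :
    ∃ F : Kˣ → U × (Fin D.r → ZMod p), ∀ b b', F b = F b' → ∀ v ∈ D.S0,
      ∀ σ ∈ dec (K := K) (Q.P v), kk p ζ b σ = kk p ζ b' σ := by
  classical
  -- `b = (∏ pi v ^ ord v b) u y ^ p`
  have hfin : ∀ b : Kˣ, ∃ T : Finset (Pl K), (∀ v ∈ T, v ∉ D.S0) ∧
      ∀ v, v ∉ T → v ∉ D.S0 → ord v b = 0 := by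
    intro b
    refine ⟨(finite_ord b).toFinset.filter (fun v => v ∉ D.S0),
      fun v hv => (Finset.mem_filter.1 hv).2, fun v hv hv0 => ?_⟩
    by_contra h
    exact hv (Finset.mem_filter.2 ⟨(finite_ord b).mem_toFinset.2 h, hv0⟩)
  choose T hT0 hT1 using hfin
  have hordp : ∀ (T' : Finset (Pl K)), (∀ v ∈ T', v ∉ D.S0) → ∀ b : Kˣ,
      (∀ v, v ∉ T' → v ∉ D.S0 → ord v b = 0) →
      TUnit D.S0 (b * (∏ v ∈ T', D.pi v ^ ord v b)⁻¹) := by
    intro T' hT' b hb w hw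
    rw [ord_mul, ord_inv, ord_prod]
    have h1 : ∀ v ∈ T', ord w (D.pi v ^ ord v b) = if v = w then ord w b else 0 := by
      intro v hv
      rw [ord_zpow]
      split_ifs with h
      · rw [h, D.pi_self w hw, mul_one]
      · rw [D.pi_ne v w (hT' v hv) hw (Ne.symm h), mul_zero]
    rw [Finset.sum_congr rfl h1]
    by_cases hwT : w ∈ T'
    · rw [Finset.sum_ite_eq' T' w, if_pos hwT]
      ring
    · rw [hb w hwT hw]
      simp
  have hrep : ∀ b : Kˣ, ∃ u ∈ U, ∃ y : Kˣ,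
      b * (∏ v ∈ T b, D.pi v ^ ord v b)⁻¹ = u * y ^ p :=
    fun b => hU _ (hordp (T b) (hT0 b) b (hT1 b))
  choose u hu y hy using hrep
  refine ⟨fun b => (⟨u b, hu b⟩, ∑ v ∈ T b, ((ord v b : ℤ) : ZMod p) • D.q v), ?_⟩
  intro b b' hF v hv σ hσ
  have hF1 : u b = u b' := congrArg (fun z : U × (Fin D.r → ZMod p) => (z.1 : Kˣ)) hF
  have hF2 : ∑ v ∈ T b, ((ord v b : ℤ) : ZMod p) • D.q v =
      ∑ v ∈ T b', ((ord v b' : ℤ) : ZMod p) • D.q v :=
    congrArg (fun z : U × (Fin D.r → ZMod p) => z.2) hF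
  have hkk : ∀ b : Kˣ, kk p ζ b σ = kk p ζ (∏ v ∈ T b, D.pi v ^ ord v b) σ + kk p ζ (u b) σ := by
    intro b
    have h1 : b = (∏ v ∈ T b, D.pi v ^ ord v b) * (u b * y b ^ p) := by
      rw [← hy b, mul_comm b, mul_inv_cancel_left]
    have h6 : kk p ζ ((y b) ^ p) σ = 0 :=
      (kk_eq_zero_iff (Ω := Ω) hp hζ ((y b) ^ p)).2 ⟨y b, rfl⟩ σ
    conv_lhs => rw [h1]
    rw [kk_mul_arg hp hζ, kk_mul_arg hp hζ, h6, add_zero]
  -- a common set of primes
  let T' := T b ∪ T b'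
  have hT' : ∀ v ∈ T', v ∉ D.S0 := by
    intro v hv
    rcases Finset.mem_union.1 hv with h | h
    · exact hT0 b v h
    · exact hT0 b' v h
  have hz : ∀ c : Kˣ, T c ⊆ T' → ∏ v ∈ T', D.pi v ^ ord v c = ∏ v ∈ T c, D.pi v ^ ord v c := by
    intro c hc
    refine (Finset.prod_subset hc fun v hv hvc => ?_).symm
    rw [hT1 c v hvc (hT' v hv), zpow_zero]
  have hzs : ∀ c : Kˣ, T c ⊆ T' → ∑ v ∈ T', ((ord v c : ℤ) : ZMod p) • D.q v =
      ∑ v ∈ T c, ((ord v c : ℤ) : ZMod p) • D.q v := by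
    intro c hc
    refine (Finset.sum_subset hc fun v hv hvc => ?_).symm
    rw [hT1 c v hvc (hT' v hv), Int.cast_zero, zero_smul]
  have hb1 : T b ⊆ T' := Finset.subset_union_left
  have hb2 : T b' ⊆ T' := Finset.subset_union_right
  have hps : PS p ζ D.S0 (∏ v ∈ T', D.pi v ^ (ord v b - ord v b')) := by
    apply CHa_ps D T' hT' (fun v => ord v b - ord v b')
    have h1 : ∀ v ∈ T', (((ord v b - ord v b' : ℤ)) : ZMod p) • D.q v =
        ((ord v b : ℤ) : ZMod p) • D.q v - ((ord v b' : ℤ) : ZMod p) • D.q v := by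
      intro v _
      rw [Int.cast_sub, sub_smul]
    rw [Finset.sum_congr rfl h1, Finset.sum_sub_distrib, hzs b hb1, hzs b' hb2, hF2, sub_self]
  have h0 := ps_triv hp hp2 hζ D Q _ hps v hv σ hσ
  have h1 : (∏ v ∈ T', D.pi v ^ ord v b) =
      (∏ v ∈ T', D.pi v ^ (ord v b - ord v b')) * ∏ v ∈ T', D.pi v ^ ord v b' := by
    rw [← Finset.prod_mul_distrib]
    refine Finset.prod_congr rfl fun v _ => ?_
    rw [← zpow_add, sub_add_cancel]
  rw [hkk b, hkk b', ← hz b hb1, ← hz b' hb2, h1, kk_mul_arg hp hζ, h0, zero_add, hF1]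

theorem hw_types (hp : p.Prime) (hp2 : MOne p K) (hζ : IsPrimitiveRoot ζ p) (D : RD0 K p ζ)
    (L : LDs D Ω) (Q : DP K Ω) (hW : ∀ w : W, w ^ p = 1) :
    ∃ R : Finset (Gal(Ω/K) →* W), (∀ χ ∈ R, H38.ML.FT χ) ∧
      ∀ χ : Gal(Ω/K) →* W, H38.ML.FT χ → ∃ χ' ∈ R, Teq D.S0 Q χ χ' := by
  classical
  have : NeZero p := ⟨hp.ne_zero⟩
  obtain ⟨d, e, ψ, he⟩ := CHa_basis hp W hW
  obtain ⟨U, -, hU⟩ := unit_reps hp D.S0
  have h0 := fun b : Fin d → Kˣ => CHa_mk (Ω := Ω) hp hζ hW e b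
  choose mk hmk1 hmk2 using h0
  obtain ⟨F, hF⟩ := CHa_types (Ω := Ω) hp hp2 hζ D Q U hU
  refine ⟨Finset.univ.image (fun z : Fin d → (U × (Fin D.r → ZMod p)) =>
    mk (fun c => Function.invFun F (z c))), ?_, ?_⟩
  · intro χ hχ
    obtain ⟨z, -, rfl⟩ := Finset.mem_image.1 hχ
    exact hmk1 _
  · intro χ hχ
    obtain ⟨b, hb⟩ := CHa_rep (p := p) (ζ := ζ) hp hζ e ψ he χ hχ
    refine ⟨_, Finset.mem_image_of_mem _ (Finset.mem_univ (fun c => F (b c))), ?_⟩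
    intro v hv σ hσ
    rw [hb, hmk2]
    refine Finset.prod_congr rfl fun c _ => ?_
    have h1 : F (Function.invFun F (F (b c))) = F (b c) := Function.invFun_eq ⟨b c, rfl⟩
    rw [hF _ _ h1 v hv σ hσ]

theorem hw_lock (hp : p.Prime) (hζ : IsPrimitiveRoot ζ p) (D : RD0 K p ζ) (Q : DP K Ω)
    (hW : ∀ w : W, w ^ p = 1) (δ : (v : Pl K) → dec (K := K) (Q.P v) →* W)
    (hδ : ∀ v ∈ D.S0, ∃ E : IntermediateField K Ω, FiniteDimensional K E ∧
      ∀ u : dec (K := K) (Q.P v), (u : Gal(Ω/K)) ∈ E.fixingSubgroup → δ v u = 1) :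
    ∃ χ : Gal(Ω/K) →* W, H38.ML.FT χ ∧
      ∀ v ∈ D.S0, ∀ u : dec (K := K) (Q.P v), χ (u : Gal(Ω/K)) = δ v u := by
  obtain ⟨d, e, ψ, he⟩ := CHa_basis hp W hW
  have h1 : ∀ c, ∃ b : Kˣ, ∀ v ∈ D.S0, ∀ u : dec (K := K) (Q.P v),
      kk p ζ b (u : Gal(Ω/K)) = Multiplicative.toAdd ((ψ c).comp (δ v) u) := by
    intro c
    refine lock hp hζ D.S0 Q (fun v => (ψ c).comp (δ v)) fun v hv => ?_
    obtain ⟨E, hE, h⟩ := hδ v hv
    refine ⟨E, hE, fun u hu => ?_⟩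
    rw [MonoidHom.comp_apply, h u hu, map_one]
  choose b hb using h1
  obtain ⟨χ, h2, h3⟩ := CHa_mk (Ω := Ω) hp hζ hW e b
  refine ⟨χ, h2, fun v hv u => ?_⟩
  rw [h3, he (δ v u)]
  refine Finset.prod_congr rfl fun c _ => ?_
  rw [hb c v hv u]
  rfl

end

end H63.MA
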