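import Pool.Agent.H63.MC.CDef
import Pool.Agent.H38.ML.Disc
import Pool.Agent.H38.ML.Factor

/-!
# MC-CDA: the local discriminant exponent

`ldx K L v = ∑_{P ∣ v} f_P d_P`, `d_P = H38.ML.dexp K L P` the multiplicity of `P` in the different, `f_P` the residue degree, `P` over the primes of `𝓞 L` over `v`.
* `ldx_prod`: there is a finite set `V` of primes such that `ldx K L v = 0` for `v ∉ V` and the absolute norm of the different is `∏_{v ∈ V} nm v ^ ldx K L v` (factorisation of the different, `N(P) = (nm v)^{f_P}`; compare the proof of `absNorm_different_le` in `H38/ML/Disc.lean`). `V` may be enlarged: the statement holds for every finite set `V` containing all `v` with `ldx K L v ≠ 0`.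
* `ldx_congr`: `L, L'` finite Galois extensions of `K` in `Ω` of the same degree, `𝔓` a prime of `𝓞 Ω` over `v`, such that an element of the inertia group of `𝔓` fixes `L` iff it fixes `L'` (`hI`), and the images of the inertia group in `Gal(L/K)` and `Gal(L'/K)` have the same order (`hcard`, in terms of `embOrb`: here stated as: `σ, τ` in the inertia group agree on `L` iff
  they agree on `L'`, which follows from `hI`). Then `ldx K L v = ldx K L' v`.
  Proof. Let `Q = 𝔓 ∩ 𝓞 L`. As `L/K` is Galois all primes over `v` have the same `e, f, d` (`d`: the different is invariant under `Gal(L/K)`), their number is `g`, `g e f = n = [L:K]`, so `ldx K L v = (n / e) d_Q`, where `e` is the order of the inertia group of `Q`, which is the image of the inertia group `I` of `𝔓` in `Gal(L/K)` (`H38.ML.exists_inertia`),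
  `e = #(I / (I ∩ Gal(Ω/L)))`. By `hI` it is the same number for `L'`. So it is enough that `d_Q = d_{Q'}`, `Q' = 𝔓 ∩ 𝓞 L'`. Let `M = L ⊔ L'` (finite Galois over `K`), `Q_M = 𝔓 ∩ 𝓞 M`. The inertia group of `Q_M` in `Gal(M/L)` is trivial: an element of it is the restriction of some `τ ∈ I` (`exists_inertia`) which fixes `L`, so it fixes `L'` by `hI`, hence `M`. So
  `Q_M` is unramified over `L` and `Q_M` does not divide the different of `M/L` (`not_dvd_differentIdeal_iff`; separable residue extensions of finite fields), and `e(Q_M/Q) = 1`. By the tower formula `differentIdeal_eq_differentIdeal_mul_differentIdeal` the multiplicity of `Q_M` in the different of `M/K` is `d_Q`. By symmetry it is also `d_{Q'}`.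
-/

set_option autoImplicit false

open scoped NumberField Pointwise
open IsDedekindDomain

noncomputable section

namespace H63.MA

/-- the local discriminant exponent -/
def ldx (K L : Type) [Field K] [NumberField K] [Field L] [NumberField L] [Algebra K L]
    (v : Pl K) : ℕ :=
  ∑ᶠ P : v.asIdeal.primesOver (𝓞 L), P.1.inertiaDeg (𝓞 K) * H38.ML.dexp K L P.1

theorem CDa_sum (K L : Type) [Field K] [NumberField K] [Field L] [NumberField L] [Algebra K L]
    (v : Pl K) : ∃ S : Finset (Ideal (𝓞 L)),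
      (∀ P, P ∈ S ↔ P.IsPrime ∧ P.under (𝓞 K) = v.asIdeal) ∧
      ldx K L v = ∑ P ∈ S, P.inertiaDeg (𝓞 K) * H38.ML.dexp K L P := by
  classical
  have : v.asIdeal.IsMaximal := v.isMaximal
  have : Fintype (v.asIdeal.primesOver (𝓞 L)) :=
    Set.Finite.fintype (IsDedekindDomain.primesOver_finite v.asIdeal (𝓞 L))
  refine ⟨(v.asIdeal.primesOver (𝓞 L)).toFinset, ?_, ?_⟩
  · intro P
    rw [Set.mem_toFinset]
    constructor
    · rintro ⟨h1, h2⟩
      exact ⟨h1, h2.over.symm⟩
    · rintro ⟨h1, h2⟩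
      exact ⟨h1, ⟨h2.symm⟩⟩
  · unfold ldx
    rw [finsum_eq_sum_of_fintype]
    exact Finset.sum_set_coe (v.asIdeal.primesOver (𝓞 L))
      (f := fun P => P.inertiaDeg (𝓞 K) * H38.ML.dexp K L P)

theorem CDa_inj {K : Type} [Field K] [NumberField K] : Function.Injective
    (fun v : Pl K => v.asIdeal) := fun _ _ h => HeightOneSpectrum.ext h

theorem ldx_prod (K L : Type) [Field K] [NumberField K] [Field L] [NumberField L]
    [Algebra K L] : {v : Pl K | ldx K L v ≠ 0}.Finite ∧ ∀ V : Finset (Pl K),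
      (∀ v, ldx K L v ≠ 0 → v ∈ V) →
      Ideal.absNorm (differentIdeal (𝓞 K) (𝓞 L)) = ∏ v ∈ V, nm v ^ ldx K L v := by
  classical
  have hne := H38.ML.different_ne K L
  obtain ⟨F, hF⟩ : ∃ F, F = (UniqueFactorizationMonoid.normalizedFactors
    (differentIdeal (𝓞 K) (𝓞 L))).toFinset := ⟨_, rfl⟩
  have hFp : ∀ P ∈ F, P.IsPrime ∧ P ≠ ⊥ := by
    intro P hP
    rw [hF, Multiset.mem_toFinset] at hP
    have h1 := UniqueFactorizationMonoid.prime_of_normalized_factor P hP
    exact ⟨Ideal.isPrime_of_prime h1, h1.ne_zero⟩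
  have hFd : ∀ P, P ∈ F ↔ H38.ML.dexp K L P ≠ 0 := by
    intro P
    rw [hF, Multiset.mem_toFinset]
    unfold H38.ML.dexp
    rw [Ne, Multiset.count_eq_zero, not_not]
  have h1 : Ideal.absNorm (differentIdeal (𝓞 K) (𝓞 L)) =
      ∏ P ∈ F, Ideal.absNorm P ^ H38.ML.dexp K L P := by
    have h2 : (UniqueFactorizationMonoid.normalizedFactors
        (differentIdeal (𝓞 K) (𝓞 L))).prod = differentIdeal (𝓞 K) (𝓞 L) :=
      associated_iff_eq.mp (UniqueFactorizationMonoid.prod_normalizedFactors hne)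
    conv_lhs => rw [← h2]
    rw [map_multiset_prod, Finset.prod_multiset_map_count, ← hF]
    refine Finset.prod_congr rfl fun P _ => ?_
    unfold H38.ML.dexp
    congr
  have hlv : ∀ v : Pl K, ldx K L v =
      ∑ P ∈ F with P.under (𝓞 K) = v.asIdeal, P.inertiaDeg (𝓞 K) * H38.ML.dexp K L P := by
    intro v
    obtain ⟨S, hS, hl⟩ := CDa_sum K L v
    rw [hl]
    symm
    refine Finset.sum_subset ?_ ?_
    · intro P hP
      obtain ⟨h2, h3⟩ := Finset.mem_filter.mp hP
      exact (hS P).mpr ⟨(hFp P h2).1, h3⟩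
    · intro P hP hP2
      have h2 := (hS P).mp hP
      have h3 : P ∉ F := fun h => hP2 (Finset.mem_filter.mpr ⟨h, h2.2⟩)
      rw [hFd, not_not] at h3
      rw [h3, mul_zero]
  have hex : ∀ v : Pl K, ldx K L v ≠ 0 → ∃ P ∈ F, P.under (𝓞 K) = v.asIdeal := by
    intro v hv
    rw [hlv v] at hv
    obtain ⟨P, hP, -⟩ := Finset.exists_ne_zero_of_sum_ne_zero hv
    exact ⟨P, (Finset.mem_filter.mp hP).1, (Finset.mem_filter.mp hP).2⟩
  refine ⟨?_, ?_⟩
  · refine Set.Finite.of_finite_image (f := fun v : Pl K => v.asIdeal) ?_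
      (CDa_inj.injOn)
    refine (F.image (fun P => P.under (𝓞 K))).finite_toSet.subset ?_
    rintro _ ⟨v, hv, rfl⟩
    obtain ⟨P, hP, hPv⟩ := hex v hv
    rw [Finset.mem_coe, Finset.mem_image]
    exact ⟨P, hP, hPv⟩
  · intro V hV
    have hmap : ∀ P ∈ F, P.under (𝓞 K) ∈ V.image (fun v : Pl K => v.asIdeal) := by
      intro P hP
      obtain ⟨h2, h3⟩ := hFp P hP
      have := h2
      let v : Pl K := ⟨P.under (𝓞 K), Ideal.IsPrime.under (𝓞 K) P, H38.ML.under_ne K L P h3⟩
      rw [Finset.mem_image]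
      refine ⟨v, hV v ?_, rfl⟩
      rw [hlv v]
      have hpos : 0 < ∑ P ∈ F with P.under (𝓞 K) = v.asIdeal,
          P.inertiaDeg (𝓞 K) * H38.ML.dexp K L P :=
        Finset.sum_pos' (fun _ _ => Nat.zero_le _) ⟨P, Finset.mem_filter.mpr ⟨hP, rfl⟩,
          Nat.mul_pos (Ideal.inertiaDeg_pos P (𝓞 K)) (Nat.pos_of_ne_zero ((hFd P).mp hP))⟩
      exact hpos.ne'
    rw [h1, ← Finset.prod_fiberwise_of_maps_to (s := F)
      (t := V.image (fun v : Pl K => v.asIdeal)) (g := fun P => P.under (𝓞 K)) hmap,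
      Finset.prod_image CDa_inj.injOn]
    refine Finset.prod_congr rfl fun v _ => ?_
    rw [hlv v, ← Finset.prod_pow_eq_pow_sum]
    refine Finset.prod_congr rfl fun P hP => ?_
    obtain ⟨hPF, hPv⟩ := Finset.mem_filter.mp hP
    have := (hFp P hPF).1
    have : P.LiesOver v.asIdeal := ⟨hPv.symm⟩
    rw [pow_mul]
    unfold nm
    rw [Ideal.absNorm_pow_inertiaDeg v.asIdeal P]

/-- the multiplicity in the different as a multiplicity -/
theorem CDa_emult (K L : Type) [Field K] [NumberField K] [Field L] [NumberField L] [Algebra K L]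
    (P : Ideal (𝓞 L)) (hP : P.IsPrime) (hP0 : P ≠ ⊥) :
    emultiplicity P (differentIdeal (𝓞 K) (𝓞 L)) = H38.ML.dexp K L P := by
  classical
  rw [UniqueFactorizationMonoid.emultiplicity_eq_count_normalizedFactors
    (Ideal.prime_of_isPrime hP0 hP).irreducible (H38.ML.different_ne K L), normalize_eq]
  unfold H38.ML.dexp
  congr

theorem CDa_tower (K L M : Type) [Field K] [NumberField K] [Field L] [NumberField L] [Field M]
    [NumberField M] [Algebra K L] [Algebra L M] [Algebra K M] [IsScalarTower K L M] (v : Pl K)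
    (h : ∀ Q : Ideal (𝓞 M), Q.IsPrime → Q.under (𝓞 K) = v.asIdeal →
      ¬ Q ∣ differentIdeal (𝓞 L) (𝓞 M)) :
    ldx K M v = Module.finrank L M * ldx K L v := by
  classical
  have : IsScalarTower (𝓞 K) (𝓞 L) (𝓞 M) := inferInstance
  have hv0 : v.asIdeal ≠ ⊥ := v.ne_bot
  obtain ⟨SM, hSM, hM⟩ := CDa_sum K M v
  obtain ⟨SL, hSL, hL⟩ := CDa_sum K L v
  have hne : ∀ (F : Type) [Field F] [NumberField F] [Algebra K F] (Q : Ideal (𝓞 F)),
      Q.under (𝓞 K) = v.asIdeal → Q ≠ ⊥ := by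
    intro F _ _ _ Q hQ h0
    apply hv0
    rw [← hQ, h0]
    exact Ideal.under_bot _ _
  have hun : ∀ Q : Ideal (𝓞 M), (Q.under (𝓞 L)).under (𝓞 K) = Q.under (𝓞 K) := fun Q =>
    Ideal.under_under Q
  have hloc : ∀ Q ∈ SM, H38.ML.dexp K M Q = H38.ML.dexp K L (Q.under (𝓞 L)) ∧
      Q.ramificationIdx (𝓞 L) = 1 := by
    intro Q hQ
    obtain ⟨hQp, hQv⟩ := (hSM Q).mp hQ
    have hQ0 := hne M Q hQv
    have hPp : (Q.under (𝓞 L)).IsPrime := Ideal.IsPrime.under (𝓞 L) Q
    have hP0 : Q.under (𝓞 L) ≠ ⊥ := hne L _ (by rw [hun, hQv])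
    have hnd := h Q hQp hQv
    have hram : Q.ramificationIdx (𝓞 L) = 1 := by
      have : Algebra.IsUnramifiedAt (𝓞 L) Q := not_dvd_differentIdeal_iff.mp hnd
      exact Ideal.ramificationIdx_eq_one Q (𝓞 L)
    refine ⟨?_, hram⟩
    have e1 := differentIdeal_eq_differentIdeal_mul_differentIdeal (𝓞 K) (𝓞 L) (𝓞 M)
    have e2 := CDa_emult K M Q hQp hQ0
    have hQi := (Ideal.prime_of_isPrime hQ0 hQp)
    have hPi := (Ideal.prime_of_isPrime hP0 hPp)
    have : Q.LiesOver (Q.under (𝓞 L)) := ⟨rfl⟩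
    rw [e1, emultiplicity_mul hQi, emultiplicity_eq_zero.mpr hnd, zero_add,
      Ideal.IsDedekindDomain.emultiplicity_map_eq_ramificationIdx'_mul (H38.ML.different_ne K L)
        hPi.irreducible hQi.irreducible hQ0, CDa_emult K L _ hPp hP0,
      Ideal.ramificationIdx'_eq_ramificationIdx _ _ hP0, hram] at e2
    simpa using e2.symm
  rw [hM, hL, Finset.mul_sum]
  have hmap : ∀ Q ∈ SM, Q.under (𝓞 L) ∈ SL := by
    intro Q hQ
    obtain ⟨hQp, hQv⟩ := (hSM Q).mp hQ
    rw [hSL]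
    exact ⟨Ideal.IsPrime.under (𝓞 L) Q, by rw [hun, hQv]⟩
  rw [← Finset.sum_fiberwise_of_maps_to hmap]
  refine Finset.sum_congr rfl fun P hP => ?_
  obtain ⟨hPp, hPv⟩ := (hSL P).mp hP
  have hP0 := hne L P hPv
  have : P.IsMaximal := hPp.isMaximal hP0
  have : Fintype (P.primesOver (𝓞 M)) :=
    Set.Finite.fintype (IsDedekindDomain.primesOver_finite P (𝓞 M))
  have e3 := Ideal.sum_ramification_inertia_eq_finrank (S := 𝓞 M) P
  have e4 : Module.finrank (𝓞 L) (𝓞 M) = Module.finrank L M :=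
    (IsFractionRing.finrank_eq (𝓞 L) L (𝓞 M) M).symm
  have e5 := Finset.sum_set_coe (P.primesOver (𝓞 M))
    (f := fun Q => Q.ramificationIdx (𝓞 L) * Q.inertiaDeg (𝓞 L))
  rw [e4] at e3
  have e6 : (P.primesOver (𝓞 M)).toFinset = SM.filter (fun Q => Q.under (𝓞 L) = P) := by
    ext Q
    rw [Set.mem_toFinset, Finset.mem_filter, hSM]
    constructor
    · rintro ⟨h1, h2⟩
      have h3 : Q.under (𝓞 L) = P := h2.over.symm
      exact ⟨⟨h1, by rw [← hun, h3, hPv]⟩, h3⟩
    · rintro ⟨⟨h1, -⟩, h2⟩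
      exact ⟨h1, ⟨h2.symm⟩⟩
  rw [e6] at e5
  rw [← e3, e5, Finset.sum_mul]
  refine Finset.sum_congr rfl fun Q hQ => ?_
  obtain ⟨hQS, hQP⟩ := Finset.mem_filter.mp hQ
  obtain ⟨e7, e8⟩ := hloc Q hQS
  have : Q.LiesOver P := ⟨hQP.symm⟩
  rw [e7, e8, hQP, Ideal.inertiaDeg_tower (R := 𝓞 K) P Q]
  ring

variable {K : Type} [Field K] [NumberField K] {Ω : Type} [Field Ω] [Algebra K Ω]
  [IsAlgClosure K Ω]

/-- an element of the inertia group at a finite level lifts -/
theorem CDa_lift (M : IntermediateField K Ω) [FiniteDimensional K M] [NumberField M]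
    (P : Ideal (𝓞 Ω)) (hP : P.IsPrime) (δ : Gal(M/K))
    (hδ : ∀ x : 𝓞 M, δ • x - x ∈ P.under (𝓞 M)) :
    ∃ τ ∈ P.inertia Gal(Ω/K), ∀ m : M, τ (m : Ω) = (δ m : Ω) := by
  obtain ⟨τ, hτ, h⟩ := H38.ML.exists_inertia M P hP M.val (M.val.comp (δ : M →ₐ[K] M)) (by
    intro x hx
    obtain ⟨x', hx'⟩ : ∃ x' : 𝓞 M, (x' : M) = x := ⟨⟨x, hx⟩, rfl⟩
    have h1 := hδ x'
    refine ⟨- algebraMap (𝓞 M) (𝓞 Ω) (δ • x' - x'), P.neg_mem h1, ?_⟩
    rw [map_sub, neg_sub, ← hx']
    rfl)
  exact ⟨τ, hτ, fun m => DFunLike.congr_fun h m⟩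

/-- the inertia groups over `L` are trivial -/
theorem CDa_inertia (L M : IntermediateField K Ω) (hLM : L ≤ M) [FiniteDimensional K L]
    [FiniteDimensional K M] [NumberField L] [NumberField M] [IsGalois K L] [IsGalois K M]
    (v : Pl K) (P : Ideal (𝓞 Ω)) (hP : P.IsPrime) (hPv : P.under (𝓞 K) = v.asIdeal)
    (h : ∀ σ ∈ P.inertia Gal(Ω/K), σ ∈ L.fixingSubgroup → σ ∈ M.fixingSubgroup)
    (Q : Ideal (𝓞 M)) (hQ : Q.IsPrime) (hQv : Q.under (𝓞 K) = v.asIdeal) (d : Gal(M/K))
    (hd : ∀ x : 𝓞 M, d • x - x ∈ Q) (hdL : ∀ m : M, (m : Ω) ∈ L → d m = m) : d = 1 := by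
  have := hP
  have := hQ
  have : (P.under (𝓞 M)).IsPrime := inferInstance
  have hPQ : (P.under (𝓞 M)).under (𝓞 K) = v.asIdeal := by rw [Ideal.under_under, hPv]
  have : (P.under (𝓞 M)).LiesOver v.asIdeal := ⟨hPQ.symm⟩
  have : Q.LiesOver v.asIdeal := ⟨hQv.symm⟩
  have := v.isPrime
  obtain ⟨g, hg⟩ := Ideal.exists_smul_eq_of_isGaloisGroup v.asIdeal (P.under (𝓞 M)) Q Gal(M/K)
  obtain ⟨τ, hτ, hτM⟩ := CDa_lift M P hP (g⁻¹ * d * g) (by
    intro x
    have h1 := hd (g • x)
    have h2 : (g⁻¹ * d * g) • x - x = g⁻¹ • (d • (g • x) - g • x) := by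
      rw [smul_sub, inv_smul_smul, mul_smul, mul_smul]
    rw [h2, ← Ideal.mem_pointwise_smul_iff_inv_smul_mem, hg]
    exact h1)
  have hfix : τ ∈ L.fixingSubgroup := by
    rw [IntermediateField.mem_fixingSubgroup_iff]
    intro x hx
    have h1 := hτM ⟨x, hLM hx⟩
    have h1' : τ x = (((g⁻¹ * d * g : Gal(M/K)) (⟨x, hLM hx⟩ : M) : M) : Ω) := h1
    have hmem : ((g (⟨x, hLM hx⟩ : M) : M) : Ω) ∈ L := by
      let f : L →ₐ[K] Ω := (M.val.comp (g : M →ₐ[K] M)).comp (IntermediateField.inclusion hLM)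
      have h2 : f.fieldRange = L := AlgHom.fieldRange_of_normal f
      have h3 : f ⟨x, hx⟩ ∈ f.fieldRange := ⟨⟨x, hx⟩, rfl⟩
      rw [h2] at h3
      exact h3
    have h4 := hdL _ hmem
    rw [h1']
    have h5 : (g⁻¹ * d * g : Gal(M/K)) (⟨x, hLM hx⟩ : M) = ⟨x, hLM hx⟩ := by
      rw [AlgEquiv.mul_apply, AlgEquiv.mul_apply, h4]
      exact AlgEquiv.symm_apply_apply g _
    rw [h5]
  have hfixM := h τ hτ hfix
  rw [IntermediateField.mem_fixingSubgroup_iff] at hfixM
  have h6 : g⁻¹ * d * g = 1 := by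
    apply AlgEquiv.ext
    intro m
    apply Subtype.ext
    rw [← hτM m]
    exact hfixM m m.2
  have h7 : d = g * (g⁻¹ * d * g) * g⁻¹ := by group
  rw [h7, h6]
  group

theorem CDa_up (L M : IntermediateField K Ω) (hLM : L ≤ M) [FiniteDimensional K L]
    [FiniteDimensional K M] [NumberField L] [NumberField M] [IsGalois K L] [IsGalois K M]
    (v : Pl K) (P : Ideal (𝓞 Ω)) (hP : P.IsPrime) (hPv : P.under (𝓞 K) = v.asIdeal)
    (h : ∀ σ ∈ P.inertia Gal(Ω/K), σ ∈ L.fixingSubgroup → σ ∈ M.fixingSubgroup) :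
    Module.finrank K L * ldx K M v = Module.finrank K M * ldx K L v := by
  let : Algebra L M := (IntermediateField.inclusion hLM).toRingHom.toAlgebra
  have : IsScalarTower K L M := IsScalarTower.of_algebraMap_eq (fun x => rfl)
  have : IsGalois L M := IsGalois.tower_top_of_isGalois K L M
  have : FiniteDimensional L M := FiniteDimensional.right K L M
  have hun : ∀ Q : Ideal (𝓞 M), (Q.under (𝓞 L)).under (𝓞 K) = Q.under (𝓞 K) := fun Q =>
    Ideal.under_under Q
  have key := CDa_tower K L M v (by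
    intro Q hQ hQv
    have hQ0 : Q ≠ ⊥ := by
      rintro rfl
      apply v.ne_bot
      rw [← hQv]
      exact Ideal.under_bot _ _
    have hin : Q.inertia Gal(M/L) = ⊥ := by
      rw [eq_bot_iff]
      intro δ hδ
      rw [Subgroup.mem_bot]
      have h1 := CDa_inertia L M hLM v P hP hPv h Q hQ hQv (AlgEquiv.restrictScalars K δ)
        (fun x => hδ x) (fun m hm => δ.commutes ⟨m, hm⟩)
      apply AlgEquiv.ext
      intro m
      exact DFunLike.congr_fun h1 m
    have hQp : (Q.under (𝓞 L)).IsPrime := Ideal.IsPrime.under (𝓞 L) Q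
    have hcard := Ideal.card_inertia_eq_ramificationIdxIn (G := Gal(M/L)) (Q.under (𝓞 L)) Q
    rw [hin, Subgroup.card_bot, Ideal.ramificationIdxIn_eq_ramificationIdx (Q.under (𝓞 L)) Q
      Gal(M/L)] at hcard
    rw [not_dvd_differentIdeal_iff]
    exact Ideal.ramificationIdx_eq_one_iff.mp hcard.symm)
  rw [key, ← mul_assoc, Module.finrank_mul_finrank]

theorem ldx_congr (L L' : IntermediateField K Ω) [FiniteDimensional K L]
    [FiniteDimensional K L'] [NumberField L] [NumberField L'] [IsGalois K L] [IsGalois K L']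
    (hdeg : Module.finrank K L = Module.finrank K L') (v : Pl K) (P : Ideal (𝓞 Ω))
    (hP : P.IsPrime) (hPv : P.under (𝓞 K) = v.asIdeal)
    (hI : ∀ σ ∈ P.inertia Gal(Ω/K), σ ∈ L.fixingSubgroup ↔ σ ∈ L'.fixingSubgroup) :
    ldx K L v = ldx K L' v := by
  have : FiniteDimensional K (L ⊔ L' : IntermediateField K Ω) := inferInstance
  have : NumberField (L ⊔ L' : IntermediateField K Ω) :=
    NumberField.of_module_finite K (L ⊔ L' : IntermediateField K Ω)
  have : IsGalois K (L ⊔ L' : IntermediateField K Ω) := {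
    to_normal := inferInstance
    to_isSeparable := inferInstance }
  have h1 := CDa_up L (L ⊔ L') le_sup_left v P hP hPv (by
    intro σ hσ hL
    rw [IntermediateField.fixingSubgroup_sup]
    exact ⟨hL, (hI σ hσ).mp hL⟩)
  have h2 := CDa_up L' (L ⊔ L') le_sup_right v P hP hPv (by
    intro σ hσ hL
    rw [IntermediateField.fixingSubgroup_sup]
    exact ⟨(hI σ hσ).mpr hL, hL⟩)
  rw [← hdeg, h1] at h2
  exact Nat.eq_of_mul_eq_mul_left Module.finrank_pos h2

end H63.MA
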