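import Pool.Agent.H63.MC.CXa
import Pool.Agent.H63.MA.GUpC
import Pool.Agent.H63.MA.GSep

/-!
# MC-CCA: the number of surjective homomorphisms of given local type

`SX D L Q φ₁ X`: the surjective `φ : Γ → G` of finite type with the local type of `φ₁` at `S0` such that the product of the norms of the primes `v ∉ S0` with `φ (t v) ≠ 1` is at most `X`.
`cca`: its number is the sum over `ε` (values in `U`) and over the families `f` of the numbers of elements of `XF ε f` with the local type of `φ₁`.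
-/

set_option autoImplicit false

open scoped NumberField
open IsDedekindDomain
open scoped Classical

noncomputable section

namespace H63.MA

variable {K : Type} [Field K] [NumberField K] {Ω : Type} [Field Ω] [Algebra K Ω]
  [IsAlgClosure K Ω] {p m N : ℕ} {ζ : K}

/-- the surjective homomorphisms of the local type of `φ₁`, of bounded ramification -/
def SX (D : RD0 K p ζ) (L : LDs D Ω) (Q : DP K Ω) {G : Type} [Group G]
    (φ₁ : Gal(Ω/K) →* G) (X : ℝ) : Set (Gal(Ω/K) →* G) :=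
  {φ | H38.ML.FT φ ∧ Function.Surjective φ ∧ Teq D.S0 Q φ φ₁ ∧
    ∃ T : Finset (Pl K), (∀ v, v ∈ T ↔ v ∉ D.S0 ∧ φ (L.t v) ≠ 1) ∧ ∏ v ∈ T, (nm v : ℝ) ≤ X}

/-- the condition on the pairs -/
def ccaC (D : RD0 K p ζ) {G : Type} [Group G] (Dg : GD p m N G) (X : ℝ)
    (e : (Fin m → Kˣ) × (Fin N → Finset (Pl K))) : Prop :=
  Dj e.2 ∧ (∀ i, ∀ v ∈ e.2 i, v ∉ D.S0) ∧ ∏ i, nr (e.2 i) ≤ X ∧
    (∀ θ : Fin m → ZMod p, θ ≠ 0 → ¬ IsPow p (bp (ak D Dg.cd e.1 e.2) θ))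

/-- the homomorphisms with given data -/
def ccaA (D : RD0 K p ζ) (L : LDs D Ω) (Q : DP K Ω) {G : Type} [Group G] (Dg : GD p m N G)
    (φ₁ : Gal(Ω/K) →* G) (e : (Fin m → Kˣ) × (Fin N → Finset (Pl K))) : Set (Gal(Ω/K) →* G) :=
  {φ ∈ XF D L Dg e.1 e.2 | Teq D.S0 Q φ φ₁}

omit [IsAlgClosure K Ω] in
/-- the ramification set -/
theorem cca_T (D : RD0 K p ζ) (L : LDs D Ω) {G : Type} [Group G] (Dg : GD p m N G)
    (ε : Fin m → Kˣ) (f : Fin N → Finset (Pl K)) (hf : ∀ i, ∀ v ∈ f i, v ∉ D.S0)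
    (φ : Gal(Ω/K) →* G) (hφ : φ ∈ XF D L Dg ε f) (v : Pl K) :
    v ∈ Finset.univ.biUnion f ↔ v ∉ D.S0 ∧ φ (L.t v) ≠ 1 := by
  rw [Finset.mem_biUnion]
  constructor
  · rintro ⟨i, -, hi⟩
    have h0 := hf i v hi
    exact ⟨h0, gupc_conj_ne Dg ((hφ.2.2 i v h0).1 hi)⟩
  · rintro ⟨h0, h1⟩
    obtain ⟨i, hi⟩ := Dg.cls _ h1
    exact ⟨i, Finset.mem_univ _, (hφ.2.2 i v h0).2 hi⟩

/-- surjectivity -/
theorem cca_surj (hp : p.Prime) (hζ : IsPrimitiveRoot ζ p) (D : RD0 K p ζ) (L : LDs D Ω)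
    {G : Type} [Group G] (Dg : GD p m N G) (ε : Fin m → Kˣ)
    (f : Fin N → Finset (Pl K))
    (hi : ∀ θ : Fin m → ZMod p, θ ≠ 0 → ¬ IsPow p (bp (ak D Dg.cd ε f) θ))
    (φ : Gal(Ω/K) →* G) (hφ : φ ∈ XF D L Dg ε f) : Function.Surjective φ := by
  rw [← MonoidHom.range_eq_top]
  apply gen_top Dg
  intro y
  obtain ⟨σ, hσ⟩ := kk_surj (Ω := Ω) hp hζ (ak D Dg.cd ε f) (fun θ hθ => by
    have := hi θ hθ
    unfold bp at this
    exact this) (Multiplicative.toAdd y)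
  refine ⟨φ σ, ⟨σ, rfl⟩, ?_⟩
  apply Multiplicative.toAdd.injective
  funext k
  rw [hφ.2.1 σ k, hσ k]

theorem cca (hp : p.Prime) (hp2 : MOne p K) (hζ : IsPrimitiveRoot ζ p) (D : RD0 K p ζ)
    (L : LDs D Ω) (Q : DP K Ω) {G : Type} [Group G] [Finite G] (hG : Ep p G) (Dg : GD p m N G)
    (U : Finset Kˣ) (hU : ∀ x, TUnit D.S0 x → ∃ u ∈ U, ∃ y : Kˣ, x = u * y ^ p)
    (hU2 : ∀ u ∈ U, ∀ u' ∈ U, ∀ y : Kˣ, u = u' * y ^ p → u = u')
    (φ₁ : Gal(Ω/K) →* G) (X : ℝ) :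
    (SX D L Q φ₁ X).Finite ∧ ((SX D L Q φ₁ X).ncard : ℝ) =
      ∑ ε ∈ Fintype.piFinset (fun _ : Fin m => U),
        ∑ f ∈ Fintype.piFinset (fun _ : Fin N => AF K X),
          if Dj f ∧ (∀ i, ∀ v ∈ f i, v ∉ D.S0) ∧ ∏ i, nr (f i) ≤ X ∧
            (∀ θ : Fin m → ZMod p, θ ≠ 0 → ¬ IsPow p (bp (ak D Dg.cd ε f) θ)) then
            (({φ ∈ XF D L Dg ε f | Teq D.S0 Q φ φ₁}.ncard : ℕ) : ℝ) else 0 := by
  obtain ⟨y₀, h₀, -, -, hX⟩ := xf_card hp hp2 hζ D L Q hG Dg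
  set P1 : Finset (Fin m → Kˣ) := Fintype.piFinset (fun _ : Fin m => U) with hP1
  set P2 : Finset (Fin N → Finset (Pl K)) := Fintype.piFinset (fun _ : Fin N => AF K X) with hP2
  have hfin : ∀ e, ccaC D Dg X e → (ccaA D L Q Dg φ₁ e).Finite := by
    intro e he
    by_cases hne : (XF D L Dg e.1 e.2).Nonempty
    · exact (hX e.1 e.2 ⟨he.1, he.2.1⟩ hne).1.subset (Set.sep_subset _ _)
    · rw [Set.not_nonempty_iff_eq_empty] at hne
      unfold ccaA
      rw [hne]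
      simp
  have hcover : SX D L Q φ₁ X = ⋃ e ∈ (P1 ×ˢ P2).filter (ccaC D Dg X), ccaA D L Q Dg φ₁ e := by
    ext φ
    simp only [Set.mem_iUnion, exists_prop]
    constructor
    · rintro ⟨h1, h2, h3, T, hT, hTX⟩
      obtain ⟨e, he1, he2, he3, he4, he5, he6, -⟩ := gupc_ex hp hζ D L hG Dg U hU X φ h1 h2 (by
        intro T' hT'
        refine le_trans ?_ hTX
        have h1 : ∀ S : Finset (Pl K), (1 : ℝ) ≤ ∏ v ∈ S, (nm v : ℝ) := fun S => one_le_nr S
        rw [← Finset.prod_sdiff (fun v hv => (hT v).2 (hT' v hv) : T' ⊆ T)]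
        have h2 := h1 (T \ T')
        have h3 := h1 T'
        nlinarith)
      refine ⟨e, ?_, ?_⟩
      · rw [Finset.mem_filter, Finset.mem_product, hP1, hP2, Fintype.mem_piFinset,
          Fintype.mem_piFinset]
        exact ⟨⟨he1, fun i => gupc_AF _ he4 i⟩, he3, fun i v hv => ((he2 i v).1 hv).1, he4, he6⟩
      · refine ⟨⟨h1, he5, fun i v hv => ?_⟩, h3⟩
        rw [he2 i v]
        exact ⟨fun h => h.2, fun h => ⟨hv, h⟩⟩
    · rintro ⟨e, he, hφ, h3⟩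
      obtain ⟨-, a1, a2, a3, a4⟩ := Finset.mem_filter.1 he
      refine ⟨hφ.1, cca_surj hp hζ D L Dg e.1 e.2 a4 φ hφ, h3, Finset.univ.biUnion e.2,
        fun v => cca_T D L Dg e.1 e.2 a2 φ hφ v, ?_⟩
      have := atupb_nrU e.2 a1
      unfold nr at this
      rw [this]
      exact a3
  have hdisj : ∀ e ∈ (P1 ×ˢ P2).filter (ccaC D Dg X), ∀ e' ∈ (P1 ×ˢ P2).filter (ccaC D Dg X),
      ∀ φ, φ ∈ ccaA D L Q Dg φ₁ e → φ ∈ ccaA D L Q Dg φ₁ e' → e = e' := by
    rintro ⟨ε, f⟩ he ⟨ε', f'⟩ he' φ ⟨hφ, -⟩ ⟨hφ', -⟩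
    obtain ⟨b1, -, a2, -, -⟩ := Finset.mem_filter.1 he
    obtain ⟨b1', -, a2', -, -⟩ := Finset.mem_filter.1 he'
    rw [Finset.mem_product, hP1, hP2, Fintype.mem_piFinset, Fintype.mem_piFinset] at b1 b1'
    have hff : f = f' := by
      funext i
      ext v
      constructor
      · intro h
        have h0 := a2 i v h
        exact (hφ'.2.2 i v h0).2 ((hφ.2.2 i v h0).1 h)
      · intro h
        have h0 := a2' i v h
        exact (hφ.2.2 i v h0).2 ((hφ'.2.2 i v h0).1 h)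
    subst hff
    have hεε : ε = ε' := by
      funext k
      have h1 : ∀ σ : Gal(Ω/K), kk p ζ (ak D Dg.cd ε f k * (ak D Dg.cd ε' f k) ^ (-1 : ℤ)) σ =
          0 := by
        intro σ
        rw [kk_mul_arg hp hζ, kk_zpow_arg hp hζ, ← hφ.2.1 σ k, ← hφ'.2.1 σ k]
        push_cast
        ring
      obtain ⟨y, hy⟩ := (kk_eq_zero_iff hp hζ _).1 h1
      refine hU2 _ (b1.1 k) _ (b1'.1 k) y ?_
      rw [hy, zpow_neg_one]
      unfold ak
      rw [mul_inv]
      rw [mul_mul_mul_comm, mul_inv_cancel, mul_one, mul_comm (ε k), mul_inv_cancel_left]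
    rw [hεε]
  refine ⟨?_, ?_⟩
  · rw [hcover]
    exact Set.Finite.biUnion (Finset.finite_toSet _) fun e he =>
      hfin e (Finset.mem_filter.1 he).2
  · have hA : ∀ e, ∃ A : Finset (Gal(Ω/K) →* G), ccaC D Dg X e →
        (A : Set (Gal(Ω/K) →* G)) = ccaA D L Q Dg φ₁ e := by
      intro e
      by_cases he : ccaC D Dg X e
      · exact ⟨(hfin e he).toFinset, fun _ => (hfin e he).coe_toFinset⟩
      · exact ⟨∅, fun h => absurd h he⟩
    choose A hA using hA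
    have h1 : SX D L Q φ₁ X = (((P1 ×ˢ P2).filter (ccaC D Dg X)).biUnion A :
        Finset (Gal(Ω/K) →* G)) := by
      rw [hcover, Finset.coe_biUnion]
      refine Set.iUnion₂_congr fun e he => ?_
      exact (hA e (Finset.mem_filter.1 he).2).symm
    rw [h1, Set.ncard_coe_finset, Finset.card_biUnion]
    · rw [Finset.sum_filter, Finset.sum_product]
      push_cast
      refine Finset.sum_congr rfl fun ε _ => Finset.sum_congr rfl fun f _ => ?_
      by_cases he : ccaC D Dg X (ε, f)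
      · rw [if_pos he, ← Set.ncard_coe_finset, hA _ he]
        exact (if_pos he).symm
      · rw [if_neg he]
        exact (if_neg he).symm
    · intro e he e' he' hne
      refine Finset.disjoint_left.2 fun φ hφ hφ' => ?_
      apply hne
      refine hdisj e he e' he' φ ?_ ?_
      · rw [← hA e (Finset.mem_filter.1 he).2]
        exact hφ
      · rw [← hA e' (Finset.mem_filter.1 he').2]
        exact hφ'

end H63.MA
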