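import Pool.Agent.H63.MC.CLkC
import Pool.Agent.H63.MA.GUpB
import Pool.Agent.H63.MA.GLift

/-!
# MC-CLIFT: liftability depends only on the class, given the local conditions

`a = ak D cd ε f`, `b = ak D cd ε f₁`, `Ok D f`, `Ok D f₁`, `cQ f = cQ f₁`.
* `ak_ps`: `a k = b k * s k` with `PS (s k)`: `s k = ∏_i (∏_{w ∈ f i} pi w ^ (x i k).val) (∏_{w ∈ f₁ i} pi w ^ (x i k).val)⁻¹` is a product of the `pi w` (`w ∉ S0`) with total class `∑_i x i k (qf (f i) - qf (f₁ i)) = 0`; `prim_of`.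
* `xf_wt`: if `XF ε f` is nonempty then `wt cd f (LL v (a k)) = ∏_i (#class_i)^{#(f i)}`: the last part of the proof of `upb` in `MA/GUpB` (it does not use surjectivity): for `v ∈ f i` and `φ ∈ XF` `ld_frob` gives `F` with `φ F`, `φ (t v)` commuting and `kk (a k) F = LL v (a k)`, etc.
  `wt_or`: in any case `wt cd f F` is `0` or `∏_i (#class_i)^{#(f i)}` (`Dg.card`).
* `xf_lift`: if `XF ε f₁` is nonempty and `wt cd f (LL v (a k)) ≠ 0` then `XF ε f` is nonempty.
  Proof. Use the coordinates of `MA/GLift`/`GGrp` (`G ≅` pairs `(u, x)`, `u ∈ (ZMod p)^w`, `x ∈ (ZMod p)^m`, `(u, x)(u', x') = (u + u' + ∑ n c k l x k x' l, x + x')`): a homomorphism `φ` of finite type with `π (φ σ) = (kk (a k) σ)_k` exists iff for every `c : Fin w` the cochain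
  `∑_{k,l} n c k l cu (a k) (a l)` is trivial (`Tv`): see the proof of `glift`. Let `φ₁ ∈ XF ε f₁`; so `∑ n c k l cu (b k) (b l)` is trivial for all `c` (the first coordinate of `φ₁`). With `a k = b k s k` (bilinearity from `kk_mul_arg`):
  `∑ n c k l cu (a k) (a l) = ∑ n c k l cu (b k) (b l) + ∑ n c k l (cu (s k) (b l) + cu (b k) (s l) + cu (s k) (s l))`, and `cu (b k) (s l) + cu (s l) (b k)` is trivial (`tv_swap`). So it is enough that
  `∑_{k,l} n c k l (cu (s k) (b l) - cu (s l) (b k) + cu (s k) (s l))` is trivial. This is a sum of terms `cu (A j) (C j)` with `A j ∈ {s k, s k^{±1}…}`, `Prim (A j)` (absorb the coefficient `n c k l ∈ ZMod p` into `C j` as the exponent `(n c k l).val`); apply `locglob` with `T = ⋃ f i ∪ ⋃ f₁ i`: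
  for `v ∤ p`, `v ∈ S0`: `Spl p ζ v (s k)` gives `B v (s k) _ = 0`. For `v ∉ S0`, `v ∉ T`: all `a k, b k, s k` have order `0` at `v` up to ... (`ord v (ε k)`: assume `ε k` are `S0`-units), so all `B v = 0`. For `v ∈ T`: `∑_j B v (A j) (C j)` is the same expression for the bilinear alternating `B v` and equals
  `∑ n c k l B v (a k) (a l) - ∑ n c k l B v (b k) (b l)` (`B v` is bilinear and `B v x y = - B v y x`). The second sum is `0` by `tv_loc`. The first is `0`: if `v ∉ ⋃ f i` all `a k` have order `0` at `v`; if `v ∈ f i` the condition `wt ≠ 0` gives a commuting pair `g = g i`, `h` with `π g = (ord v (a k))_k`, `π h = (LL v (a k))_k` (step (3) of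
  `lowa` in `MA/GLowA`: `Dg.ann`), and the computation in `glift` (commuting elements, `∑ n c k l (y k x l - x k y l) = 0`, `b_eq`). So there is `φ₀` of finite type with `π (φ₀ σ) = (kk (a k) σ)_k`. Finally `twist` (with `s v = g i` for `v ∈ f i`, `s v = 1` otherwise; `π (φ₀ (t v)) = (ord v (a k))_k` by `ld_kk_t`) gives an element of `XF ε f`.
-/

set_option autoImplicit false

open scoped NumberField
open IsDedekindDomain

noncomputable section

namespace H63.MA

variable {K : Type} [Field K] [NumberField K] {Ω : Type} [Field Ω] [Algebra K Ω]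
  [IsAlgClosure K Ω] {p m N : ℕ} {ζ : K}

/-- the homomorphism `m ↦ ∏ pi v ^ m v` -/
def clift_P (D : RD0 K p ζ) : (Pl K →₀ ℤ) →+ Additive Kˣ :=
  Finsupp.liftAddHom fun v => zmultiplesHom (Additive Kˣ) (Additive.ofMul (D.pi v))

theorem clift_P_apply (D : RD0 K p ζ) (n : Pl K →₀ ℤ) :
    Additive.toMul (clift_P D n) = n.prod fun v k => D.pi v ^ k := by
  unfold clift_P
  rw [Finsupp.liftAddHom_apply]
  unfold Finsupp.sum Finsupp.prod
  rw [toMul_sum]
  refine Finset.prod_congr rfl fun v _ => ?_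
  change Additive.toMul ((zmultiplesHom (Additive Kˣ)) (Additive.ofMul (D.pi v)) (n v)) =
    D.pi v ^ n v
  rw [zmultiplesHom_apply, toMul_zsmul, toMul_ofMul]

/-- the homomorphism `m ↦ ∑ m v q v` -/
def clift_Q (D : RD0 K p ζ) : (Pl K →₀ ℤ) →+ (Fin D.r → ZMod p) :=
  Finsupp.liftAddHom fun v => (AddMonoidHom.mk' (fun n : ℤ => (n : ZMod p) • D.q v) (by
    intro a b
    rw [Int.cast_add, add_smul]))

theorem clift_Q_apply (D : RD0 K p ζ) (n : Pl K →₀ ℤ) :
    clift_Q D n = n.sum fun v k => (k : ZMod p) • D.q v := by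
  unfold clift_Q
  rw [Finsupp.liftAddHom_apply]
  rfl

/-- the divisor of the product of the generators -/
def clift_m (c : CD p m N) (f : Fin N → Finset (Pl K)) (k : Fin m) : Pl K →₀ ℤ :=
  ∑ i, ∑ w ∈ f i, Finsupp.single w ((c.x i k).val : ℤ)

theorem clift_m_zero (c : CD p m N) (f : Fin N → Finset (Pl K)) (k : Fin m) (v : Pl K)
    (hv : ∀ i, v ∉ f i) : clift_m c f k v = 0 := by
  classical
  unfold clift_m
  rw [Finsupp.finsetSum_apply]
  refine Finset.sum_eq_zero fun i _ => ?_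
  rw [Finsupp.finsetSum_apply]
  refine Finset.sum_eq_zero fun w hw => ?_
  rw [Finsupp.single_apply, if_neg]
  rintro rfl
  exact hv i hw

theorem clift_P_m (D : RD0 K p ζ) (c : CD p m N) (f : Fin N → Finset (Pl K)) (k : Fin m) :
    Additive.toMul (clift_P D (clift_m c f k)) = ∏ i, ∏ w ∈ f i, D.pi w ^ (c.x i k).val := by
  unfold clift_m
  rw [map_sum, toMul_sum]
  refine Finset.prod_congr rfl fun i _ => ?_
  rw [map_sum, toMul_sum]
  refine Finset.prod_congr rfl fun w _ => ?_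
  unfold clift_P
  rw [Finsupp.liftAddHom_apply_single, zmultiplesHom_apply, toMul_zsmul, toMul_ofMul, zpow_natCast]

theorem clift_Q_m (hp : p.Prime) (D : RD0 K p ζ) (c : CD p m N) (f : Fin N → Finset (Pl K))
    (k : Fin m) : clift_Q D (clift_m c f k) = cQ D c f k := by
  have : NeZero p := ⟨hp.ne_zero⟩
  funext j
  unfold clift_m cQ
  rw [map_sum, Finset.sum_apply]
  refine Finset.sum_congr rfl fun i _ => ?_
  rw [map_sum, Finset.sum_apply]
  unfold qf
  rw [Finset.sum_apply, Finset.mul_sum]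
  refine Finset.sum_congr rfl fun w _ => ?_
  unfold clift_Q
  rw [Finsupp.liftAddHom_apply_single]
  change ((((c.x i k).val : ℤ) : ZMod p) • D.q w) j = _
  rw [Pi.smul_apply, smul_eq_mul, Int.cast_natCast, ZMod.natCast_zmod_val]

theorem ak_ps (hp : p.Prime) (D : RD0 K p ζ) (c : CD p m N) (ε : Fin m → Kˣ)
    (f f₁ : Fin N → Finset (Pl K)) (hf : Ok D f) (hf₁ : Ok D f₁) (hq : cQ D c f = cQ D c f₁)
    (k : Fin m) : ∃ s : Kˣ, PS p ζ D.S0 s ∧ ak D c ε f k = ak D c ε f₁ k * s := by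
  refine ⟨Additive.toMul (clift_P D (clift_m c f k - clift_m c f₁ k)), ?_, ?_⟩
  · rw [clift_P_apply]
    refine D.prim_of _ ?_ ?_
    · intro v hv
      rw [Finsupp.sub_apply, clift_m_zero c f k v fun i hi => hf.2 i v hi hv,
        clift_m_zero c f₁ k v fun i hi => hf₁.2 i v hi hv, sub_zero]
    · rw [← clift_Q_apply, map_sub, clift_Q_m hp, clift_Q_m hp, hq, sub_self]
  · rw [map_sub, toMul_sub, clift_P_m, clift_P_m]
    unfold ak
    rw [mul_assoc, mul_div_cancel]

theorem wt_or (hp : p.Prime) {G : Type} [Group G] [Finite G] (Dg : GD p m N G)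
    (f : Fin N → Finset (Pl K)) (F : Pl K → Fin m → ZMod p) :
    wt Dg.cd f F = 0 ∨
      wt Dg.cd f F = ∏ i, (Nat.card {h : G // IsConj h (Dg.g i)} : ℝ) ^ (f i).card := by
  unfold wt
  by_cases h : ∀ i, ∀ v ∈ f i, ∀ θ ∈ Dg.cd.Θ i, dt θ (F v) = 0
  · right
    refine Finset.prod_congr rfl fun i _ => ?_
    rw [← Finset.prod_const]
    refine Finset.prod_congr rfl fun v hv => ?_
    rw [if_pos (h i v hv)]
    exact congrArg (Nat.cast) (Dg.card i)
  · left
    push Not at h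
    obtain ⟨i, v, hv, θ, hθ, hne⟩ := h
    refine Finset.prod_eq_zero (Finset.mem_univ i) (Finset.prod_eq_zero hv ?_)
    rw [if_neg]
    intro h1
    exact hne (h1 θ hθ)

theorem xf_wt (hp : p.Prime) (hζ : IsPrimitiveRoot ζ p) (D : RD0 K p ζ) (L : LDs D Ω)
    {G : Type} [Group G] [Finite G] (hG : Ep p G) (Dg : GD p m N G) (ε : Fin m → Kˣ)
    (f : Fin N → Finset (Pl K)) (hf : Ok D f) (hne : (XF D L Dg ε f).Nonempty) :
    wt Dg.cd f (fun v k => D.LL v (ak D Dg.cd ε f k)) =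
      ∏ i, (Nat.card {h : G // IsConj h (Dg.g i)} : ℝ) ^ (f i).card := by
  obtain ⟨φ, hφ, hkk, hram⟩ := hne
  have hab : ∀ v, v ∉ D.S0 → ¬ Above p v := fun v hv h => hv (D.above v h)
  unfold wt
  refine Finset.prod_congr rfl fun i _ => ?_
  rw [← Finset.prod_const]
  refine Finset.prod_congr rfl fun v hv => ?_
  have hvS : v ∉ D.S0 := hf.2 i v hv
  have hconj : IsConj (φ (L.t v)) (Dg.g i) := (hram i v hvS).1 hv
  rw [if_pos]
  · exact congrArg (Nat.cast) (Dg.card i)
  · intro θ hθ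
    obtain ⟨F, -, hFt, hFk⟩ := ld_frob hp hζ (hab v hvS) (D.pi_self v hvS) (L.ld v hvS) hG φ hφ
      (ak D Dg.cd ε f)
    rw [← gupb_t L hvS] at hFt
    obtain ⟨c, hc⟩ := isConj_iff.1 hconj
    have h1 : (c * φ F * c⁻¹) * Dg.g i = Dg.g i * (c * φ F * c⁻¹) := by
      rw [← hc]
      calc c * φ F * c⁻¹ * (c * φ (L.t v) * c⁻¹) = c * (φ F * φ (L.t v)) * c⁻¹ := by group
        _ = c * (φ (L.t v) * φ F) * c⁻¹ := by rw [hFt]
        _ = c * φ (L.t v) * c⁻¹ * (c * φ F * c⁻¹) := by group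
    have h2 := (Dg.mem i θ).1 hθ _ h1
    have h3 : Dg.π (c * φ F * c⁻¹) = Dg.π (φ F) := by
      rw [map_mul, map_mul, map_inv, mul_comm (Dg.π c), mul_inv_cancel_right]
    rw [h3] at h2
    unfold dt
    rw [← h2]
    refine Finset.sum_congr rfl fun k _ => ?_
    rw [hkk F k, hFk k]
    rfl

/-- the order of `ak` at a prime in no `f i` -/
theorem clift_ord0 (D : RD0 K p ζ) (c : CD p m N) (ε : Fin m → Kˣ)
    (hε : ∀ k, TUnit D.S0 (ε k)) (f : Fin N → Finset (Pl K)) (hf : Ok D f) (v : Pl K)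
    (hv : v ∉ D.S0) (hvf : ∀ i, v ∉ f i) (k : Fin m) : ord v (ak D c ε f k) = 0 := by
  unfold ak
  rw [ord_mul, hε k v hv, gupb_ord D f hf.2 _ v hv, zero_add]
  refine Finset.sum_eq_zero fun i _ => ?_
  rw [if_neg (hvf i)]

/-- the order of `ak` at a prime in `f i` -/
theorem clift_ord1 (hp : p.Prime) (D : RD0 K p ζ) (c : CD p m N) (ε : Fin m → Kˣ)
    (hε : ∀ k, TUnit D.S0 (ε k)) (f : Fin N → Finset (Pl K)) (hf : Ok D f) (v : Pl K)
    (i : Fin N) (hvf : v ∈ f i) (k : Fin m) : ((ord v (ak D c ε f k) : ℤ) : ZMod p) = c.x i k := by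
  have : NeZero p := ⟨hp.ne_zero⟩
  have hv : v ∉ D.S0 := hf.2 i v hvf
  unfold ak
  rw [ord_mul, hε k v hv, gupb_ord D f hf.2 _ v hv, zero_add, Finset.sum_eq_single i]
  · rw [if_pos hvf, Int.cast_natCast, ZMod.natCast_zmod_val]
  · intro i' _ hi'
    rw [if_neg]
    intro h
    exact Finset.disjoint_left.1 (hf.1 i' i hi') h hvf
  · intro h
    exact absurd (Finset.mem_univ i) h

/-- the homomorphism from trivial cochains -/
theorem clift_hom (hp : p.Prime) (hζ : IsPrimitiveRoot ζ p) {G : Type} [Group G]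
    (Dg : GD p m N G) (a : Fin m → Kˣ) {w : ℕ} (n : Fin w → Fin m → Fin m → ZMod p)
    (e : (Fin w → ZMod p) × (Fin m → ZMod p) → G)
    (hmul : ∀ u x u' x', e (u, x) * e (u', x') =
        e (u + u' + (fun c => ∑ k, ∑ l, n c k l * x k * x' l), x + x'))
    (hπ : ∀ u x, Multiplicative.toAdd (Dg.π (e (u, x))) = x)
    (htv : ∀ c : Fin w, Tv (fun σ τ : Gal(Ω/K) =>
      ∑ k, ∑ l, n c k l * kk p ζ (a k) σ * kk p ζ (a l) τ)) :
    ∃ φ : Gal(Ω/K) →* G, H38.ML.FT φ ∧
      ∀ σ k, Multiplicative.toAdd (Dg.π (φ σ)) k = kk p ζ (a k) σ := by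
  choose l hl hl2 using htv
  have hφ : ∀ σ τ : Gal(Ω/K), e ((fun c => l c (σ * τ)), fun k => kk p ζ (a k) (σ * τ)) =
      e ((fun c => l c σ), fun k => kk p ζ (a k) σ) *
        e ((fun c => l c τ), fun k => kk p ζ (a k) τ) := by
    intro σ τ
    rw [hmul]
    congr 1
    refine Prod.ext ?_ ?_
    · funext c
      exact hl2 c σ τ
    · funext k
      exact kk_mul (a k) σ τ
  refine ⟨MonoidHom.mk' (fun σ : Gal(Ω/K) => e ((fun c => l c σ), fun k => kk p ζ (a k) σ)) hφ,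
    ?_, ?_⟩
  · apply lev_ft
    exact glift_lev_comp2 _ _ e (glift_lev_pi l hl)
      (glift_lev_pi (fun k σ => kk p ζ (a k) σ) fun k => glift_lev_kk hp hζ (a k))
  · intro σ k
    exact congrFun (hπ (fun c => l c σ) (fun k => kk p ζ (a k) σ)) k

/-- the trivial cochains of a homomorphism -/
theorem clift_tv {G : Type} [Group G] (Dg : GD p m N G) (b : Fin m → Kˣ) {w : ℕ}
    (n : Fin w → Fin m → Fin m → ZMod p) (e : (Fin w → ZMod p) × (Fin m → ZMod p) → G)
    (hbij : Function.Bijective e)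
    (hmul : ∀ u x u' x', e (u, x) * e (u', x') =
        e (u + u' + (fun c => ∑ k, ∑ l, n c k l * x k * x' l), x + x'))
    (hπ : ∀ u x, Multiplicative.toAdd (Dg.π (e (u, x))) = x) (φ : Gal(Ω/K) →* G)
    (hφ : H38.ML.FT φ) (hkk : ∀ σ k, Multiplicative.toAdd (Dg.π (φ σ)) k = kk p ζ (b k) σ)
    (c : Fin w) : Tv (fun σ τ : Gal(Ω/K) =>
      ∑ k, ∑ l, n c k l * kk p ζ (b k) σ * kk p ζ (b l) τ) := by
  let E := Equiv.ofBijective e hbij
  have hE : ∀ g, e (E.symm g) = g := fun g => Equiv.ofBijective_apply_symm_apply e hbij g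
  have hE2 : ∀ σ, (E.symm (φ σ)).2 = fun k => kk p ζ (b k) σ := by
    intro σ
    have h1 := hπ (E.symm (φ σ)).1 (E.symm (φ σ)).2
    rw [Prod.mk.eta, hE] at h1
    rw [← h1]
    funext k
    exact hkk σ k
  refine ⟨fun σ => (E.symm (φ σ)).1 c, ?_, ?_⟩
  · obtain ⟨F, hF, hF2⟩ := ft_lev φ hφ
    refine ⟨F, hF, fun σ u hu => ?_⟩
    have h := hF2 σ u hu
    change (E.symm (φ (σ * u))).1 c = (E.symm (φ σ)).1 c
    rw [h]
  · intro σ τ
    have h1 : e (E.symm (φ (σ * τ))) = e ((E.symm (φ σ)).1 + (E.symm (φ τ)).1 +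
        (fun c => ∑ k, ∑ l, n c k l * (E.symm (φ σ)).2 k * (E.symm (φ τ)).2 l),
        (E.symm (φ σ)).2 + (E.symm (φ τ)).2) := by
      rw [← hmul, Prod.mk.eta, Prod.mk.eta, hE, hE, hE, map_mul]
    have h2 := hbij.1 h1
    have h3 := congrFun (congrArg Prod.fst h2) c
    change (E.symm (φ (σ * τ))).1 c = (E.symm (φ σ)).1 c + (E.symm (φ τ)).1 c + _
    rw [h3, hE2, hE2]
    rfl

/-- the bilinear identity -/
theorem clift_bil {R : Type} [CommRing R] (n : Fin m → Fin m → R) (β : Fin m → Fin m → R)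
    (γ δ : Fin m → Fin m → R) :
    ∑ k, ∑ l, ((n k l - n l k) * β k l + n k l * γ k l) =
      ∑ k, ∑ l, n k l * (β k l - β l k + γ k l + δ k l) - ∑ k, ∑ l, n k l * δ k l := by
  have h1 : ∑ k, ∑ l, n l k * β k l = ∑ k, ∑ l, n k l * β l k := by
    rw [Finset.sum_comm]
  rw [← Finset.sum_sub_distrib]
  have h2 : ∑ k, ∑ l, ((n k l - n l k) * β k l + n k l * γ k l) =
      ∑ k, ∑ l, n k l * β k l - ∑ k, ∑ l, n l k * β k l + ∑ k, ∑ l, n k l * γ k l := by
    rw [← Finset.sum_sub_distrib, ← Finset.sum_add_distrib]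
    refine Finset.sum_congr rfl fun k _ => ?_
    rw [← Finset.sum_sub_distrib, ← Finset.sum_add_distrib]
    refine Finset.sum_congr rfl fun l _ => ?_
    ring
  rw [h2, h1, ← Finset.sum_sub_distrib, ← Finset.sum_add_distrib]
  refine Finset.sum_congr rfl fun k _ => ?_
  rw [← Finset.sum_sub_distrib, ← Finset.sum_sub_distrib, ← Finset.sum_add_distrib]
  refine Finset.sum_congr rfl fun l _ => ?_
  ring

/-- the local condition for the `a k` -/
theorem clift_loc (hp : p.Prime) (hζ : IsPrimitiveRoot ζ p) (D : RD0 K p ζ)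
    {G : Type} [Group G] (Dg : GD p m N G)
    (ε : Fin m → Kˣ) (hε : ∀ k, TUnit D.S0 (ε k)) (f : Fin N → Finset (Pl K)) (hf : Ok D f)
    (hw : ∀ i, ∀ v ∈ f i, ∀ θ ∈ Dg.Θ i, dt θ (fun k => D.LL v (ak D Dg.cd ε f k)) = 0)
    {w : ℕ} (n : Fin w → Fin m → Fin m → ZMod p)
    (e : (Fin w → ZMod p) × (Fin m → ZMod p) → G) (hbij : Function.Bijective e)
    (hmul : ∀ u x u' x', e (u, x) * e (u', x') =
        e (u + u' + (fun c => ∑ k, ∑ l, n c k l * x k * x' l), x + x'))
    (hπ : ∀ u x, Multiplicative.toAdd (Dg.π (e (u, x))) = x) (v : Pl K) (hv : v ∉ D.S0)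
    (c : Fin w) :
    ∑ k, ∑ l, n c k l * B p ζ v (ak D Dg.cd ε f k) (ak D Dg.cd ε f l) = 0 := by
  have hva : ¬ Above p v := fun h => hv (D.above v h)
  by_cases hvf : ∃ i, v ∈ f i
  · obtain ⟨i, hi⟩ := hvf
    obtain ⟨h, hh⟩ := Dg.sur (Multiplicative.ofAdd fun k => D.LL v (ak D Dg.cd ε f k))
    have hcomm : h * Dg.g i = Dg.g i * h := by
      apply Dg.ann i h
      intro θ hθ
      rw [hh]
      exact hw i v hi θ hθ
    obtain ⟨⟨u, x⟩, hx⟩ := hbij.2 (Dg.g i)
    obtain ⟨⟨u', y⟩, hy⟩ := hbij.2 h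
    have h5 := glift_loc n e hbij hmul u x u' y (by rw [hx, hy]; exact hcomm.symm) c
    rw [← h5]
    refine Finset.sum_congr rfl fun k _ => Finset.sum_congr rfl fun l _ => ?_
    have hxk : ∀ k, ((ord v (ak D Dg.cd ε f k) : ℤ) : ZMod p) = x k := by
      intro k
      rw [clift_ord1 hp D Dg.cd ε hε f hf v i hi k]
      change Multiplicative.toAdd (Dg.π (Dg.g i)) k = x k
      rw [← hx, hπ]
    have hyk : ∀ k, lgv p ζ v (D.pi v) (ak D Dg.cd ε f k) = y k := by
      intro k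
      have h6 := hπ u' y
      rw [hy, hh] at h6
      exact congrFun h6 k
    rw [b_eq hp hζ hva (D.pi_self v hv), hxk, hxk, hyk, hyk]
  · push Not at hvf
    refine Finset.sum_eq_zero fun k _ => Finset.sum_eq_zero fun l _ => ?_
    rw [B_unit hp hζ hva (clift_ord0 D Dg.cd ε hε f hf v hv hvf k),
      clift_ord0 D Dg.cd ε hε f hf v hv hvf l, Int.cast_zero, zero_mul, mul_zero]

theorem xf_lift (hp : p.Prime) (hp2 : MOne p K) (hζ : IsPrimitiveRoot ζ p) (D : RD0 K p ζ)
    (L : LDs D Ω) {G : Type} [Group G] [Finite G] (hG : Ep p G) (Dg : GD p m N G)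
    (ε : Fin m → Kˣ) (hε : ∀ k, TUnit D.S0 (ε k)) (f f₁ : Fin N → Finset (Pl K)) (hf : Ok D f)
    (hf₁ : Ok D f₁) (hq : cQ D Dg.cd f = cQ D Dg.cd f₁) (hne : (XF D L Dg ε f₁).Nonempty)
    (hw : wt Dg.cd f (fun v k => D.LL v (ak D Dg.cd ε f k)) ≠ 0) :
    (XF D L Dg ε f).Nonempty := by
  classical
  have hne0 : NeZero p := ⟨hp.ne_zero⟩
  obtain ⟨w, n, e, hbij, hmul, hπ⟩ := ggrp hp hG Dg
  obtain ⟨φ₁, hφ₁, hkk₁, -⟩ := hne
  have hcast : ∀ x : ZMod p, (((x.val : ℕ) : ℤ) : ZMod p) = x := by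
    intro x
    rw [Int.cast_natCast, ZMod.natCast_zmod_val]
  -- the weight condition
  have hw' : ∀ i, ∀ v ∈ f i, ∀ θ ∈ Dg.Θ i, dt θ (fun k => D.LL v (ak D Dg.cd ε f k)) = 0 := by
    intro i v hv
    by_contra hcon
    apply hw
    unfold wt
    refine Finset.prod_eq_zero (Finset.mem_univ i) (Finset.prod_eq_zero hv ?_)
    rw [if_neg]
    exact hcon
  choose s hs hab using fun k => ak_ps hp D Dg.cd ε f f₁ hf hf₁ hq k
  set a : Fin m → Kˣ := fun k => ak D Dg.cd ε f k with ha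
  set b : Fin m → Kˣ := fun k => ak D Dg.cd ε f₁ k with hb
  have hab' : ∀ k, a k = b k * s k := hab
  have htvb := clift_tv (Ω := Ω) Dg b n e hbij hmul hπ φ₁ hφ₁ hkk₁
  -- orders
  have hbT : ∀ v, v ∉ D.S0 → (∀ i, v ∉ f₁ i) → ∀ k, ord v (b k) = 0 := fun v hv h k =>
    clift_ord0 D Dg.cd ε hε f₁ hf₁ v hv h k
  have haT : ∀ v, v ∉ D.S0 → (∀ i, v ∉ f i) → ∀ k, ord v (a k) = 0 := fun v hv h k =>
    clift_ord0 D Dg.cd ε hε f hf v hv h k
  -- the local conditions for `b`
  have hlocb : ∀ v : Pl K, ¬ Above p v → ∀ c, ∑ k, ∑ l, n c k l * B p ζ v (b k) (b l) = 0 := by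
    intro v hv c
    have h1 := tv_loc Ω hp hp2 hζ (ι := Fin m × Fin m)
      (fun j => b j.1 ^ (((n c j.1 j.2).val : ℕ) : ℤ)) (fun j => b j.2) (by
        have h2 : (fun σ τ : Gal(Ω/K) => ∑ j : Fin m × Fin m,
            cu p ζ (b j.1 ^ (((n c j.1 j.2).val : ℕ) : ℤ)) (b j.2) σ τ) =
            fun σ τ : Gal(Ω/K) => ∑ k, ∑ l, n c k l * kk p ζ (b k) σ * kk p ζ (b l) τ := by
          funext σ τ
          rw [Fintype.sum_prod_type]
          refine Finset.sum_congr rfl fun k _ => Finset.sum_congr rfl fun l _ => ?_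
          unfold cu
          rw [kk_zpow_arg hp hζ, hcast]
        rw [h2]
        exact htvb c) v hv
    rw [Fintype.sum_prod_type] at h1
    rw [← h1]
    refine Finset.sum_congr rfl fun k _ => Finset.sum_congr rfl fun l _ => ?_
    rw [B_zpow_left hp hζ hv, hcast]
  -- the cochains for `a`
  have htva : ∀ c : Fin w, Tv (fun σ τ : Gal(Ω/K) =>
      ∑ k, ∑ l, n c k l * kk p ζ (a k) σ * kk p ζ (a l) τ) := by
    intro c
    have hB : ∀ v : Pl K, ¬ Above p v → ∀ j : Fin m × Fin m,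
        B p ζ v (s j.1) (b j.2 ^ ((((n c j.1 j.2 - n c j.2 j.1).val : ℕ)) : ℤ) *
          s j.2 ^ (((n c j.1 j.2).val : ℕ) : ℤ)) =
        (n c j.1 j.2 - n c j.2 j.1) * B p ζ v (s j.1) (b j.2) +
          n c j.1 j.2 * B p ζ v (s j.1) (s j.2) := by
      intro v hv j
      rw [B_mul_right hp hζ hv, B_zpow_right hp hζ hv, B_zpow_right hp hζ hv, hcast, hcast]
    have h3 := locglob (K := K) (p := p) (ζ := ζ) Ω hp hp2 hζ (ι := Fin m × Fin m)
      (fun j => s j.1) (fun j => b j.2 ^ ((((n c j.1 j.2 - n c j.2 j.1).val : ℕ)) : ℤ) *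
          s j.2 ^ (((n c j.1 j.2).val : ℕ) : ℤ))
      (fun j => (hs j.1).1)
      ((Finset.univ.biUnion fun i => f i) ∪ (Finset.univ.biUnion fun i => f₁ i)) ?_ ?_
    · -- assemble
      have h4 : Tv (fun σ τ : Gal(Ω/K) => ∑ k, ∑ l, n c k l *
          (cu p ζ (b k) (s l) σ τ + cu p ζ (s l) (b k) σ τ)) := by
        refine tv_sum _ _ fun k _ => tv_sum _ _ fun l _ => tv_smul _ _ (tv_swap hp hζ (b k) (s l))
      have h5 := tv_add _ _ (tv_add _ _ (htvb c) h4) h3
      refine (congrArg Tv ?_).mp h5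
      funext σ τ
      rw [Fintype.sum_prod_type]
      have h6 : ∀ k l, cu p ζ (s k) (b l ^ ((((n c k l - n c l k).val : ℕ)) : ℤ) *
          s l ^ (((n c k l).val : ℕ) : ℤ)) σ τ =
          (n c k l - n c l k) * (kk p ζ (s k) σ * kk p ζ (b l) τ) +
            n c k l * (kk p ζ (s k) σ * kk p ζ (s l) τ) := by
        intro k l
        unfold cu
        rw [kk_mul_arg hp hζ, kk_zpow_arg hp hζ, kk_zpow_arg hp hζ, hcast, hcast]
        ring
      have h7 := clift_bil (n c) (fun k l => kk p ζ (s k) σ * kk p ζ (b l) τ)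
        (fun k l => kk p ζ (s k) σ * kk p ζ (s l) τ) (fun _ _ => 0)
      have h8 : ∑ k, ∑ l, cu p ζ (s k) (b l ^ ((((n c k l - n c l k).val : ℕ)) : ℤ) *
          s l ^ (((n c k l).val : ℕ) : ℤ)) σ τ =
          ∑ k, ∑ l, n c k l * (kk p ζ (s k) σ * kk p ζ (b l) τ - kk p ζ (s l) σ * kk p ζ (b k) τ +
            kk p ζ (s k) σ * kk p ζ (s l) τ) := by
        rw [Finset.sum_congr rfl fun k _ => Finset.sum_congr rfl fun l _ => h6 k l, h7]
        simp
      rw [h8, ← Finset.sum_add_distrib, ← Finset.sum_add_distrib]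
      refine Finset.sum_congr rfl fun k _ => ?_
      rw [← Finset.sum_add_distrib, ← Finset.sum_add_distrib]
      refine Finset.sum_congr rfl fun l _ => ?_
      unfold cu
      rw [hab' k, hab' l, kk_mul_arg hp hζ, kk_mul_arg hp hζ]
      ring
    · -- the local sums
      intro v hv
      by_cases hvS : v ∈ D.S0
      · refine Finset.sum_eq_zero fun j _ => ?_
        rw [hB v hv j, (hs j.1).2 v hvS hv, (hs j.1).2 v hvS hv, mul_zero, mul_zero, add_zero]
      · rw [Finset.sum_congr rfl fun j _ => hB v hv j, Fintype.sum_prod_type]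
        have h1 := clift_bil (n c) (fun k l => B p ζ v (s k) (b l))
          (fun k l => B p ζ v (s k) (s l)) (fun k l => B p ζ v (b k) (b l))
        refine h1.trans ?_
        rw [hlocb v hv c, sub_zero,
          ← clift_loc hp hζ D Dg ε hε f hf hw' n e hbij hmul hπ v hvS c]
        refine Finset.sum_congr rfl fun k _ => Finset.sum_congr rfl fun l _ => ?_
        change _ = n c k l * B p ζ v (a k) (a l)
        rw [hab' k, hab' l, B_mul_left hp hζ hv, B_mul_right hp hζ hv, B_mul_right hp hζ hv,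
          B_symm hp hζ hv (b k) (s l)]
        ring
    · -- outside
      intro v hv hvT j
      rw [Finset.mem_union, Finset.mem_biUnion, Finset.mem_biUnion] at hvT
      push Not at hvT
      rw [hB v hv j]
      by_cases hvS : v ∈ D.S0
      · rw [(hs j.1).2 v hvS hv, (hs j.1).2 v hvS hv, mul_zero, mul_zero, add_zero]
      · have hf0 : ∀ i, v ∉ f i := fun i => hvT.1 i (Finset.mem_univ i)
        have hf10 : ∀ i, v ∉ f₁ i := fun i => hvT.2 i (Finset.mem_univ i)
        have hs0 : ∀ k, ord v (s k) = 0 := by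
          intro k
          have h1 := haT v hvS hf0 k
          rw [hab' k, ord_mul, hbT v hvS hf10 k, zero_add] at h1
          exact h1
        rw [B_unit hp hζ hv (hs0 j.1), B_unit hp hζ hv (hs0 j.1), hs0 j.2, hbT v hvS hf10 j.2,
          Int.cast_zero, zero_mul, mul_zero, mul_zero, add_zero]
  obtain ⟨φ₀, hφ₀, hkk₀⟩ := clift_hom hp hζ Dg a n e hmul hπ htva
  -- twisting
  let sv : Pl K → G := fun v => if h : ∃ i, v ∈ f i then Dg.g h.choose else 1
  have hsv1 : ∀ i v, v ∈ f i → sv v = Dg.g i := by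
    intro i v hi
    have h : ∃ i, v ∈ f i := ⟨i, hi⟩
    have h1 : sv v = Dg.g h.choose := by
      simp only [sv]
      rw [dif_pos h]
    rw [h1]
    by_contra hne
    have h2 : h.choose ≠ i := by
      intro h3
      exact hne (by rw [h3])
    exact Finset.disjoint_left.1 (hf.1 _ _ h2) h.choose_spec hi
  have hsv0 : ∀ v, (∀ i, v ∉ f i) → sv v = 1 := by
    intro v hv
    simp only [sv]
    rw [dif_neg]
    rintro ⟨i, hi⟩
    exact hv i hi
  obtain ⟨φ, h1, h2, h3⟩ := twist hp hζ D L hG Dg φ₀ hφ₀ sv (by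
    intro v hv
    have hva : ¬ Above p v := fun h => hv (D.above v h)
    apply Multiplicative.toAdd.injective
    funext k
    rw [hkk₀, gupb_t L hv, ld_kk_t hp hζ hva (D.pi_self v hv)]
    by_cases hvf : ∃ i, v ∈ f i
    · obtain ⟨i, hi⟩ := hvf
      rw [hsv1 i v hi]
      exact (clift_ord1 hp D Dg.cd ε hε f hf v i hi k).symm
    · push Not at hvf
      rw [hsv0 v hvf, map_one, haT v hv hvf k]
      simp) (by
    refine (Finset.finite_toSet (Finset.univ.biUnion fun i => f i)).subset ?_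
    intro v hv
    by_contra hcon
    apply hv
    apply hsv0
    intro i hi
    exact hcon (Finset.mem_coe.2 (Finset.mem_biUnion.2 ⟨i, Finset.mem_univ i, hi⟩)))
  refine ⟨φ, h1, fun σ k => ?_, fun i v hv => ?_⟩
  · rw [h2]
    exact hkk₀ σ k
  · rw [h3 v hv]
    constructor
    · intro hi
      rw [hsv1 i v hi]
    · intro hc
      by_cases hvf : ∃ i, v ∈ f i
      · obtain ⟨i', hi'⟩ := hvf
        rw [hsv1 i' v hi'] at hc
        rw [← Dg.uni i' i hc]
        exact hi'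
      · push Not at hvf
        rw [hsv0 v hvf, isConj_one_right] at hc
        exact absurd hc (Dg.ne i)

end H63.MA
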