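import Pool.Agent.H63.MC.CCa
import Pool.Agent.H63.MC.CLift
import Pool.Agent.H63.MC.CTyp
import Pool.Agent.H63.MB.BLim

/-!
# MC-CCB: asymptotic number of surjective homomorphisms of given local type

`ccb`: `#(SX D L Q φ₁ X) / (X (log X)^{N-1})` converges as `X → ∞`.
Proof. By `cca` it is enough to consider the sum over `f` for a fixed `ε`. Let `t f` be the number of the elements of `XF ε f` of the type of `φ₁`, `w f = wt f`, and `H ρ = 1` if there is a family `f₀` of class `ρ` with `XF ε f₀ ≠ ∅` such that the projection of `φ₁` on the decomposition groups is given by `ak ε f₀`; `H ρ = 0` otherwise.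
`h₀ t f = y₀ w f H (cQ f)` if `f` is not exceptional, and both sides are in `[0, h₀ y₀ w f]` in any case (`ccb_t`). So the sum is `y₀ h₀⁻¹ MS` up to `y₀ ∑_i ∑_{κ ≠ 0} ME`; apply `an_gen` and `an_exc`.
-/

set_option autoImplicit false

open scoped NumberField
open IsDedekindDomain Filter Topology
open scoped Classical

noncomputable section

namespace H63.MA

variable {K : Type} [Field K] [NumberField K] {Ω : Type} [Field Ω] [Algebra K Ω]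
  [IsAlgClosure K Ω] {p m N : ℕ} {ζ : K}

/-- the projection of `φ₁` on the decomposition groups is given by `ak ε f` -/
def CcbP (D : RD0 K p ζ) (Q : DP K Ω) {G : Type} [Group G] (Dg : GD p m N G) (ε : Fin m → Kˣ)
    (φ₁ : Gal(Ω/K) →* G) (f : Fin N → Finset (Pl K)) : Prop :=
  ∀ v ∈ D.S0, ∀ σ ∈ dec (K := K) (Q.P v), ∀ k,
    Multiplicative.toAdd (Dg.π (φ₁ σ)) k = kk p ζ (ak D Dg.cd ε f k) σ

/-- the condition on the class -/
def CcbH (D : RD0 K p ζ) (L : LDs D Ω) (Q : DP K Ω) {G : Type} [Group G] (Dg : GD p m N G)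
    (ε : Fin m → Kˣ) (φ₁ : Gal(Ω/K) →* G) (ρ : Fin m → Fin D.r → ZMod p) : Prop :=
  ∃ f₀ : Fin N → Finset (Pl K), Ok D f₀ ∧ cQ D Dg.cd f₀ = ρ ∧ (XF D L Dg ε f₀).Nonempty ∧
    CcbP D Q Dg ε φ₁ f₀

/-- comparison of the number of elements of given type with the weight -/
theorem ccb_t (hp : p.Prime) (hp2 : MOne p K) (hζ : IsPrimitiveRoot ζ p) (D : RD0 K p ζ)
    (L : LDs D Ω) (Q : DP K Ω) {G : Type} [Group G] [Finite G] (hG : Ep p G) (Dg : GD p m N G) :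
    ∃ y₀ h₀ : ℝ, 0 < y₀ ∧ 0 < h₀ ∧ ∀ ε : Fin m → Kˣ, (∀ k, TUnit D.S0 (ε k)) →
      ∀ φ₁ : Gal(Ω/K) →* G, H38.ML.FT φ₁ → ∀ f : Fin N → Finset (Pl K), Ok D f →
      (h₀ * (({φ ∈ XF D L Dg ε f | Teq D.S0 Q φ φ₁}.ncard : ℕ) : ℝ) ≤
        h₀ * y₀ * wt Dg.cd f (fun v k => D.LL v (ak D Dg.cd ε f k)) ∧
      y₀ ≤ h₀ * y₀ ∧
      (Nex D f → h₀ * (({φ ∈ XF D L Dg ε f | Teq D.S0 Q φ φ₁}.ncard : ℕ) : ℝ) =
        y₀ * ((if CcbH D L Q Dg ε φ₁ (cQ D Dg.cd f) then 1 else 0) *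
          wt Dg.cd f (fun v k => D.LL v (ak D Dg.cd ε f k))))) := by
  have : NeZero p := ⟨hp.ne_zero⟩
  obtain ⟨y₀, h₀, hy₀, hh₀, hX⟩ := xf_card hp hp2 hζ D L Q hG Dg
  have hy : (0 : ℝ) < y₀ := by exact_mod_cast hy₀
  have hh : (0 : ℝ) < h₀ := by exact_mod_cast hh₀
  have hh1 : (1 : ℝ) ≤ h₀ := by exact_mod_cast hh₀
  refine ⟨y₀, h₀, hy, hh, fun ε hε φ₁ hφ₁ f hf => ⟨?_, ?_, ?_⟩⟩
  · rw [mul_assoc]
    refine mul_le_mul_of_nonneg_left ?_ hh.le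
    by_cases hne : (XF D L Dg ε f).Nonempty
    · obtain ⟨h1, h2, -⟩ := hX ε f hf hne
      rw [xf_wt hp hζ D L hG Dg ε f hf hne]
      have h3 : {φ ∈ XF D L Dg ε f | Teq D.S0 Q φ φ₁}.ncard ≤ (XF D L Dg ε f).ncard :=
        Set.ncard_le_ncard (Set.sep_subset _ _) h1
      rw [h2] at h3
      exact_mod_cast h3
    · rw [Set.not_nonempty_iff_eq_empty] at hne
      rw [hne]
      simp only [Set.mem_empty_iff_false, false_and, Set.ofPred_false, Set.ncard_empty,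
        Nat.cast_zero]
      exact mul_nonneg hy.le (atupb_wt_nonneg _ _ _)
  · nlinarith
  · intro hN
    by_cases hne : (XF D L Dg ε f).Nonempty
    · obtain ⟨h1, h2, h3⟩ := hX ε f hf hne
      by_cases hP : CcbP D Q Dg ε φ₁ f
      · have h4 : CcbH D L Q Dg ε φ₁ (cQ D Dg.cd f) := ⟨f, hf, rfl, hne, hP⟩
        rw [if_pos h4, one_mul, xf_wt hp hζ D L hG Dg ε f hf hne]
        have h5 := h3 hN φ₁ hφ₁ hP
        rw [h2] at h5
        exact_mod_cast h5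
      · have h4 : ¬ CcbH D L Q Dg ε φ₁ (cQ D Dg.cd f) := by
          rintro ⟨f₀, hf₀, hq, hne₀, hP₀⟩
          apply hP
          intro v hv σ hσ k
          obtain ⟨s, hs, hs2⟩ := ak_ps hp D Dg.cd ε f f₀ hf hf₀ hq.symm k
          rw [hP₀ v hv σ hσ k, hs2, kk_mul_arg hp hζ, ps_triv hp hp2 hζ D Q s hs v hv σ hσ,
            add_zero]
        have h5 : {φ ∈ XF D L Dg ε f | Teq D.S0 Q φ φ₁} = ∅ := by
          rw [Set.eq_empty_iff_forall_notMem]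
          rintro φ ⟨hφ, ht⟩
          apply hP
          intro v hv σ hσ k
          rw [← ht v hv σ hσ, hφ.2.1 σ k]
        rw [if_neg h4, h5]
        simp
    · have h0 : {φ ∈ XF D L Dg ε f | Teq D.S0 Q φ φ₁} = ∅ := by
        rw [Set.not_nonempty_iff_eq_empty] at hne
        rw [hne]
        simp
      rw [h0, Set.ncard_empty, Nat.cast_zero, mul_zero]
      by_cases hw : wt Dg.cd f (fun v k => D.LL v (ak D Dg.cd ε f k)) = 0
      · rw [hw, mul_zero, mul_zero]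
      · have h4 : ¬ CcbH D L Q Dg ε φ₁ (cQ D Dg.cd f) := by
          rintro ⟨f₀, hf₀, hq, hne₀, hP₀⟩
          exact hne (xf_lift hp hp2 hζ D L hG Dg ε hε f f₀ hf hf₀ hq.symm hne₀ hw)
        rw [if_neg h4, zero_mul, mul_zero]

theorem ccb_swap {A B C : Type} (s : Finset A) (t : Finset B) (u : Finset C)
    (F : A → B → C → ℝ) : ∑ a ∈ s, ∑ b ∈ t, ∑ c ∈ u, F a b c =
      ∑ c ∈ u, ∑ a ∈ s, ∑ b ∈ t, F a b c := by
  rw [Finset.sum_comm (s := u)]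
  exact Finset.sum_congr rfl fun a _ => Finset.sum_comm

/-- the condition on `f` -/
def CcbC (D : RD0 K p ζ) (c : CD p m N) (ε : Fin m → Kˣ) (X : ℝ) (f : Fin N → Finset (Pl K)) :
    Prop :=
  Dj f ∧ (∀ i, ∀ v ∈ f i, v ∉ D.S0) ∧ ∏ i, nr (f i) ≤ X ∧
    (∀ θ : Fin m → ZMod p, θ ≠ 0 → ¬ IsPow p (bp (ak D c ε f) θ))

/-- the weight of `f` -/
def ccbW (D : RD0 K p ζ) (c : CD p m N) (ε : Fin m → Kˣ) (f : Fin N → Finset (Pl K)) : ℝ :=
  wt c f (fun v k => D.LL v (ak D c ε f k))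

/-- the terms of `ME` -/
def ccbE (D : RD0 K p ζ) (c : CD p m N) (ε : Fin m → Kˣ) (i : Fin N) (κ : Fin D.r → ZMod p)
    (X : ℝ) (f : Fin N → Finset (Pl K)) : ℝ :=
  if CcbC D c ε X f ∧ ∀ v ∈ f i, dt κ (D.q v) = 0 then ccbW D c ε f else 0

theorem ccb_ME (D : RD0 K p ζ) (c : CD p m N) (ε : Fin m → Kˣ) (i : Fin N)
    (κ : Fin D.r → ZMod p) (X : ℝ) : ME D c ε i κ X =
      ∑ f ∈ Fintype.piFinset (fun _ : Fin N => AF K X), ccbE D c ε i κ X f := by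
  unfold ME
  refine Finset.sum_congr rfl fun f _ => ?_
  unfold ccbE ccbW
  congr 1
  unfold CcbC
  simp only [and_assoc]

theorem ccb_MS (D : RD0 K p ζ) (c : CD p m N) (ε : Fin m → Kˣ) (i : Fin N)
    (H : (Fin m → Fin D.r → ZMod p) → ℝ) (X : ℝ) : MS D c ε ∅ i H X =
      ∑ f ∈ Fintype.piFinset (fun _ : Fin N => AF K X),
        if CcbC D c ε X f then H (cQ D c f) * ccbW D c ε f else 0 := by
  unfold MS
  refine Finset.sum_congr rfl fun f _ => ?_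
  unfold ccbW
  congr 1
  unfold CcbC
  simp only [Finset.disjoint_empty_right, and_true]

/-- the number of homomorphisms of given type for given `ε` -/
def ccbS (D : RD0 K p ζ) (L : LDs D Ω) (Q : DP K Ω) {G : Type} [Group G] (Dg : GD p m N G)
    (φ₁ : Gal(Ω/K) →* G) (ε : Fin m → Kˣ) (X : ℝ) : ℝ :=
  ∑ f ∈ Fintype.piFinset (fun _ : Fin N => AF K X),
    if CcbC D Dg.cd ε X f then (({φ ∈ XF D L Dg ε f | Teq D.S0 Q φ φ₁}.ncard : ℕ) : ℝ) else 0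

/-- comparison of the terms -/
theorem ccb_term [NeZero p] (D : RD0 K p ζ) (c : CD p m N) (ε : Fin m → Kˣ) (X y₀ h₀ t H : ℝ)
    (hy₀ : 0 < y₀) (hh₀ : 0 < h₀) (f : Fin N → Finset (Pl K)) (hc : CcbC D c ε X f)
    (ht : 0 ≤ t) (hH : 0 ≤ H ∧ H ≤ 1) (h1 : h₀ * t ≤ h₀ * y₀ * ccbW D c ε f)
    (h2 : y₀ ≤ h₀ * y₀) (h3 : Nex D f → h₀ * t = y₀ * (H * ccbW D c ε f)) :
    |h₀ * t - y₀ * (H * ccbW D c ε f)| ≤ h₀ * y₀ * ∑ i : Fin N,
      ∑ κ ∈ Finset.univ.filter (fun κ : Fin D.r → ZMod p => κ ≠ 0), ccbE D c ε i κ X f := by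
  have hw : 0 ≤ ccbW D c ε f := atupb_wt_nonneg _ _ _
  have hnn : ∀ i : Fin N, ∀ κ : Fin D.r → ZMod p, 0 ≤ ccbE D c ε i κ X f := by
    intro i κ
    unfold ccbE
    split_ifs
    · exact hw
    · exact le_rfl
  by_cases hN : Nex D f
  · rw [h3 hN, sub_self, abs_zero]
    exact mul_nonneg (mul_nonneg hh₀.le hy₀.le)
      (Finset.sum_nonneg fun i _ => Finset.sum_nonneg fun κ _ => hnn i κ)
  · unfold Nex at hN
    push Not at hN
    obtain ⟨i, κ, hκ, hi⟩ := hN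
    have h4 : ccbW D c ε f ≤ ∑ i : Fin N,
        ∑ κ ∈ Finset.univ.filter (fun κ : Fin D.r → ZMod p => κ ≠ 0), ccbE D c ε i κ X f := by
      refine le_trans ?_ (Finset.single_le_sum (f := fun i : Fin N =>
        ∑ κ ∈ Finset.univ.filter (fun κ : Fin D.r → ZMod p => κ ≠ 0), ccbE D c ε i κ X f)
        (fun i _ => Finset.sum_nonneg fun κ _ => hnn i κ) (Finset.mem_univ i))
      refine le_trans ?_ (Finset.single_le_sum (f := fun κ : Fin D.r → ZMod p =>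
        ccbE D c ε i κ X f) (fun κ _ => hnn i κ) (Finset.mem_filter.2 ⟨Finset.mem_univ κ, hκ⟩))
      unfold ccbE
      rw [if_pos ⟨hc, hi⟩]
    refine le_trans ?_ (mul_le_mul_of_nonneg_left h4 (mul_nonneg hh₀.le hy₀.le))
    have h6 := mul_nonneg hh₀.le ht
    have h8 : y₀ * (H * ccbW D c ε f) ≤ h₀ * y₀ * ccbW D c ε f :=
      le_trans (mul_le_mul_of_nonneg_left (mul_le_of_le_one_left hw hH.2) hy₀.le)
        (mul_le_mul_of_nonneg_right h2 hw)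
    have h9 : 0 ≤ y₀ * (H * ccbW D c ε f) := mul_nonneg hy₀.le (mul_nonneg hH.1 hw)
    rw [abs_le]
    constructor <;> linarith

/-- comparison of the sums -/
theorem ccb_sum [NeZero p] (D : RD0 K p ζ) (L : LDs D Ω) (Q : DP K Ω) {G : Type} [Group G]
    (Dg : GD p m N G) (i₀ : Fin N) (ε : Fin m → Kˣ) (φ₁ : Gal(Ω/K) →* G) (y₀ h₀ : ℝ)
    (hy₀ : 0 < y₀) (hh₀ : 0 < h₀)
    (h : ∀ f : Fin N → Finset (Pl K), Ok D f →
      (h₀ * (({φ ∈ XF D L Dg ε f | Teq D.S0 Q φ φ₁}.ncard : ℕ) : ℝ) ≤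
        h₀ * y₀ * wt Dg.cd f (fun v k => D.LL v (ak D Dg.cd ε f k)) ∧
      y₀ ≤ h₀ * y₀ ∧
      (Nex D f → h₀ * (({φ ∈ XF D L Dg ε f | Teq D.S0 Q φ φ₁}.ncard : ℕ) : ℝ) =
        y₀ * ((if CcbH D L Q Dg ε φ₁ (cQ D Dg.cd f) then 1 else 0) *
          wt Dg.cd f (fun v k => D.LL v (ak D Dg.cd ε f k)))))) (X : ℝ) :
    |h₀ * ccbS D L Q Dg φ₁ ε X - y₀ * MS D Dg.cd ε ∅ i₀
      (fun ρ => if CcbH D L Q Dg ε φ₁ ρ then 1 else 0) X| ≤
      h₀ * y₀ * ∑ i : Fin N, ∑ κ ∈ Finset.univ.filter (fun κ : Fin D.r → ZMod p => κ ≠ 0),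
        ME D Dg.cd ε i κ X := by
  rw [ccb_MS]
  simp only [ccb_ME]
  unfold ccbS
  rw [ccb_swap, Finset.mul_sum, Finset.mul_sum, Finset.mul_sum, ← Finset.sum_sub_distrib]
  refine (Finset.abs_sum_le_sum_abs _ _).trans (Finset.sum_le_sum fun f _ => ?_)
  by_cases hc : CcbC D Dg.cd ε X f
  · obtain ⟨h1, h2, h3⟩ := h f ⟨hc.1, hc.2.1⟩
    rw [if_pos hc, if_pos hc]
    exact ccb_term D Dg.cd ε X y₀ h₀ _ _ hy₀ hh₀ f hc (Nat.cast_nonneg _)
      (by split_ifs <;> norm_num) h1 h2 h3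
  · rw [if_neg hc, if_neg hc, mul_zero, mul_zero, sub_self, abs_zero]
    refine mul_nonneg (mul_nonneg hh₀.le hy₀.le)
      (Finset.sum_nonneg fun i _ => Finset.sum_nonneg fun κ _ => ?_)
    unfold ccbE
    rw [if_neg fun h => hc h.1]

theorem ccb (hp : p.Prime) (hp2 : MOne p K) (hζ : IsPrimitiveRoot ζ p) (D : RD K p ζ)
    (L : LDs D.toRD0 Ω) (Q : DP K Ω) {G : Type} [Group G] [Finite G] (hG : Ep p G)
    (Dg : GD p m N G) (hN : 1 ≤ N) (φ₁ : Gal(Ω/K) →* G) (hφ₁ : H38.ML.FT φ₁) :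
    ∃ l : ℝ, 0 ≤ l ∧ Tendsto (fun X : ℝ => ((SX D.toRD0 L Q φ₁ X).ncard : ℝ) /
      (X * Real.log X ^ (N - 1))) atTop (𝓝 l) := by
  have : NeZero p := ⟨hp.ne_zero⟩
  obtain ⟨U, hU1, hU2, hU3⟩ := unit_reps2 (K := K) hp D.S0
  obtain ⟨y₀, h₀, hy₀, hh₀, ht⟩ := ccb_t hp hp2 hζ D.toRD0 L Q hG Dg
  obtain ⟨C₁, hC₁, hgen⟩ := an_gen hp hp2 hζ D Dg.cd hN
  obtain ⟨u, hu0, hu⟩ := un_lim D.toRD0 N hN ∅
  have i₀ : Fin N := ⟨0, hN⟩
  have hε : ∀ ε ∈ Fintype.piFinset (fun _ : Fin m => U), ∃ l : ℝ, 0 ≤ l ∧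
      Tendsto (fun X : ℝ => ccbS D.toRD0 L Q Dg φ₁ ε X / (X * Real.log X ^ (N - 1)))
        atTop (𝓝 l) := by
    intro ε hε
    rw [Fintype.mem_piFinset] at hε
    have hε' : ∀ k, TUnit D.S0 (ε k) := fun k => hU1 _ (hε k)
    obtain ⟨l, hl0, -, hl⟩ := hgen ε hε' (fun ρ => if CcbH D.toRD0 L Q Dg ε φ₁ ρ then 1 else 0)
      (fun ρ => by split_ifs <;> norm_num) ∅ (fun v hv => absurd hv (Finset.notMem_empty v)) i₀ u hu
    have hexc : Tendsto (fun X : ℝ => h₀ * y₀ * (∑ i : Fin N,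
        ∑ κ ∈ Finset.univ.filter (fun κ : Fin D.r → ZMod p => κ ≠ 0),
          ME D.toRD0 Dg.cd ε i κ X / (X * Real.log X ^ (N - 1)))) atTop (𝓝 0) := by
      have h1 : Tendsto (fun X : ℝ => ∑ i : Fin N,
        ∑ κ ∈ Finset.univ.filter (fun κ : Fin D.r → ZMod p => κ ≠ 0),
          ME D.toRD0 Dg.cd ε i κ X / (X * Real.log X ^ (N - 1))) atTop
          (𝓝 (∑ i : Fin N, ∑ κ ∈ Finset.univ.filter
            (fun κ : Fin D.r → ZMod p => κ ≠ 0), (0 : ℝ))) :=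
        tendsto_finsetSum _ fun i _ => tendsto_finsetSum _ fun κ hκ =>
          an_exc hp hp2 hζ D Dg.cd hN ε hε' i κ (Finset.mem_filter.1 hκ).2
      have h2 := h1.const_mul (h₀ * y₀)
      simpa using h2
    have hdiff : Tendsto (fun X : ℝ => h₀ * (ccbS D.toRD0 L Q Dg φ₁ ε X /
        (X * Real.log X ^ (N - 1))) - y₀ * (MS D.toRD0 Dg.cd ε ∅ i₀
          (fun ρ => if CcbH D.toRD0 L Q Dg ε φ₁ ρ then 1 else 0) X /
            (X * Real.log X ^ (N - 1)))) atTop (𝓝 0) := by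
      refine squeeze_zero_norm' ?_ hexc
      filter_upwards [eventually_gt_atTop 1] with X hX
      have hlog := Real.log_pos hX
      have hP : 0 < X * Real.log X ^ (N - 1) := mul_pos (by linarith) (pow_pos hlog _)
      have h1 := ccb_sum D.toRD0 L Q Dg i₀ ε φ₁ y₀ h₀ hy₀ hh₀ (ht ε hε' φ₁ hφ₁) X
      have h2 : h₀ * (ccbS D.toRD0 L Q Dg φ₁ ε X / (X * Real.log X ^ (N - 1))) -
          y₀ * (MS D.toRD0 Dg.cd ε ∅ i₀
          (fun ρ => if CcbH D.toRD0 L Q Dg ε φ₁ ρ then 1 else 0) X /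
            (X * Real.log X ^ (N - 1))) = (h₀ * ccbS D.toRD0 L Q Dg φ₁ ε X -
          y₀ * MS D.toRD0 Dg.cd ε ∅ i₀
          (fun ρ => if CcbH D.toRD0 L Q Dg ε φ₁ ρ then 1 else 0) X) /
            (X * Real.log X ^ (N - 1)) := by
        rw [sub_div, mul_div_assoc, mul_div_assoc]
      rw [h2, Real.norm_eq_abs, abs_div, abs_of_pos hP]
      refine (div_le_div_of_nonneg_right h1 hP.le).trans (le_of_eq ?_)
      rw [mul_div_assoc, Finset.sum_div]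
      congr 1
      exact Finset.sum_congr rfl fun i _ => Finset.sum_div _ _ _
    refine ⟨y₀ * l / h₀, by positivity, ?_⟩
    have h3 := (hdiff.add (hl.const_mul y₀)).div_const h₀
    rw [zero_add] at h3
    refine h3.congr fun X => ?_
    field_simp
    ring
  have hl : ∀ ε : Fin m → Kˣ, ∃ l : ℝ, ε ∈ Fintype.piFinset (fun _ : Fin m => U) → 0 ≤ l ∧
      Tendsto (fun X : ℝ => ccbS D.toRD0 L Q Dg φ₁ ε X / (X * Real.log X ^ (N - 1)))
        atTop (𝓝 l) := by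
    intro ε
    by_cases h : ε ∈ Fintype.piFinset (fun _ : Fin m => U)
    · obtain ⟨l, hl⟩ := hε ε h
      exact ⟨l, fun _ => hl⟩
    · exact ⟨0, fun h' => absurd h' h⟩
  choose l hl using hl
  refine ⟨∑ ε ∈ Fintype.piFinset (fun _ : Fin m => U), l ε,
    Finset.sum_nonneg fun ε hε => (hl ε hε).1, ?_⟩
  refine (tendsto_finsetSum _ fun ε hε => (hl ε hε).2).congr fun X => ?_
  rw [(cca hp hp2 hζ D.toRD0 L Q hG Dg U hU2 hU3 φ₁ X).2, Finset.sum_div]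
  refine Finset.sum_congr rfl fun ε _ => ?_
  congr 1
  unfold ccbS
  refine Finset.sum_congr rfl fun f _ => ?_
  unfold CcbC
  congr 1

end H63.MA
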