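import Pool.Agent.H63.MC.CDef
import Pool.Agent.H63.MA.GKum

/-!
# MC-CLKA: elements close to `1` are locally `p`-th powers

`P` a nonzero prime of `𝓞 Ω`.
* `cl_mul`, `cl_inv`: from `u = (s + p² a) / s`, `s + p² a ∉ P`.
* `cl_of_val`: `x ∈ Kˣ` with `v.valuation (x - 1) < v.valuation (p²)` and `P` over `v`: `t = (x - 1) / p²` has valuation `< 1`, so `t = a / s` with `a ∈ v`, `s ∈ 𝓞 K ∖ v` (`H38.TD.exists_int_div` or write `t = a' / s'` and multiply by a suitable element), and elements of `𝓞 K` are in `P` iff they are in `v`.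
* `cl_fix`: `Cl p P u`, `z^p = u`, `σ ∈ dec P`, `σ u = u`: then `σ z = z`.
  Proof. Let `M/K` be a finite Galois extension inside `Ω` containing `z, u, a, s` (`u - 1 = p² a / s`), `Q = P ∩ 𝓞 M` (a nonzero prime), `w` the `Q`-adic valuation of `M` (values `≤ 1` on integers, multiplicative notation). `w(u - 1) < w(p²)`. Since `z^p = u`: `∏_{j<p} (z - ζ^j) = z^p - 1 = u - 1`. Let `λ = 1 - ζ`; for `0 < k < p`,
  `(1 - ζ^k)/(1 - ζ)` is a unit, so `w(1 - ζ^k) = w(λ)`, and `∏_{0<k<p} (1 - ζ^k) = p` gives `w(λ)^{p-1} = w(p)`, `w(p) ≤ w(λ)`. If `w(z - ζ^j) ≥ w(λ)` for all `j`, then `w(u - 1) ≥ w(λ)^p = w(p) w(λ) ≥ w(p)²`, a contradiction. So `w(z - ζ^j) < w(λ)` for some `j`; put `y = z ζ^{-j}`, `w(y - 1) < w(λ)`, and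
  `σ ζ = ζ` as `ζ ∈ K`; it is enough that `σ y = y`. `σ y = ζ^k y` for some `k < p` (`(σ y)^p = σ u = u = y^p`). `σ ∈ dec P` preserves `Q`, hence `w` (on `M`, normal): `w(σ y - 1) = w(σ (y - 1)) = w(y - 1) < w(λ)`. `ζ^k - 1 = (ζ^k y - 1) - ζ^k (y - 1)`, so `w(ζ^k - 1) < w(λ)`, hence `k = 0` and `σ y = y`.
  (If `p ∤ Q` then `w(p) = w(λ) = 1` and the same argument works.)
* `cl_kk`: for `x ∈ Kˣ` with `Cl p P x` and `σ ∈ dec P`: `kk x σ = 0` (`kk_root`).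
-/

set_option autoImplicit false

open scoped NumberField
open IsDedekindDomain

noncomputable section

namespace H63.MA

variable {K : Type} [Field K] [NumberField K] {Ω : Type} [Field Ω] [Algebra K Ω]
  [IsAlgClosure K Ω] {p : ℕ} {ζ : K}

omit [NumberField K] [Algebra K Ω] [IsAlgClosure K Ω] [Field K] in
theorem clkA_pm {P : Ideal (𝓞 Ω)} {a s : 𝓞 Ω} (c : 𝓞 Ω) (ha : a ∈ P)
    (hs : s ∉ P) : s + c * a ∉ P := fun h => hs ((P.add_mem_iff_left (P.mul_mem_left c ha)).1 h)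

theorem cl_mul (P : Ideal (𝓞 Ω)) (hP : P.IsPrime) {u u' : Ω} (h : Cl p P u) (h' : Cl p P u') :
    Cl p P (u * u') := by
  obtain ⟨a, s, ha, hs, h⟩ := h
  obtain ⟨a', s', ha', hs', h'⟩ := h'
  refine ⟨a * s' + a' * s + (p : 𝓞 Ω) ^ 2 * a * a', s * s', ?_, ?_, ?_⟩
  · exact P.add_mem (P.add_mem (P.mul_mem_right _ ha) (P.mul_mem_right _ ha'))
      (P.mul_mem_left _ ha')
  · intro hm
    rcases hP.mem_or_mem hm with h1 | h1
    · exact hs h1
    · exact hs' h1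
  · push_cast
    linear_combination ((s' : Ω) * (u' - 1) + s') * h + ((p : Ω) ^ 2 * a + s) * h'

theorem cl_inv (P : Ideal (𝓞 Ω)) (hP : P.IsPrime) {u : Ω} (h : Cl p P u) : Cl p P u⁻¹ := by
  obtain ⟨a, s, ha, hs, h⟩ := h
  have h1 : s + (p : 𝓞 Ω) ^ 2 * a ∉ P := clkA_pm _ ha hs
  have h2 : ((s + (p : 𝓞 Ω) ^ 2 * a : 𝓞 Ω) : Ω) = s * u := by
    push_cast
    linear_combination - h
  have hu : u ≠ 0 := by
    rintro rfl
    rw [mul_zero] at h2
    have h3 : s + (p : 𝓞 Ω) ^ 2 * a = 0 := by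
      apply NumberField.RingOfIntegers.ext
      rw [h2]
      exact (map_zero (algebraMap (𝓞 Ω) Ω)).symm
    exact h1 (h3 ▸ P.zero_mem)
  refine ⟨-a, s + (p : 𝓞 Ω) ^ 2 * a, P.neg_mem ha, h1, ?_⟩
  rw [h2, mul_sub, mul_assoc, mul_inv_cancel₀ hu]
  push_cast
  linear_combination - h

theorem cl_of_val (v : Pl K) (P : Ideal (𝓞 Ω)) (hP : P.IsPrime)
    (hv : P.under (𝓞 K) = v.asIdeal) (x : Kˣ)
    (hx : v.valuation K ((x : K) - 1) < v.valuation K ((p : K) ^ 2)) :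
    Cl p P (algebraMap K Ω (x : K)) := by
  have hp0 : (p : K) ^ 2 ≠ 0 := by
    intro h0
    rw [h0, map_zero] at hx
    exact not_lt_zero hx
  have ht : v.valuation K (((x : K) - 1) / (p : K) ^ 2) < 1 := by
    rw [map_div₀]
    exact (div_lt_one₀ (zero_lt_iff.2 ((Valuation.ne_zero_iff _).2 hp0))).2 hx
  obtain ⟨n, d, hnd⟩ := v.exists_primeCompl_mul_eq_of_integer (K := K) _ ht.le
  have hn : n ∈ P.under (𝓞 K) := by
    rw [hv]
    refine (IsDedekindDomain.HeightOneSpectrum.valuation_lt_one_iff_mem (K := K) v n).1 ?_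
    change v.valuation K (algebraMap (𝓞 K) K n) < 1
    rw [← hnd, map_mul]
    exact mul_lt_one_of_lt_of_le ht (v.valuation_le_one _)
  have hd : (d : 𝓞 K) ∉ P.under (𝓞 K) := by
    rw [hv]
    exact d.2
  refine ⟨algebraMap (𝓞 K) (𝓞 Ω) n, algebraMap (𝓞 K) (𝓞 Ω) d, hn, hd, ?_⟩
  have h1 : ∀ y : 𝓞 K, ((algebraMap (𝓞 K) (𝓞 Ω) y : 𝓞 Ω) : Ω) = algebraMap K Ω (y : K) := by
    intro y
    rfl
  rw [h1, h1]
  have h2 : ((d : 𝓞 K) : K) * ((x : K) - 1) = (p : K) ^ 2 * (n : K) := by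
    have h3 := hnd
    rw [div_mul_eq_mul_div, div_eq_iff hp0] at h3
    rw [mul_comm, h3, mul_comm]
  have h4 := congrArg (algebraMap K Ω) h2
  rw [map_mul, map_mul, map_pow, map_natCast, map_sub, map_one] at h4
  exact h4

omit [NumberField K] [Algebra K Ω] [IsAlgClosure K Ω] [Field K] in
theorem clkA_mk (x : Ω) (h : IsIntegral ℤ x) : ∃ a : 𝓞 Ω, (a : Ω) = x := ⟨⟨x, h⟩, rfl⟩

omit [NumberField K] [Algebra K Ω] [IsAlgClosure K Ω] [Field K] in
theorem clkA_adj (μ : Ω) (hμ : IsIntegral ℤ μ) (z : Ω) (hz : z ∈ Algebra.adjoin ℤ {μ}) :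
    IsIntegral ℤ z := by
  have h1 : Algebra.adjoin ℤ {μ} ≤ integralClosure ℤ Ω :=
    Algebra.adjoin_le (by rintro x rfl; exact hμ)
  exact h1 hz

omit [NumberField K] [Algebra K Ω] [IsAlgClosure K Ω] [Field K] in
theorem clkA_cyc (hp : p.Prime) (μ : Ω) (hμ : IsPrimitiveRoot μ p) :
    ∃ e : 𝓞 Ω, (p : Ω) ^ 2 = e * (μ - 1) ^ p := by
  obtain ⟨z, hz, hpz⟩ := hμ.self_sub_one_pow_dvd_order (Nat.sub_lt hp.pos one_pos)
  have hμi : IsIntegral ℤ μ := hμ.isIntegral hp.pos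
  have hzi := clkA_adj μ hμi z hz
  have hi : IsIntegral ℤ (z ^ 2 * (μ - 1) ^ (p - 2)) :=
    (hzi.pow 2).mul ((hμi.sub isIntegral_one).pow _)
  obtain ⟨e, he⟩ := clkA_mk _ hi
  refine ⟨e, ?_⟩
  rw [he, hpz]
  have h3 : (μ - 1) ^ (p - 1) = (μ - 1) ^ (p - 2) * (μ - 1) := by
    rw [← pow_succ]
    congr 1
    have := hp.two_le
    omega
  have h4 : (μ - 1) ^ p = (μ - 1) ^ (p - 2) * (μ - 1) ^ 2 := by
    rw [← pow_add]
    congr 1
    have := hp.two_le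
    omega
  rw [h3, h4]
  ring

omit [NumberField K] [Algebra K Ω] [IsAlgClosure K Ω] [Field K] in
theorem clkA_dvd (μ : Ω) (hμ : IsIntegral ℤ μ) (i : ℕ) :
    ∃ c : 𝓞 Ω, μ ^ i - 1 = c * (μ - 1) := by
  have hi : IsIntegral ℤ (∑ j ∈ Finset.range i, μ ^ j) :=
    IsIntegral.sum _ fun j _ => hμ.pow j
  obtain ⟨c, hc⟩ := clkA_mk _ hi
  exact ⟨c, by rw [hc, geom_sum_mul]⟩

omit [NumberField K] [Algebra K Ω] [IsAlgClosure K Ω] [Field K] in
open Polynomial in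
theorem clkA_root (hp : p.Prime) (μ : Ω) (hμ : IsPrimitiveRoot μ p) (P : Ideal (𝓞 Ω))
    (hP : P.IsPrime) (u z : Ω) (a s : 𝓞 Ω) (ha : a ∈ P)
    (h : (s : Ω) * (u - 1) = (p : Ω) ^ 2 * (a : Ω)) (hz : z ^ p = u) :
    ∃ (ω : Ω) (b : 𝓞 Ω), ω ^ p = 1 ∧ b ∈ P ∧ (b : Ω) * (μ - 1) = s * (z - ω) := by
  classical
  have hp0 : NeZero p := ⟨hp.ne_zero⟩
  have hμi : IsIntegral ℤ μ := hμ.isIntegral hp.pos
  have hl0 : μ - 1 ≠ 0 := sub_ne_zero.2 (hμ.ne_one hp.one_lt)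
  obtain ⟨e, he⟩ := clkA_cyc hp μ hμ
  have hroot : ∀ ω ∈ nthRootsFinset p (1 : Ω), ω ^ p = 1 := by
    intro ω hω
    exact (mem_nthRootsFinset hp.pos 1).1 hω
  have hc : ∀ ω : Ω, ∃ c : 𝓞 Ω, ω ∈ nthRootsFinset p (1 : Ω) → ω - 1 = c * (μ - 1) := by
    intro ω
    by_cases hω : ω ∈ nthRootsFinset p (1 : Ω)
    · obtain ⟨i, -, rfl⟩ := hμ.eq_pow_of_pow_eq_one (hroot ω hω)
      obtain ⟨c, hc⟩ := clkA_dvd μ hμi i
      exact ⟨c, fun _ => hc⟩
    · exact ⟨0, fun h' => absurd h' hω⟩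
  choose c hc using hc
  set t : Ω := (z - 1) / (μ - 1) with ht
  have ht1 : z - 1 = t * (μ - 1) := (div_mul_cancel₀ _ hl0).symm
  have hprod : ∏ ω ∈ nthRootsFinset p (1 : Ω), ((s : Ω) * t - (s : Ω) * (c ω : Ω)) =
      (s : Ω) ^ (p - 1) * a * e := by
    have h1 : (∏ ω ∈ nthRootsFinset p (1 : Ω), ((s : Ω) * t - (s : Ω) * (c ω : Ω))) *
        (μ - 1) ^ p = (s : Ω) ^ p * (u - 1) := by
      have h2 := hμ.pow_sub_pow_eq_prod_sub_mul z 1 hp.pos
      rw [one_pow, hz] at h2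
      have h3 : (μ - 1) ^ p = ∏ ω ∈ nthRootsFinset p (1 : Ω), (μ - 1) := by
        rw [Finset.prod_const, hμ.card_nthRootsFinset]
      have h4 : (s : Ω) ^ p = ∏ ω ∈ nthRootsFinset p (1 : Ω), (s : Ω) := by
        rw [Finset.prod_const, hμ.card_nthRootsFinset]
      rw [h2, h3, h4, ← Finset.prod_mul_distrib, ← Finset.prod_mul_distrib]
      refine Finset.prod_congr rfl fun ω hω => ?_
      have h5 := hc ω hω
      linear_combination (s : Ω) * (- ht1) - (s : Ω) * (- h5)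
    have h6 : (s : Ω) ^ p = (s : Ω) ^ (p - 1) * s := by
      rw [← pow_succ]
      congr 1
      have := hp.two_le
      omega
    have h7 : (μ - 1) ^ p ≠ 0 := pow_ne_zero _ hl0
    apply mul_right_cancel₀ h7
    rw [h1, h6, mul_assoc, h, he]
    ring
  -- integrality
  have hint : IsIntegral ℤ ((s : Ω) * t) := by
    have h1 : IsIntegral (𝓞 Ω) ((s : Ω) * t) := by
      set g : (𝓞 Ω)[X] := ∏ ω ∈ nthRootsFinset p (1 : Ω), (X - C (s * c ω)) with hg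
      have hgm : g.Monic := monic_prod_of_monic _ _ fun ω _ => monic_X_sub_C _
      have hgd : g.natDegree = p := by
        rw [hg, natDegree_prod_of_monic _ _ fun ω _ => monic_X_sub_C _,
          Finset.sum_congr rfl fun ω _ => natDegree_X_sub_C _, Finset.sum_const,
          hμ.card_nthRootsFinset, smul_eq_mul, mul_one]
      refine ⟨g - C (s ^ (p - 1) * a * e), ?_, ?_⟩
      · apply hgm.sub_of_left
        rw [degree_eq_natDegree hgm.ne_zero, hgd]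
        refine lt_of_le_of_lt degree_C_le ?_
        exact_mod_cast hp.pos
      · rw [eval₂_sub, eval₂_C, hg, eval₂_finsetProd]
        rw [sub_eq_zero]
        have h2 : ∀ ω, eval₂ (algebraMap (𝓞 Ω) Ω) ((s : Ω) * t) (X - C (s * c ω)) =
            (s : Ω) * t - (s : Ω) * (c ω : Ω) := by
          intro ω
          rw [eval₂_sub, eval₂_X, eval₂_C, map_mul]
        rw [Finset.prod_congr rfl fun ω _ => h2 ω, hprod, map_mul, map_mul, map_pow]
    exact isIntegral_trans _ h1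
  obtain ⟨T, hTc⟩ := clkA_mk _ hint
  have hprod' : ∏ ω ∈ nthRootsFinset p (1 : Ω), (T - s * c ω) = s ^ (p - 1) * a * e := by
    apply NumberField.RingOfIntegers.ext
    change algebraMap (𝓞 Ω) Ω _ = algebraMap (𝓞 Ω) Ω _
    rw [map_prod]
    have h2 : ∀ ω, algebraMap (𝓞 Ω) Ω (T - s * c ω) = (s : Ω) * t - (s : Ω) * (c ω : Ω) := by
      intro ω
      rw [map_sub, map_mul, ← hTc]
    rw [Finset.prod_congr rfl fun ω _ => h2 ω, hprod, map_mul, map_mul, map_pow]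
  have hmem : ∏ ω ∈ nthRootsFinset p (1 : Ω), (T - s * c ω) ∈ P := by
    rw [hprod']
    exact P.mul_mem_right _ (P.mul_mem_left _ ha)
  obtain ⟨ω, hω, hωP⟩ := Ideal.IsPrime.prod_mem_iff.1 hmem
  refine ⟨ω, _, hroot ω hω, hωP, ?_⟩
  have h5 := hc ω hω
  change algebraMap (𝓞 Ω) Ω (T - s * c ω) * (μ - 1) = _
  rw [map_sub, map_mul]
  have hTc' : algebraMap (𝓞 Ω) Ω T = (s : Ω) * t := hTc
  rw [hTc']
  linear_combination (s : Ω) * (- ht1) - (s : Ω) * (- h5)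

theorem cl_fix (hp : p.Prime) (hζ : IsPrimitiveRoot ζ p) (P : Ideal (𝓞 Ω)) (hP : P.IsPrime)
    (hP0 : P ≠ ⊥) (u z : Ω) (hu : Cl p P u) (hz : z ^ p = u) (σ : Gal(Ω/K))
    (hσ : σ ∈ dec (K := K) P) (hσu : σ u = u) : σ z = z := by
  obtain ⟨a, s, ha, hs, h⟩ := hu
  have hμ : IsPrimitiveRoot (algebraMap K Ω ζ) p :=
    hζ.map_of_injective (algebraMap K Ω).injective
  set μ := algebraMap K Ω ζ with hμdef
  have hσμ : σ μ = μ := σ.commutes ζ
  have hl0 : μ - 1 ≠ 0 := sub_ne_zero.2 (hμ.ne_one hp.one_lt)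
  obtain ⟨ω, b, hω, hb, hbs⟩ := clkA_root hp μ hμ P hP u z a s ha h hz
  have hp0 : NeZero p := ⟨hp.ne_zero⟩
  by_cases hz0 : z = 0
  · rw [hz0, map_zero]
  -- the root of unity of `σ`
  have h1 : (σ z / z) ^ p = 1 := by
    rw [div_pow, ← map_pow, hz, hσu, ← hz, div_self (pow_ne_zero _ hz0)]
  set η := σ z / z with hη
  have hσz : σ z = η * z := (div_mul_cancel₀ _ hz0).symm
  by_cases hη1 : η = 1
  · rw [hσz, hη1, one_mul]
  exfalso
  have hηp : IsPrimitiveRoot η p := by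
    have hpf : Fact p.Prime := ⟨hp⟩
    exact IsPrimitiveRoot.iff_orderOf.2 (orderOf_eq_prime h1 hη1)
  obtain ⟨l, -, hl⟩ := hηp.eq_pow_of_pow_eq_one hμ.pow_eq_one
  have hηi : IsIntegral ℤ η := hηp.isIntegral hp.pos
  obtain ⟨g, hg⟩ := clkA_dvd η hηi l
  rw [hl] at hg
  obtain ⟨i, -, hi⟩ := hμ.eq_pow_of_pow_eq_one hω
  have hσω : σ ω = ω := by rw [← hi, map_pow, hσμ]
  have hωi : IsIntegral ℤ ω := by rw [← hi]; exact (hμ.isIntegral hp.pos).pow i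
  obtain ⟨H, hHc⟩ := clkA_mk _ hηi
  obtain ⟨W, hWc⟩ := clkA_mk _ hωi
  have hsm : ∀ y : 𝓞 Ω, ((σ • y : 𝓞 Ω) : Ω) = σ (y : Ω) := fun y => rfl
  have hσb : σ (b : Ω) * (μ - 1) = σ (s : Ω) * (η * z - ω) := by
    have h2 := congrArg σ hbs
    rw [map_mul, map_mul, map_sub, map_sub, map_one, hσμ, hσω, hσz] at h2
    exact h2
  have hη0 : η - 1 ≠ 0 := sub_ne_zero.2 hη1
  have hkey : s * (σ • s) * W = - (H * (σ • s) * b - s * (σ • b)) * g := by
    apply NumberField.RingOfIntegers.ext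
    apply mul_right_cancel₀ hη0
    push_cast
    simp only [hHc, hWc]
    have h3 : ((η * σ (s : Ω) * b - s * σ (b : Ω))) * (μ - 1) =
        s * σ (s : Ω) * ω * (1 - η) := by
      linear_combination (η * σ (s : Ω)) * hbs - (s : Ω) * hσb
    rw [hg] at h3
    linear_combination h3
  have hmem : s * (σ • s) * W ∈ P := by
    rw [hkey]
    refine P.mul_mem_right _ (P.neg_mem (P.sub_mem (P.mul_mem_left _ hb)
      (P.mul_mem_left _ ((hσ b).2 hb))))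
  have hWu : W ∉ P := by
    intro hWP
    apply hP.ne_top
    rw [Ideal.eq_top_iff_one]
    have h4 : W ^ p = 1 := by
      apply NumberField.RingOfIntegers.ext
      change algebraMap (𝓞 Ω) Ω (W ^ p) = algebraMap (𝓞 Ω) Ω 1
      rw [map_pow, map_one]
      exact (congrArg (fun y => y ^ p) hWc).trans hω
    rw [← h4]
    exact Ideal.pow_mem_of_mem P hWP p hp.pos
  rcases hP.mem_or_mem hmem with h5 | h5
  · rcases hP.mem_or_mem h5 with h6 | h6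
    · exact hs h6
    · exact hs ((hσ s).1 h6)
  · exact hWu h5

theorem cl_kk (hp : p.Prime) (hζ : IsPrimitiveRoot ζ p) (P : Ideal (𝓞 Ω)) (hP : P.IsPrime)
    (hP0 : P ≠ ⊥) (x : Kˣ) (hx : Cl p P (algebraMap K Ω (x : K))) (σ : Gal(Ω/K))
    (hσ : σ ∈ dec (K := K) P) : kk p ζ x σ = 0 := by
  obtain ⟨B, hB⟩ := gkum_root (K := K) (Ω := Ω) hp x
  have h1 := cl_fix hp hζ P hP hP0 _ B hx hB σ hσ (σ.commutes _)
  have h2 := kk_of_root (Ω := Ω) hp hζ x B hB σ 0 (by rw [zpow_zero, one_mul, h1])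
  rw [h2, Int.cast_zero]

end H63.MA
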