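import Pool.Agent.H63.MC.CHb
import Pool.Agent.H63.MA.GGd

/-!
# MC-CXA: counting the homomorphisms with given Kummer data and ramification

`xf_card`: let `XF D L Dg ε f` be nonempty, `Ok D f`. It has `y₀ ∏_i (#class_i)^{#(f i)}` elements; if `f` is not exceptional, then among them exactly the fraction `1/h₀` has the local type of `φ₁`, for every `φ₁` of finite type with the right projection on the decomposition groups.
Proof. Let `W = Dg.π.ker`, as a commutative group (central by `Dg.cen`; exponent `p` by `Ep`); let `A i ≤ W` be the subgroup of the `w` with `w = g_i⁻¹ x g_i x⁻¹`, `x ∈ G` (`= [g_i⁻¹, x]`; it is a subgroup since commutators are central, so `x ↦ g_i⁻¹ x g_i x⁻¹` is a homomorphism to the centre; it is contained in `ker π`, the target of `π` being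
commutative). The conjugacy class of `g i` is `g_i A_i`, so `#class_i = #(A i)`. The `A i` generate `W`: `W ≤ commutator G` (`Dg.com`) is generated by commutators `[a, x]`; for `a ≠ 1`, `a⁻¹` is conjugate to some `g_i⁻¹`..., `a = y g_i⁻¹ y⁻¹` for some `i` (`Dg.cls` for `a⁻¹`), and `[y g_i⁻¹ y⁻¹, x] = y [g_i⁻¹, y⁻¹ x y] y⁻¹ = [g_i⁻¹, y⁻¹ x y] ∈ A_i`.
Apply `hf_card` to `W`, `A`. Let `φ₀ ∈ XF`. For `χ ∈ HF D L A f`, `φ₀ χ : σ ↦ φ₀ σ * χ σ` is a homomorphism (`χ` is central), of finite type, with the same projection, `φ₀ (t v) χ (t v) ∈ g A_i`-coset: if `φ₀ (t v) ∈ g_i A_i` then so is `φ₀ (t v) χ (t v)`; for `v ∉ S0 ∪ ⋃ f i`, `φ₀ (t v) = 1` (by `Dg.cls` it is not conjugate to any `g i`) and `χ (t v) = 1`. So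
`φ₀ χ ∈ XF`. Conversely for `φ ∈ XF`, `χ σ = (φ₀ σ)⁻¹ φ σ ∈ ker π` is a homomorphism of finite type in `HF` (`φ (t v), φ₀ (t v) ∈ g_i A_i`). So `χ ↦ φ₀ χ` is a bijection `HF → XF`. Types: let `φ₁` be of finite type with `π (φ₁ σ) = (kk (ak ε f k) σ)_k = π (φ₀ σ)` for `σ ∈ dec (P v)`, `v ∈ S0`. Then
`δ v u = (φ₀ u)⁻¹ φ₁ u`, `u ∈ dec (P v)`, is a homomorphism of finite level to `W`; `hw_lock` gives `χ₁ : Γ → W` of finite type with `χ₁ = δ v` on `dec (P v)`, `v ∈ S0`. `φ₀ χ` has the type of `φ₁` iff `χ` has the type of `χ₁`. Now use the last statement of `hf_card`.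
-/

set_option autoImplicit false

open scoped NumberField
open IsDedekindDomain

noncomputable section

namespace H63.MA

variable {K : Type} [Field K] [NumberField K] {Ω : Type} [Field Ω] [Algebra K Ω]
  [IsAlgClosure K Ω] {p m N : ℕ} {ζ : K}

/-- the kernel of the projection is commutative -/
@[reducible] def cxaI {G : Type} [Group G] (Dg : GD p m N G) : CommGroup Dg.π.ker :=
  { (inferInstance : Group Dg.π.ker) with
    mul_comm := fun a b => Subtype.ext (Dg.cen a (MonoidHom.mem_ker.1 a.2) b) }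

theorem cxa_ker {G : Type} [Group G] (Dg : GD p m N G) (g x : G) :
    Dg.π (g⁻¹ * x * g * x⁻¹) = 1 := by
  rw [map_mul, map_mul, map_mul, map_inv, map_inv, mul_comm (Dg.π g)⁻¹ (Dg.π x),
    inv_mul_cancel_right, mul_inv_cancel]

/-- the commutators with `(g i)⁻¹` -/
def cxaT {G : Type} [Group G] (Dg : GD p m N G) (i : Fin N) : G →* Dg.π.ker where
  toFun x := ⟨(Dg.g i)⁻¹ * x * Dg.g i * x⁻¹, cxa_ker Dg (Dg.g i) x⟩
  map_one' := Subtype.ext (by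
    change (Dg.g i)⁻¹ * 1 * Dg.g i * 1⁻¹ = 1
    simp)
  map_mul' x y := Subtype.ext (by
    change (Dg.g i)⁻¹ * (x * y) * Dg.g i * (x * y)⁻¹ =
      ((Dg.g i)⁻¹ * x * Dg.g i * x⁻¹) * ((Dg.g i)⁻¹ * y * Dg.g i * y⁻¹)
    have hc := Dg.cen _ (cxa_ker Dg (Dg.g i) y) x⁻¹
    calc (Dg.g i)⁻¹ * (x * y) * Dg.g i * (x * y)⁻¹ =
        (Dg.g i)⁻¹ * x * Dg.g i * (((Dg.g i)⁻¹ * y * Dg.g i * y⁻¹) * x⁻¹) := by group
      _ = (Dg.g i)⁻¹ * x * Dg.g i * (x⁻¹ * ((Dg.g i)⁻¹ * y * Dg.g i * y⁻¹)) := by rw [hc]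
      _ = _ := by group)

/-- the subgroup attached to a class -/
def cxaA {G : Type} [Group G] (Dg : GD p m N G) (i : Fin N) : Subgroup Dg.π.ker :=
  (cxaT Dg i).range

theorem cxa_mem {G : Type} [Group G] (Dg : GD p m N G) (i : Fin N) (w : Dg.π.ker) :
    w ∈ cxaA Dg i ↔ ∃ x : G, (Dg.g i)⁻¹ * x * Dg.g i * x⁻¹ = (w : G) := by
  unfold cxaA
  rw [MonoidHom.mem_range]
  constructor
  · rintro ⟨x, rfl⟩
    exact ⟨x, rfl⟩
  · rintro ⟨x, hx⟩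
    exact ⟨x, Subtype.ext hx⟩

theorem cxa_conj {G : Type} [Group G] (Dg : GD p m N G) (i : Fin N) (h : G) :
    IsConj h (Dg.g i) ↔ ∃ w ∈ cxaA Dg i, h = Dg.g i * (w : G) := by
  rw [isConj_comm, isConj_iff]
  constructor
  · rintro ⟨x, rfl⟩
    refine ⟨cxaT Dg i x, ⟨x, rfl⟩, ?_⟩
    change x * Dg.g i * x⁻¹ = Dg.g i * ((Dg.g i)⁻¹ * x * Dg.g i * x⁻¹)
    group
  · rintro ⟨w, hw, rfl⟩
    obtain ⟨x, hx⟩ := (cxa_mem Dg i w).1 hw
    refine ⟨x, ?_⟩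
    rw [← hx]
    group

theorem cxa_card {G : Type} [Group G] (Dg : GD p m N G) (i : Fin N) :
    Nat.card (cxaA Dg i) = Nat.card {h : G // IsConj h (Dg.g i)} := by
  refine Nat.card_congr (Equiv.ofBijective
    (fun w : cxaA Dg i => (⟨Dg.g i * ((w : Dg.π.ker) : G),
      (cxa_conj Dg i _).2 ⟨w.1, w.2, rfl⟩⟩ : {h : G // IsConj h (Dg.g i)})) ⟨?_, ?_⟩)
  · intro w w' h
    have h1 := congrArg Subtype.val h
    exact Subtype.ext (Subtype.ext (mul_left_cancel h1))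
  · rintro ⟨h, hh⟩
    obtain ⟨w, hw, rfl⟩ := (cxa_conj Dg i h).1 hh
    exact ⟨⟨w, hw⟩, rfl⟩

theorem cxa_gen {G : Type} [Group G] (Dg : GD p m N G) : ⨆ i, cxaA Dg i = ⊤ := by
  rw [eq_top_iff]
  intro w _
  have h1 : commutator G ≤ (⨆ i, cxaA Dg i).map Dg.π.ker.subtype := by
    rw [commutator_def, Subgroup.commutator_le]
    intro a _ b _
    rw [commutatorElement_def]
    by_cases ha : a = 1
    · rw [ha]
      have : (1 : G) * b * 1⁻¹ * b⁻¹ = 1 := by group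
      rw [this]
      exact Subgroup.one_mem _
    · obtain ⟨i, hi⟩ := Dg.cls a⁻¹ (by simpa using ha)
      rw [isConj_comm, isConj_iff] at hi
      obtain ⟨y, hy⟩ := hi
      have ha' : a = y * (Dg.g i)⁻¹ * y⁻¹ := by
        rw [← inv_inv a, ← hy]
        group
      have hc := Dg.cen _ (cxa_ker Dg (Dg.g i) (y⁻¹ * b * y)) y⁻¹
      have h2 : a * b * a⁻¹ * b⁻¹ =
          (Dg.g i)⁻¹ * (y⁻¹ * b * y) * Dg.g i * (y⁻¹ * b * y)⁻¹ := by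
        calc a * b * a⁻¹ * b⁻¹ =
            y * (((Dg.g i)⁻¹ * (y⁻¹ * b * y) * Dg.g i * (y⁻¹ * b * y)⁻¹) * y⁻¹) := by
              rw [ha']
              group
          _ = y * (y⁻¹ * ((Dg.g i)⁻¹ * (y⁻¹ * b * y) * Dg.g i * (y⁻¹ * b * y)⁻¹)) := by
              rw [hc]
          _ = _ := by group
      rw [h2]
      exact ⟨cxaT Dg i (y⁻¹ * b * y), Subgroup.mem_iSup_of_mem i ⟨_, rfl⟩, rfl⟩
  obtain ⟨w', hw', hww'⟩ := h1 (Dg.com (w : G) (MonoidHom.mem_ker.1 w.2))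
  have h3 : w' = w := Subtype.ext hww'
  rw [← h3]
  exact hw'

/-- the twist -/
def cxaM {G : Type} [Group G] (Dg : GD p m N G) (φ₀ : Gal(Ω/K) →* G)
    (χ : Gal(Ω/K) →* Dg.π.ker) : Gal(Ω/K) →* G where
  toFun σ := φ₀ σ * ((χ σ : Dg.π.ker) : G)
  map_one' := by
    rw [map_one, map_one, OneMemClass.coe_one, mul_one]
  map_mul' σ τ := by
    have hc := Dg.cen ((χ σ : Dg.π.ker) : G) (MonoidHom.mem_ker.1 (χ σ).2) (φ₀ τ)
    rw [map_mul, map_mul, Subgroup.coe_mul]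
    calc φ₀ σ * φ₀ τ * (((χ σ : Dg.π.ker) : G) * ((χ τ : Dg.π.ker) : G)) =
        φ₀ σ * (φ₀ τ * ((χ σ : Dg.π.ker) : G)) * ((χ τ : Dg.π.ker) : G) := by group
      _ = φ₀ σ * (((χ σ : Dg.π.ker) : G) * φ₀ τ) * ((χ τ : Dg.π.ker) : G) := by rw [← hc]
      _ = _ := by group

theorem cxaM_apply {G : Type} [Group G] (Dg : GD p m N G) (φ₀ : Gal(Ω/K) →* G)
    (χ : Gal(Ω/K) →* Dg.π.ker) (σ : Gal(Ω/K)) :
    cxaM Dg φ₀ χ σ = φ₀ σ * ((χ σ : Dg.π.ker) : G) := rfl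

theorem cxaM_inj {G : Type} [Group G] (Dg : GD p m N G) (φ₀ : Gal(Ω/K) →* G) :
    Function.Injective (cxaM Dg φ₀) := by
  intro χ χ' h
  apply MonoidHom.ext
  intro σ
  have h1 := DFunLike.congr_fun h σ
  rw [cxaM_apply, cxaM_apply] at h1
  exact Subtype.ext (mul_left_cancel h1)

theorem cxaM_ft {G : Type} [Group G] (Dg : GD p m N G) (φ₀ : Gal(Ω/K) →* G)
    (χ : Gal(Ω/K) →* Dg.π.ker) (h0 : H38.ML.FT φ₀) (h1 : H38.ML.FT χ) :
    H38.ML.FT (cxaM Dg φ₀ χ) := by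
  obtain ⟨E, hE, hle⟩ := h0
  obtain ⟨E', hE', hle'⟩ := h1
  refine ⟨E ⊔ E', inferInstance, fun σ hσ => ?_⟩
  have h1 : σ ∈ E.fixingSubgroup := IntermediateField.fixingSubgroup_antitone le_sup_left hσ
  have h2 : σ ∈ E'.fixingSubgroup := IntermediateField.fixingSubgroup_antitone le_sup_right hσ
  have h3 := hle h1
  have h4 := hle' h2
  rw [MonoidHom.mem_ker] at h3 h4 ⊢
  rw [cxaM_apply, h3, h4, OneMemClass.coe_one, mul_one]

theorem cxa_to {G : Type} [Group G] (D : RD0 K p ζ) (L : LDs D Ω) (Dg : GD p m N G)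
    (ε : Fin m → Kˣ) (f : Fin N → Finset (Pl K)) (φ₀ : Gal(Ω/K) →* G)
    (h0 : φ₀ ∈ XF D L Dg ε f) (χ : Gal(Ω/K) →* Dg.π.ker) (hχ : H38.ML.FT χ)
    (hA : ∀ i, ∀ v ∈ f i, χ (L.t v) ∈ cxaA Dg i)
    (h1 : ∀ v, v ∉ D.S0 → (∀ i, v ∉ f i) → χ (L.t v) = 1) :
    cxaM Dg φ₀ χ ∈ XF D L Dg ε f := by
  obtain ⟨a1, a2, a3⟩ := h0
  refine ⟨cxaM_ft Dg φ₀ χ a1 hχ, fun σ k => ?_, fun i v hv => ?_⟩
  · rw [cxaM_apply, map_mul, MonoidHom.mem_ker.1 (χ σ).2, mul_one]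
    exact a2 σ k
  · have key : ∀ j, v ∈ f j → IsConj (cxaM Dg φ₀ χ (L.t v)) (Dg.g j) := by
      intro j hj
      obtain ⟨w, hw, he⟩ := (cxa_conj Dg j _).1 ((a3 j v hv).1 hj)
      refine (cxa_conj Dg j _).2 ⟨w * χ (L.t v), Subgroup.mul_mem _ hw (hA j v hj), ?_⟩
      rw [cxaM_apply, he, Subgroup.coe_mul, mul_assoc]
    refine ⟨key i, fun h => ?_⟩
    by_cases hj : ∃ j, v ∈ f j
    · obtain ⟨j, hj⟩ := hj
      have h2 := key j hj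
      have h3 : i = j := Dg.uni i j (h.symm.trans h2)
      rw [h3]
      exact hj
    · push Not at hj
      have h2 := h1 v hv hj
      rw [cxaM_apply, h2, OneMemClass.coe_one, mul_one] at h
      exact (a3 i v hv).2 h

theorem cxa_pi {G : Type} [Group G] (D : RD0 K p ζ) (L : LDs D Ω) (Dg : GD p m N G)
    (ε : Fin m → Kˣ) (f : Fin N → Finset (Pl K)) (φ₀ φ : Gal(Ω/K) →* G)
    (h0 : φ₀ ∈ XF D L Dg ε f) (h : φ ∈ XF D L Dg ε f) (σ : Gal(Ω/K)) :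
    Dg.π (φ₀ σ) = Dg.π (φ σ) := by
  apply Multiplicative.toAdd.injective
  funext k
  rw [h0.2.1 σ k, h.2.1 σ k]

theorem cxa_from {G : Type} [Group G] (D : RD0 K p ζ) (L : LDs D Ω) (Dg : GD p m N G)
    (ε : Fin m → Kˣ) (f : Fin N → Finset (Pl K)) (hf : Ok D f) (φ₀ φ : Gal(Ω/K) →* G)
    (h0 : φ₀ ∈ XF D L Dg ε f) (h : φ ∈ XF D L Dg ε f) :
    ∃ χ : Gal(Ω/K) →* Dg.π.ker, H38.ML.FT χ ∧ (∀ i, ∀ v ∈ f i, χ (L.t v) ∈ cxaA Dg i) ∧
      (∀ v, v ∉ D.S0 → (∀ i, v ∉ f i) → χ (L.t v) = 1) ∧ cxaM Dg φ₀ χ = φ := by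
  have hpi := cxa_pi D L Dg ε f φ₀ φ h0 h
  refine ⟨gupa_chi Dg φ₀ φ hpi, gupa_chi_ft Dg φ₀ φ hpi h0.1 h.1, fun i v hv => ?_,
    fun v hv hvf => ?_, ?_⟩
  · have hv0 := hf.2 i v hv
    obtain ⟨w, hw, he⟩ := (cxa_conj Dg i _).1 ((h0.2.2 i v hv0).1 hv)
    obtain ⟨w', hw', he'⟩ := (cxa_conj Dg i _).1 ((h.2.2 i v hv0).1 hv)
    have h1 : gupa_chi Dg φ₀ φ hpi (L.t v) = w⁻¹ * w' := by
      apply Subtype.ext
      rw [gupa_chi_coe, he, he', Subgroup.coe_mul, Subgroup.coe_inv]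
      group
    rw [h1]
    exact Subgroup.mul_mem _ (Subgroup.inv_mem _ hw) hw'
  · have hone : ∀ φ' : Gal(Ω/K) →* G, φ' ∈ XF D L Dg ε f → φ' (L.t v) = 1 := by
      intro φ' h'
      by_contra hne
      obtain ⟨i, hi⟩ := Dg.cls _ hne
      exact hvf i ((h'.2.2 i v hv).2 hi)
    apply Subtype.ext
    rw [gupa_chi_coe, hone φ₀ h0, hone φ h, inv_one, mul_one]
    rfl
  · apply MonoidHom.ext
    intro σ
    rw [cxaM_apply, gupa_chi_coe]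
    group

theorem cxa_delta {G : Type} [Group G] (Dg : GD p m N G) (φ₀ φ₁ : Gal(Ω/K) →* G)
    (h0 : H38.ML.FT φ₀) (h1 : H38.ML.FT φ₁) (U : Subgroup Gal(Ω/K))
    (hU : ∀ σ ∈ U, Dg.π (φ₁ σ) = Dg.π (φ₀ σ)) :
    ∃ δ : U →* Dg.π.ker, (∀ u : U, ((δ u : Dg.π.ker) : G) = (φ₀ u)⁻¹ * φ₁ u) ∧
      ∃ E : IntermediateField K Ω, FiniteDimensional K E ∧
        ∀ u : U, (u : Gal(Ω/K)) ∈ E.fixingSubgroup → δ u = 1 := by
  have hk : ∀ u : U, (φ₀ u)⁻¹ * φ₁ u ∈ Dg.π.ker := by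
    intro u
    rw [MonoidHom.mem_ker, map_mul, map_inv, hU u u.2, inv_mul_cancel]
  let δ : U →* Dg.π.ker :=
    { toFun := fun u => ⟨(φ₀ u)⁻¹ * φ₁ u, hk u⟩
      map_one' := Subtype.ext (by
        change (φ₀ ((1 : U) : Gal(Ω/K)))⁻¹ * φ₁ ((1 : U) : Gal(Ω/K)) = 1
        rw [OneMemClass.coe_one, map_one, map_one, inv_one, mul_one])
      map_mul' := fun a b => Subtype.ext (by
        change (φ₀ ((a * b : U) : Gal(Ω/K)))⁻¹ * φ₁ ((a * b : U) : Gal(Ω/K)) =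
          ((φ₀ a)⁻¹ * φ₁ a) * ((φ₀ b)⁻¹ * φ₁ b)
        have hc := Dg.cen ((φ₀ a)⁻¹ * φ₁ a) (MonoidHom.mem_ker.1 (hk a)) (φ₀ b)⁻¹
        rw [Subgroup.coe_mul, map_mul, map_mul, mul_inv_rev, ← mul_assoc ((φ₀ a)⁻¹ * φ₁ a), hc]
        group) }
  refine ⟨δ, fun u => rfl, ?_⟩
  obtain ⟨E, hE, hle⟩ := h0
  obtain ⟨E', hE', hle'⟩ := h1
  refine ⟨E ⊔ E', inferInstance, fun u hu => ?_⟩
  have h1 : (u : Gal(Ω/K)) ∈ E.fixingSubgroup :=
    IntermediateField.fixingSubgroup_antitone le_sup_left hu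
  have h2 : (u : Gal(Ω/K)) ∈ E'.fixingSubgroup :=
    IntermediateField.fixingSubgroup_antitone le_sup_right hu
  have h3 := hle h1
  have h4 := hle' h2
  rw [MonoidHom.mem_ker] at h3 h4
  apply Subtype.ext
  change (φ₀ u)⁻¹ * φ₁ u = 1
  rw [h3, h4, inv_one, mul_one]

theorem xf_card (hp : p.Prime) (hp2 : MOne p K) (hζ : IsPrimitiveRoot ζ p) (D : RD0 K p ζ)
    (L : LDs D Ω) (Q : DP K Ω) {G : Type} [Group G] [Finite G] (hG : Ep p G) (Dg : GD p m N G) :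
    ∃ y₀ h₀ : ℕ, 0 < y₀ ∧ 0 < h₀ ∧ ∀ (ε : Fin m → Kˣ) (f : Fin N → Finset (Pl K)), Ok D f →
      (XF D L Dg ε f).Nonempty →
      (XF D L Dg ε f).Finite ∧ (XF D L Dg ε f).ncard =
        y₀ * ∏ i, Nat.card {h : G // IsConj h (Dg.g i)} ^ (f i).card ∧
      (Nex D f → ∀ φ₁ : Gal(Ω/K) →* G, H38.ML.FT φ₁ →
        (∀ v ∈ D.S0, ∀ σ ∈ dec (K := K) (Q.P v), ∀ k,
          Multiplicative.toAdd (Dg.π (φ₁ σ)) k = kk p ζ (ak D Dg.cd ε f k) σ) →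
        h₀ * {φ ∈ XF D L Dg ε f | Teq D.S0 Q φ φ₁}.ncard = (XF D L Dg ε f).ncard) := by
  letI := cxaI Dg
  obtain ⟨y₀, h₀, hy, hh, hcard⟩ := hf_card (W := Dg.π.ker) hp hp2 hζ D L Q
    (fun w => Subtype.ext (hG.exp _)) (cxaA Dg) (cxa_gen Dg)
  refine ⟨y₀, h₀, hy, hh, fun ε f hf hne => ?_⟩
  obtain ⟨φ₀, hφ₀⟩ := hne
  obtain ⟨hfin, hn, hnex⟩ := hcard f hf
  have himg : XF D L Dg ε f = cxaM Dg φ₀ '' HF D L (cxaA Dg) f := by
    ext φ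
    constructor
    · intro h
      obtain ⟨χ, c1, c2, c3, c4⟩ := cxa_from D L Dg ε f hf φ₀ φ hφ₀ h
      exact ⟨χ, ⟨c1, c2, c3⟩, c4⟩
    · rintro ⟨χ, ⟨c1, c2, c3⟩, rfl⟩
      exact cxa_to D L Dg ε f φ₀ hφ₀ χ c1 c2 c3
  have hnc : (XF D L Dg ε f).ncard = (HF D L (cxaA Dg) f).ncard := by
    rw [himg, Set.ncard_image_of_injective _ (cxaM_inj Dg φ₀)]
  refine ⟨?_, ?_, fun hN φ₁ hφ₁ hdec => ?_⟩
  · rw [himg]
    exact hfin.image _
  · rw [hnc, hn]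
    simp only [cxa_card]
  · have hpi : ∀ v ∈ D.S0, ∀ σ ∈ dec (K := K) (Q.P v), Dg.π (φ₁ σ) = Dg.π (φ₀ σ) := by
      intro v hv σ hσ
      apply Multiplicative.toAdd.injective
      funext k
      rw [hdec v hv σ hσ k, hφ₀.2.1 σ k]
    have hδ : ∀ v : Pl K, ∃ δ : dec (K := K) (Q.P v) →* Dg.π.ker, v ∈ D.S0 →
        (∀ u : dec (K := K) (Q.P v), ((δ u : Dg.π.ker) : G) = (φ₀ u)⁻¹ * φ₁ u) ∧
        ∃ E : IntermediateField K Ω, FiniteDimensional K E ∧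
          ∀ u : dec (K := K) (Q.P v), (u : Gal(Ω/K)) ∈ E.fixingSubgroup → δ u = 1 := by
      intro v
      by_cases hv : v ∈ D.S0
      · obtain ⟨δ, d1, d2⟩ := cxa_delta Dg φ₀ φ₁ hφ₀.1 hφ₁ (dec (K := K) (Q.P v)) (hpi v hv)
        exact ⟨δ, fun _ => ⟨d1, d2⟩⟩
      · exact ⟨1, fun h => absurd h hv⟩
    choose δ hδ using hδ
    obtain ⟨χ₁, hχ₁, hχδ⟩ := hw_lock (W := Dg.π.ker) hp hζ D Q (fun w => Subtype.ext (hG.exp _)) δ
      (fun v hv => (hδ v hv).2)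
    have h1 := hnex hN χ₁ hχ₁
    have himg2 : {φ ∈ XF D L Dg ε f | Teq D.S0 Q φ φ₁} =
        cxaM Dg φ₀ '' {χ ∈ HF D L (cxaA Dg) f | Teq D.S0 Q χ χ₁} := by
      have hT : ∀ χ : Gal(Ω/K) →* Dg.π.ker,
          Teq D.S0 Q (cxaM Dg φ₀ χ) φ₁ ↔ Teq D.S0 Q χ χ₁ := by
        intro χ
        unfold Teq
        refine forall_congr' fun v => forall_congr' fun hv => forall_congr' fun σ =>
          forall_congr' fun hσ => ?_
        have h2 := hχδ v hv ⟨σ, hσ⟩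
        have h3 := (hδ v hv).1 ⟨σ, hσ⟩
        rw [← h2] at h3
        have h4 : ((χ₁ σ : Dg.π.ker) : G) = (φ₀ σ)⁻¹ * φ₁ σ := h3
        rw [cxaM_apply]
        constructor
        · intro h5
          apply Subtype.ext
          rw [h4, ← h5, inv_mul_cancel_left]
        · intro h5
          rw [h5, h4, mul_inv_cancel_left]
      ext φ
      constructor
      · rintro ⟨h2, h3⟩
        rw [himg] at h2
        obtain ⟨χ, hχ, rfl⟩ := h2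
        exact ⟨χ, ⟨hχ, (hT χ).1 h3⟩, rfl⟩
      · rintro ⟨χ, ⟨hχ, h3⟩, rfl⟩
        exact ⟨himg ▸ ⟨χ, hχ, rfl⟩, (hT χ).2 h3⟩
    rw [himg2, Set.ncard_image_of_injective _ (cxaM_inj Dg φ₀), hnc]
    exact h1

end H63.MA
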